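import Pool.Agent.TH803.CL.Tr

/-! The trace inequality for clusters of points. -/

open scoped BigOperators ComplexConjugate

namespace TH803CL

open H370 TH803UC

lemma sum_fib (P : Finset ℂ) (π : ℂ → ℂ) (G : ℂ → ℂ → ℝ) :
    ∑ z ∈ P, ∑ w ∈ P, (if π z = π w then G z w else 0) =
      ∑ a ∈ P.image π, ∑ z ∈ P.filter (fun z => π z = a), ∑ w ∈ P.filter (fun z => π z = a),
        G z w := by
  rw [← Finset.sum_fiberwise_of_maps_to (fun z hz => Finset.mem_image_of_mem π hz)]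
  refine Finset.sum_congr rfl fun a _ => Finset.sum_congr rfl fun z hz => ?_
  rw [Finset.mem_filter] at hz
  rw [Finset.sum_filter]
  refine Finset.sum_congr rfl fun w _ => ?_
  rw [hz.2]
  by_cases h : π w = a
  · rw [if_pos h, if_pos h.symm]
  · rw [if_neg h, if_neg (Ne.symm h)]

lemma sum_fib1 (P : Finset ℂ) (π : ℂ → ℂ) (g : ℂ → ℝ) :
    ∑ z ∈ P, g z = ∑ a ∈ P.image π, ∑ z ∈ P.filter (fun z => π z = a), g z :=
  (Finset.sum_fiberwise_of_maps_to (fun z hz => Finset.mem_image_of_mem π hz) g).symm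

/-- the total multiplicity of a cluster -/
noncomputable def Wc (Z : Finset ℂ) (m : ℂ → ℕ) (π : ℂ → ℂ) (a : ℂ) : ℝ :=
  ∑ z ∈ (Z.filter (fun z => 0 ≤ z.im)).filter (fun z => π z = a), cw m z

lemma cw_ge {Z : Finset ℂ} {m : ℂ → ℕ} (hm1 : ∀ z ∈ Z, 1 ≤ m z) {z : ℂ} (hz : z ∈ Z) :
    1 ≤ cw m z := by
  have h1 : (1 : ℝ) ≤ m z := by exact_mod_cast hm1 z hz
  unfold cw
  split_ifs <;> linarith

lemma cw_two {Z : Finset ℂ} {m : ℂ → ℕ} (hm1 : ∀ z ∈ Z, 1 ≤ m z) {z : ℂ} (hz : z ∈ Z)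
    (h : z.im ≠ 0) : 2 ≤ cw m z := by
  have h1 : (1 : ℝ) ≤ m z := by exact_mod_cast hm1 z hz
  unfold cw
  rw [if_neg h]; linarith

lemma Wc_ge {Z : Finset ℂ} {m : ℂ → ℕ} {π : ℂ → ℂ} {z : ℂ}
    (hz : z ∈ Z.filter (fun z => 0 ≤ z.im)) : cw m z ≤ Wc Z m π (π z) := by
  unfold Wc
  refine Finset.single_le_sum (f := fun z => cw m z) (fun w _ => cw_nonneg m w) ?_
  rw [Finset.mem_filter]
  exact ⟨hz, rfl⟩

/-- **the trace inequality for clusters** -/
theorem cluster_ineq {E : Type*} [NormedAddCommGroup E] [InnerProductSpace ℂ E]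
    (φ : ℂ → ℂ) (k : ℂ → E) (hk : ∀ z w, inner ℂ (k z) (k w) = φ (w - (starRingEnd ℂ) z))
    (hev : ∀ z, φ (-z) = φ z) (h0 : φ 0 = 1)
    (Z : Finset ℂ) (hZ : ∀ z ∈ Z, (starRingEnd ℂ) z ∈ Z) (m : ℂ → ℕ)
    (hm1 : ∀ z ∈ Z, 1 ≤ m z) (hmc : ∀ z ∈ Z, m ((starRingEnd ℂ) z) = m z)
    (π : ℂ → ℂ) {η : ℝ} (hη : 0 ≤ η)
    (hA : ∀ z ∈ Z, ∀ w ∈ Z, 0 ≤ z.im → 0 ≤ w.im → π z = π w →
      (φ ((starRingEnd ℂ) z - z)).re - η ≤ (φ ((starRingEnd ℂ) z - w)).re)
    (hB : ∀ z ∈ Z, ∀ w ∈ Z, 0 ≤ z.im → 0 ≤ w.im → π z = π w →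
      1 - η ≤ (φ ((starRingEnd ℂ) z - (starRingEnd ℂ) w)).re) :
    ∑ a ∈ (Z.filter (fun z => 0 ≤ z.im)).image π,
        (if Wc Z m π a = 1 then 1 else 4 * Wc Z m π a - 4) ≤
      (∑ z ∈ Z, ∑ w ∈ Z, (m z : ℂ) * (m w : ℂ) * (φ (z - w)) ^ 2).re +
        4 * η * ∑ z ∈ Z.filter (fun z => 0 ≤ z.im), cw m z := by
  set P := Z.filter (fun z => 0 ≤ z.im) with hP
  have hPm : ∀ z ∈ P, z ∈ Z ∧ 0 ≤ z.im := fun z hz => by rwa [hP, Finset.mem_filter] at hz
  set W := Wc Z m π with hW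
  have hW1 : ∀ a ∈ P.image π, 1 ≤ W a := by
    intro a ha
    rw [Finset.mem_image] at ha
    obtain ⟨z, hz, rfl⟩ := ha
    exact (cw_ge hm1 (hPm z hz).1).trans (Wc_ge hz)
  set κ : ℂ → ℝ := fun a => if W a = 1 then 1 else 2 with hκ
  have hκ1 : ∀ a, 0 ≤ κ a ∧ κ a ≤ 2 := by
    intro a; simp only [hκ]; split_ifs <;> norm_num
  set D : ℂ → ℂ → ℝ := fun z w => if π z = π w then
    κ (π z) / W (π z) * (Real.sqrt (cw m z) * Real.sqrt (cw m w)) else 0 with hD
  have hWdef : ∀ a, W a = ∑ z ∈ P.filter (fun z => π z = a), cw m z := fun a => rfl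
  have hD2 : ∀ v : ℂ → ℂ, ∑ i ∈ P, ∑ j ∈ P, D i j * ((starRingEnd ℂ (v i)) * v j).re ≤
        2 * ∑ i ∈ P, ‖v i‖ ^ 2 := by
    intro v
    have e1 : ∀ i ∈ P, ∀ j ∈ P, D i j * ((starRingEnd ℂ (v i)) * v j).re =
        if π i = π j then κ (π i) / W (π i) * (Real.sqrt (cw m i) * Real.sqrt (cw m j)) *
          ((starRingEnd ℂ (v i)) * v j).re else 0 := by
      intro i _ j _
      simp only [hD]
      split_ifs <;> simp
    rw [Finset.sum_congr rfl fun i hi => Finset.sum_congr rfl fun j hj => e1 i hi j hj,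
      sum_fib, sum_fib1 P π (fun i => ‖v i‖ ^ 2), Finset.mul_sum]
    refine Finset.sum_le_sum fun a ha => ?_
    set C := P.filter (fun z => π z = a) with hC
    have hWa := hW1 a ha
    have hWa0 : 0 < W a := by linarith
    have h1 : ∑ i ∈ C, ∑ j ∈ C, κ (π i) / W (π i) * (Real.sqrt (cw m i) * Real.sqrt (cw m j)) *
          ((starRingEnd ℂ (v i)) * v j).re ≤ κ a / W a *
          (∑ i ∈ C, Real.sqrt (cw m i) * ‖v i‖) ^ 2 := by
      rw [sq, Finset.sum_mul_sum, Finset.mul_sum]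
      refine Finset.sum_le_sum fun i hi => ?_
      rw [Finset.mul_sum]
      refine Finset.sum_le_sum fun j hj => ?_
      have hi2 : π i = a := (Finset.mem_filter.1 hi).2
      rw [hi2]
      have h2 : ((starRingEnd ℂ (v i)) * v j).re ≤ ‖v i‖ * ‖v j‖ := by
        refine (Complex.re_le_norm _).trans ?_
        rw [norm_mul, RCLike.norm_conj]
      have h3 : 0 ≤ κ a / W a := div_nonneg (hκ1 a).1 hWa0.le
      calc κ a / W a * (Real.sqrt (cw m i) * Real.sqrt (cw m j)) *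
          ((starRingEnd ℂ (v i)) * v j).re ≤
          κ a / W a * (Real.sqrt (cw m i) * Real.sqrt (cw m j)) * (‖v i‖ * ‖v j‖) := by gcongr
        _ = _ := by ring
    refine h1.trans ?_
    have h4 : (∑ i ∈ C, Real.sqrt (cw m i) * ‖v i‖) ^ 2 ≤
        (∑ i ∈ C, (Real.sqrt (cw m i)) ^ 2) * (∑ i ∈ C, ‖v i‖ ^ 2) :=
      Finset.sum_mul_sq_le_sq_mul_sq C _ _
    have h5 : ∑ i ∈ C, (Real.sqrt (cw m i)) ^ 2 = W a := by
      rw [hWdef]
      exact Finset.sum_congr rfl fun i _ => Real.sq_sqrt (cw_nonneg m i)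
    rw [h5] at h4
    have h6 : 0 ≤ κ a / W a := div_nonneg (hκ1 a).1 hWa0.le
    have h7 : 0 ≤ ∑ i ∈ C, ‖v i‖ ^ 2 := Finset.sum_nonneg fun i _ => by positivity
    calc κ a / W a * (∑ i ∈ C, Real.sqrt (cw m i) * ‖v i‖) ^ 2 ≤
        κ a / W a * (W a * ∑ i ∈ C, ‖v i‖ ^ 2) := by gcongr
      _ = κ a * ∑ i ∈ C, ‖v i‖ ^ 2 := by field_simp
      _ ≤ 2 * ∑ i ∈ C, ‖v i‖ ^ 2 := by
        gcongr
        exact (hκ1 a).2
  have hmain := trace_D (fun z w => φ (z - w)) k (fun z w => by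
    rw [hk, ← hev, neg_sub]) (fun z w => by rw [← hev, neg_sub]) Z hZ m hmc D hD2
  rw [← hP] at hmain
  have e2 : ∀ z ∈ P, ∀ w ∈ P, (2 * (D z w * (Real.sqrt (cw m z / 4) * Real.sqrt (cw m w / 4) *
          (2 * (φ ((starRingEnd ℂ) z - w)).re +
            2 * (φ ((starRingEnd ℂ) z - (starRingEnd ℂ) w)).re))) - (D z w) ^ 2) =
      if π z = π w then κ (π z) / W (π z) * (cw m z * cw m w) *
        ((φ ((starRingEnd ℂ) z - w)).re + (φ ((starRingEnd ℂ) z - (starRingEnd ℂ) w)).re) -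
          (κ (π z) / W (π z)) ^ 2 * (cw m z * cw m w) else 0 := by
    intro z _ w _
    have s1 : ∀ u : ℂ, Real.sqrt (cw m u / 4) = Real.sqrt (cw m u) / 2 := by
      intro u
      rw [Real.sqrt_div (cw_nonneg m u), show (4 : ℝ) = 2 ^ 2 by norm_num,
        Real.sqrt_sq (by norm_num)]
    have s2 : ∀ u : ℂ, Real.sqrt (cw m u) * Real.sqrt (cw m u) = cw m u :=
      fun u => Real.mul_self_sqrt (cw_nonneg m u)
    simp only [hD, s1]
    split_ifs with h
    · set A := (φ ((starRingEnd ℂ) z - w)).re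
      set B := (φ ((starRingEnd ℂ) z - (starRingEnd ℂ) w)).re
      set q := κ (π z) / W (π z)
      calc _ = q * ((Real.sqrt (cw m z) * Real.sqrt (cw m z)) *
            (Real.sqrt (cw m w) * Real.sqrt (cw m w))) * (A + B) -
            q ^ 2 * ((Real.sqrt (cw m z) * Real.sqrt (cw m z)) *
            (Real.sqrt (cw m w) * Real.sqrt (cw m w))) := by ring
        _ = _ := by rw [s2, s2]
    · simp
  rw [Finset.sum_congr rfl fun z hz => Finset.sum_congr rfl fun w hw => e2 z hz w hw,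
    sum_fib, sum_fib1 P π (fun z => 2 * cw m z *
      ((φ ((starRingEnd ℂ) z - z)).re - (φ (z - z)).re))] at hmain
  rw [sum_fib1 P π (fun z => cw m z), Finset.mul_sum]
  have key : ∀ a ∈ P.image π, (if W a = 1 then 1 else 4 * W a - 4) +
      ∑ z ∈ P.filter (fun z => π z = a), 2 * cw m z *
        ((φ ((starRingEnd ℂ) z - z)).re - (φ (z - z)).re) ≤
      ∑ z ∈ P.filter (fun z => π z = a), ∑ w ∈ P.filter (fun z => π z = a),
        (κ (π z) / W (π z) * (cw m z * cw m w) *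
        ((φ ((starRingEnd ℂ) z - w)).re + (φ ((starRingEnd ℂ) z - (starRingEnd ℂ) w)).re) -
          (κ (π z) / W (π z)) ^ 2 * (cw m z * cw m w)) +
      4 * η * ∑ z ∈ P.filter (fun z => π z = a), cw m z := by
    intro a ha
    set C := P.filter (fun z => π z = a) with hC
    have hWa := hW1 a ha
    have hWa0 : 0 < W a := by linarith
    have hCm : ∀ z ∈ C, z ∈ P ∧ π z = a := fun z hz => Finset.mem_filter.1 hz
    set Y : ℂ → ℝ := fun z => (φ ((starRingEnd ℂ) z - z)).re with hY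
    -- lower bound for the double sum
    have h1 : ∑ z ∈ C, ∑ w ∈ C, (κ a / W a * (cw m z * cw m w) * (Y z + 1 - 2 * η) -
          (κ a / W a) ^ 2 * (cw m z * cw m w)) ≤
        ∑ z ∈ C, ∑ w ∈ C, (κ (π z) / W (π z) * (cw m z * cw m w) *
        ((φ ((starRingEnd ℂ) z - w)).re + (φ ((starRingEnd ℂ) z - (starRingEnd ℂ) w)).re) -
          (κ (π z) / W (π z)) ^ 2 * (cw m z * cw m w)) := by
      refine Finset.sum_le_sum fun z hz => Finset.sum_le_sum fun w hw => ?_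
      obtain ⟨hz1, hz2⟩ := hCm z hz
      obtain ⟨hw1, hw2⟩ := hCm w hw
      rw [hz2]
      have hz3 := hPm z hz1
      have hw3 := hPm w hw1
      have a1 := hA z hz3.1 w hw3.1 hz3.2 hw3.2 (hz2.trans hw2.symm)
      have a2 := hB z hz3.1 w hw3.1 hz3.2 hw3.2 (hz2.trans hw2.symm)
      have h3 : 0 ≤ κ a / W a * (cw m z * cw m w) :=
        mul_nonneg (div_nonneg (hκ1 a).1 hWa0.le) (mul_nonneg (cw_nonneg m z) (cw_nonneg m w))
      have h4 : Y z + 1 - 2 * η ≤ (φ ((starRingEnd ℂ) z - w)).re +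
          (φ ((starRingEnd ℂ) z - (starRingEnd ℂ) w)).re := by
        simp only [hY]; linarith
      have := mul_le_mul_of_nonneg_left h4 h3
      linarith
    have h2 : ∑ z ∈ C, ∑ w ∈ C, (κ a / W a * (cw m z * cw m w) * (Y z + 1 - 2 * η) -
          (κ a / W a) ^ 2 * (cw m z * cw m w)) =
        κ a * ∑ z ∈ C, cw m z * Y z + κ a * (1 - 2 * η) * W a - κ a ^ 2 := by
      have e3 : ∀ z ∈ C, ∑ w ∈ C, (κ a / W a * (cw m z * cw m w) * (Y z + 1 - 2 * η) -
          (κ a / W a) ^ 2 * (cw m z * cw m w)) = κ a * (cw m z * Y z) +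
            κ a * (1 - 2 * η) * cw m z - κ a ^ 2 / W a * cw m z := by
        intro z _
        have : ∑ w ∈ C, (κ a / W a * (cw m z * cw m w) * (Y z + 1 - 2 * η) -
          (κ a / W a) ^ 2 * (cw m z * cw m w)) = (κ a / W a * cw m z * (Y z + 1 - 2 * η) -
            (κ a / W a) ^ 2 * cw m z) * ∑ w ∈ C, cw m w := by
          rw [Finset.mul_sum]
          refine Finset.sum_congr rfl fun w _ => ?_
          ring
        rw [this, ← hWdef a]
        field_simp
        ring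
      rw [Finset.sum_congr rfl e3, Finset.sum_sub_distrib, Finset.sum_add_distrib,
        ← Finset.mul_sum, ← Finset.mul_sum, ← Finset.mul_sum, ← hWdef a]
      field_simp
    have h5 : ∑ z ∈ C, 2 * cw m z * ((φ ((starRingEnd ℂ) z - z)).re - (φ (z - z)).re) =
        2 * ∑ z ∈ C, cw m z * Y z - 2 * W a := by
      rw [hWdef a, Finset.mul_sum, Finset.mul_sum, ← Finset.sum_sub_distrib]
      refine Finset.sum_congr rfl fun z _ => ?_
      simp only [hY, sub_self, h0, Complex.one_re]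
      ring
    rw [h5, ← hWdef a]
    have h6 : (if W a = 1 then 1 else 4 * W a - 4) + (2 * ∑ z ∈ C, cw m z * Y z - 2 * W a) ≤
        (κ a * ∑ z ∈ C, cw m z * Y z + κ a * (1 - 2 * η) * W a - κ a ^ 2) + 4 * η * W a := by
      by_cases hw : W a = 1
      · have hreal : ∀ z ∈ C, z.im = 0 := by
          intro z hz
          by_contra hne
          obtain ⟨hz1, hz2⟩ := hCm z hz
          have b1 := cw_two hm1 (hPm z hz1).1 hne
          have b2 : cw m z ≤ W a := by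
            have := Wc_ge (m := m) (π := π) hz1
            rwa [hz2] at this
          linarith
        have hYs : ∑ z ∈ C, cw m z * Y z = W a := by
          rw [hWdef a]
          refine Finset.sum_congr rfl fun z hz => ?_
          have hc : (starRingEnd ℂ) z = z := Complex.conj_eq_iff_im.mpr (hreal z hz)
          simp only [hY]
          rw [hc, sub_self, h0]
          simp
        have hk1 : κ a = 1 := by simp only [hκ]; rw [if_pos hw]
        rw [if_pos hw, hYs, hk1, hw]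
        linarith
      · have hk2 : κ a = 2 := by simp only [hκ]; rw [if_neg hw]
        rw [if_neg hw, hk2]
        nlinarith
    linarith
  have := Finset.sum_le_sum key
  rw [Finset.sum_add_distrib, Finset.sum_add_distrib] at this
  linarith

end TH803CL
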