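import Pool.Agent.TH803.CL.Geo

/-! The trace inequality for clusters of points, with an off-diagonal test matrix on the clusters of
total multiplicity one. -/

open scoped BigOperators ComplexConjugate

namespace TH803CL

open H370 TH803UC

/-- the factor of a cluster -/
noncomputable def kp (Z : Finset ℂ) (m : ℂ → ℕ) (π : ℂ → ℂ) (a : ℂ) : ℝ :=
  if Wc Z m π a = 1 then 1 else 2

open Classical in
/-- the test matrix of the clusters -/
noncomputable def Dm (Z : Finset ℂ) (m : ℂ → ℕ) (π : ℂ → ℂ) (z w : ℂ) : ℝ :=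
  if π z = π w then kp Z m π (π z) / Wc Z m π (π z) * (Real.sqrt (cw m z) * Real.sqrt (cw m w))
  else 0

lemma kp_bd (Z : Finset ℂ) (m : ℂ → ℕ) (π : ℂ → ℂ) (a : ℂ) : 0 ≤ kp Z m π a ∧ kp Z m π a ≤ 2 := by
  unfold kp; split_ifs <;> norm_num

lemma Wc_pos {Z : Finset ℂ} {m : ℂ → ℕ} (hm1 : ∀ z ∈ Z, 1 ≤ m z) {π : ℂ → ℂ} {a : ℂ}
    (ha : a ∈ (Z.filter (fun z => 0 ≤ z.im)).image π) : 1 ≤ Wc Z m π a := by
  rw [Finset.mem_image] at ha
  obtain ⟨z, hz, rfl⟩ := ha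
  exact (cw_ge hm1 (Finset.mem_filter.1 hz).1).trans (Wc_ge hz)

lemma D_quad (Z : Finset ℂ) (m : ℂ → ℕ) (hm1 : ∀ z ∈ Z, 1 ≤ m z) (π : ℂ → ℂ) (v : ℂ → ℂ) :
    ∑ i ∈ Z.filter (fun z => 0 ≤ z.im), ∑ j ∈ Z.filter (fun z => 0 ≤ z.im),
      Dm Z m π i j * ((starRingEnd ℂ (v i)) * v j).re ≤
        ∑ i ∈ Z.filter (fun z => 0 ≤ z.im), kp Z m π (π i) * ‖v i‖ ^ 2 := by
  classical
  set P := Z.filter (fun z => 0 ≤ z.im) with hP
  set W := Wc Z m π with hW
  set κ := kp Z m π with hκ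
  have hWdef : ∀ a, W a = ∑ z ∈ P.filter (fun z => π z = a), cw m z := fun a => rfl
  have e1 : ∀ i ∈ P, ∀ j ∈ P, Dm Z m π i j * ((starRingEnd ℂ (v i)) * v j).re =
      if π i = π j then κ (π i) / W (π i) * (Real.sqrt (cw m i) * Real.sqrt (cw m j)) *
        ((starRingEnd ℂ (v i)) * v j).re else 0 := by
    intro i _ j _
    unfold Dm
    split_ifs <;> simp [hκ, hW]
  rw [Finset.sum_congr rfl fun i hi => Finset.sum_congr rfl fun j hj => e1 i hi j hj,
    sum_fib, sum_fib1 P π (fun i => κ (π i) * ‖v i‖ ^ 2)]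
  refine Finset.sum_le_sum fun a ha => ?_
  set C := P.filter (fun z => π z = a) with hC
  have hWa : 1 ≤ W a := Wc_pos hm1 ha
  have hWa0 : 0 < W a := by linarith
  have hk := kp_bd Z m π a
  rw [← hκ] at hk
  have h1 : ∑ i ∈ C, ∑ j ∈ C, κ (π i) / W (π i) * (Real.sqrt (cw m i) * Real.sqrt (cw m j)) *
        ((starRingEnd ℂ (v i)) * v j).re ≤ κ a / W a *
        (∑ i ∈ C, Real.sqrt (cw m i) * ‖v i‖) ^ 2 := by
    rw [sq, Finset.sum_mul_sum, Finset.mul_sum]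
    refine Finset.sum_le_sum fun i hi => ?_
    rw [Finset.mul_sum]
    refine Finset.sum_le_sum fun j hj => ?_
    have hi2 : π i = a := (Finset.mem_filter.1 hi).2
    rw [hi2]
    have h2 : ((starRingEnd ℂ (v i)) * v j).re ≤ ‖v i‖ * ‖v j‖ := by
      refine (Complex.re_le_norm _).trans ?_
      rw [norm_mul, RCLike.norm_conj]
    have h3 : 0 ≤ κ a / W a := div_nonneg hk.1 hWa0.le
    calc κ a / W a * (Real.sqrt (cw m i) * Real.sqrt (cw m j)) *
        ((starRingEnd ℂ (v i)) * v j).re ≤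
        κ a / W a * (Real.sqrt (cw m i) * Real.sqrt (cw m j)) * (‖v i‖ * ‖v j‖) := by gcongr
      _ = _ := by ring
  refine h1.trans ?_
  have h4 : (∑ i ∈ C, Real.sqrt (cw m i) * ‖v i‖) ^ 2 ≤
      (∑ i ∈ C, (Real.sqrt (cw m i)) ^ 2) * (∑ i ∈ C, ‖v i‖ ^ 2) :=
    Finset.sum_mul_sq_le_sq_mul_sq C _ _
  have h5 : ∑ i ∈ C, (Real.sqrt (cw m i)) ^ 2 = W a := by
    rw [hWdef]
    exact Finset.sum_congr rfl fun i _ => Real.sq_sqrt (cw_nonneg m i)
  rw [h5] at h4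
  have h6 : 0 ≤ κ a / W a := div_nonneg hk.1 hWa0.le
  have h7 : 0 ≤ ∑ i ∈ C, ‖v i‖ ^ 2 := Finset.sum_nonneg fun i _ => by positivity
  have h8 : ∑ i ∈ C, κ (π i) * ‖v i‖ ^ 2 = κ a * ∑ i ∈ C, ‖v i‖ ^ 2 := by
    rw [Finset.mul_sum]
    refine Finset.sum_congr rfl fun i hi => ?_
    rw [(Finset.mem_filter.1 hi).2]
  rw [h8]
  calc κ a / W a * (∑ i ∈ C, Real.sqrt (cw m i) * ‖v i‖) ^ 2 ≤
      κ a / W a * (W a * ∑ i ∈ C, ‖v i‖ ^ 2) := by gcongr
    _ = κ a * ∑ i ∈ C, ‖v i‖ ^ 2 := by field_simp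

lemma D_low (φ : ℂ → ℂ) (h0 : φ 0 = 1)
    (Z : Finset ℂ) (m : ℂ → ℕ)
    (hm1 : ∀ z ∈ Z, 1 ≤ m z)
    (π : ℂ → ℂ) {η : ℝ} (hη : 0 ≤ η)
    (hA : ∀ z ∈ Z, ∀ w ∈ Z, 0 ≤ z.im → 0 ≤ w.im → π z = π w →
      (φ ((starRingEnd ℂ) z - z)).re - η ≤ (φ ((starRingEnd ℂ) z - w)).re)
    (hB : ∀ z ∈ Z, ∀ w ∈ Z, 0 ≤ z.im → 0 ≤ w.im → π z = π w →
      1 - η ≤ (φ ((starRingEnd ℂ) z - (starRingEnd ℂ) w)).re) :
    ∑ a ∈ (Z.filter (fun z => 0 ≤ z.im)).image π,
        (if Wc Z m π a = 1 then 1 else 4 * Wc Z m π a - 4) +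
      ∑ z ∈ Z.filter (fun z => 0 ≤ z.im), 2 * cw m z *
        ((φ ((starRingEnd ℂ) z - z)).re - (φ (z - z)).re) ≤
      ∑ z ∈ Z.filter (fun z => 0 ≤ z.im), ∑ w ∈ Z.filter (fun z => 0 ≤ z.im),
        (2 * (Dm Z m π z w * (Real.sqrt (cw m z / 4) * Real.sqrt (cw m w / 4) *
          (2 * (φ ((starRingEnd ℂ) z - w)).re +
            2 * (φ ((starRingEnd ℂ) z - (starRingEnd ℂ) w)).re))) - (Dm Z m π z w) ^ 2) +
        4 * η * ∑ z ∈ Z.filter (fun z => 0 ≤ z.im), cw m z := by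
  classical
  set P := Z.filter (fun z => 0 ≤ z.im) with hP
  have hPm : ∀ z ∈ P, z ∈ Z ∧ 0 ≤ z.im := fun z hz => by rwa [hP, Finset.mem_filter] at hz
  set W := Wc Z m π with hW
  set κ := kp Z m π with hκ
  have hκ1 : ∀ a, 0 ≤ κ a ∧ κ a ≤ 2 := kp_bd Z m π
  have hWdef : ∀ a, W a = ∑ z ∈ P.filter (fun z => π z = a), cw m z := fun a => rfl
  have e2 : ∀ z ∈ P, ∀ w ∈ P, (2 * (Dm Z m π z w * (Real.sqrt (cw m z / 4) *
        Real.sqrt (cw m w / 4) * (2 * (φ ((starRingEnd ℂ) z - w)).re +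
            2 * (φ ((starRingEnd ℂ) z - (starRingEnd ℂ) w)).re))) - (Dm Z m π z w) ^ 2) =
      if π z = π w then κ (π z) / W (π z) * (cw m z * cw m w) *
        ((φ ((starRingEnd ℂ) z - w)).re + (φ ((starRingEnd ℂ) z - (starRingEnd ℂ) w)).re) -
          (κ (π z) / W (π z)) ^ 2 * (cw m z * cw m w) else 0 := by
    intro z _ w _
    have s1 : ∀ u : ℂ, Real.sqrt (cw m u / 4) = Real.sqrt (cw m u) / 2 := by
      intro u
      rw [Real.sqrt_div (cw_nonneg m u), show (4 : ℝ) = 2 ^ 2 by norm_num,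
        Real.sqrt_sq (by norm_num)]
    have s2 : ∀ u : ℂ, Real.sqrt (cw m u) * Real.sqrt (cw m u) = cw m u :=
      fun u => Real.mul_self_sqrt (cw_nonneg m u)
    unfold Dm
    simp only [s1]
    split_ifs with h
    · set A := (φ ((starRingEnd ℂ) z - w)).re
      set B := (φ ((starRingEnd ℂ) z - (starRingEnd ℂ) w)).re
      rw [← hκ, ← hW]
      set q := κ (π z) / W (π z)
      calc _ = q * ((Real.sqrt (cw m z) * Real.sqrt (cw m z)) *
            (Real.sqrt (cw m w) * Real.sqrt (cw m w))) * (A + B) -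
            q ^ 2 * ((Real.sqrt (cw m z) * Real.sqrt (cw m z)) *
            (Real.sqrt (cw m w) * Real.sqrt (cw m w))) := by ring
        _ = _ := by rw [s2, s2]
    · simp
  rw [Finset.sum_congr rfl fun z hz => Finset.sum_congr rfl fun w hw => e2 z hz w hw,
    sum_fib, sum_fib1 P π (fun z => 2 * cw m z *
      ((φ ((starRingEnd ℂ) z - z)).re - (φ (z - z)).re)),
    sum_fib1 P π (fun z => cw m z), Finset.mul_sum, ← Finset.sum_add_distrib,
    ← Finset.sum_add_distrib]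
  refine Finset.sum_le_sum fun a ha => ?_
  set C := P.filter (fun z => π z = a) with hC
  have hWa : 1 ≤ W a := Wc_pos hm1 ha
  have hWa0 : 0 < W a := by linarith
  have hCm : ∀ z ∈ C, z ∈ P ∧ π z = a := fun z hz => Finset.mem_filter.1 hz
  set Y : ℂ → ℝ := fun z => (φ ((starRingEnd ℂ) z - z)).re with hY
  -- lower bound for the double sum
  have h1 : ∑ z ∈ C, ∑ w ∈ C, (κ a / W a * (cw m z * cw m w) * (Y z + 1 - 2 * η) -
        (κ a / W a) ^ 2 * (cw m z * cw m w)) ≤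
      ∑ z ∈ C, ∑ w ∈ C, (κ (π z) / W (π z) * (cw m z * cw m w) *
      ((φ ((starRingEnd ℂ) z - w)).re + (φ ((starRingEnd ℂ) z - (starRingEnd ℂ) w)).re) -
        (κ (π z) / W (π z)) ^ 2 * (cw m z * cw m w)) := by
    refine Finset.sum_le_sum fun z hz => Finset.sum_le_sum fun w hw => ?_
    obtain ⟨hz1, hz2⟩ := hCm z hz
    obtain ⟨hw1, hw2⟩ := hCm w hw
    rw [hz2]
    have hz3 := hPm z hz1
    have hw3 := hPm w hw1
    have a1 := hA z hz3.1 w hw3.1 hz3.2 hw3.2 (hz2.trans hw2.symm)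
    have a2 := hB z hz3.1 w hw3.1 hz3.2 hw3.2 (hz2.trans hw2.symm)
    have h3 : 0 ≤ κ a / W a * (cw m z * cw m w) :=
      mul_nonneg (div_nonneg (hκ1 a).1 hWa0.le) (mul_nonneg (cw_nonneg m z) (cw_nonneg m w))
    have h4 : Y z + 1 - 2 * η ≤ (φ ((starRingEnd ℂ) z - w)).re +
        (φ ((starRingEnd ℂ) z - (starRingEnd ℂ) w)).re := by
      simp only [hY]; linarith
    have := mul_le_mul_of_nonneg_left h4 h3
    linarith
  have h2 : ∑ z ∈ C, ∑ w ∈ C, (κ a / W a * (cw m z * cw m w) * (Y z + 1 - 2 * η) -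
        (κ a / W a) ^ 2 * (cw m z * cw m w)) =
      κ a * ∑ z ∈ C, cw m z * Y z + κ a * (1 - 2 * η) * W a - κ a ^ 2 := by
    have e3 : ∀ z ∈ C, ∑ w ∈ C, (κ a / W a * (cw m z * cw m w) * (Y z + 1 - 2 * η) -
        (κ a / W a) ^ 2 * (cw m z * cw m w)) = κ a * (cw m z * Y z) +
          κ a * (1 - 2 * η) * cw m z - κ a ^ 2 / W a * cw m z := by
      intro z _
      have : ∑ w ∈ C, (κ a / W a * (cw m z * cw m w) * (Y z + 1 - 2 * η) -
        (κ a / W a) ^ 2 * (cw m z * cw m w)) = (κ a / W a * cw m z * (Y z + 1 - 2 * η) -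
          (κ a / W a) ^ 2 * cw m z) * ∑ w ∈ C, cw m w := by
        rw [Finset.mul_sum]
        refine Finset.sum_congr rfl fun w _ => ?_
        ring
      rw [this, ← hWdef a]
      field_simp
      ring
    rw [Finset.sum_congr rfl e3, Finset.sum_sub_distrib, Finset.sum_add_distrib,
      ← Finset.mul_sum, ← Finset.mul_sum, ← Finset.mul_sum, ← hWdef a]
    field_simp
  have h5 : ∑ z ∈ C, 2 * cw m z * ((φ ((starRingEnd ℂ) z - z)).re - (φ (z - z)).re) =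
      2 * ∑ z ∈ C, cw m z * Y z - 2 * W a := by
    rw [hWdef a, Finset.mul_sum, Finset.mul_sum, ← Finset.sum_sub_distrib]
    refine Finset.sum_congr rfl fun z _ => ?_
    simp only [hY, sub_self, h0, Complex.one_re]
    ring
  rw [h5, ← hWdef a]
  have h6 : (if W a = 1 then 1 else 4 * W a - 4) + (2 * ∑ z ∈ C, cw m z * Y z - 2 * W a) ≤
      (κ a * ∑ z ∈ C, cw m z * Y z + κ a * (1 - 2 * η) * W a - κ a ^ 2) + 4 * η * W a := by
    by_cases hw : W a = 1
    · have hreal : ∀ z ∈ C, z.im = 0 := by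
        intro z hz
        by_contra hne
        obtain ⟨hz1, hz2⟩ := hCm z hz
        have b1 := cw_two hm1 (hPm z hz1).1 hne
        have b2 : cw m z ≤ W a := by
          have := Wc_ge (m := m) (π := π) hz1
          rwa [hz2] at this
        linarith
      have hYs : ∑ z ∈ C, cw m z * Y z = W a := by
        rw [hWdef a]
        refine Finset.sum_congr rfl fun z hz => ?_
        have hc : (starRingEnd ℂ) z = z := Complex.conj_eq_iff_im.mpr (hreal z hz)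
        simp only [hY]
        rw [hc, sub_self, h0]
        simp
      have hk1 : κ a = 1 := by rw [hκ]; unfold kp; rw [← hW, if_pos hw]
      rw [if_pos hw, hYs, hk1, hw]
      linarith
    · have hk2 : κ a = 2 := by rw [hκ]; unfold kp; rw [← hW, if_neg hw]
      rw [if_neg hw, hk2]
      nlinarith
  linarith

open Classical in
/-- the points whose cluster has total multiplicity one -/
noncomputable def Tp (Z : Finset ℂ) (m : ℂ → ℕ) (π : ℂ → ℂ) : Finset ℂ :=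
  (Z.filter (fun z => 0 ≤ z.im)).filter (fun z => Wc Z m π (π z) = 1)

open Classical in
/-- their real parts -/
noncomputable def TS (Z : Finset ℂ) (m : ℂ → ℕ) (π : ℂ → ℂ) : Finset ℝ :=
  (Tp Z m π).image Complex.re

section

variable {Z : Finset ℂ} {m : ℂ → ℕ} (hm1 : ∀ z ∈ Z, 1 ≤ m z) {π : ℂ → ℂ}

include hm1

lemma Tp_real {z : ℂ} (hz : z ∈ Tp Z m π) : z ∈ Z ∧ z.im = 0 ∧ cw m z = 1 ∧ m z = 1 := by
  classical
  unfold Tp at hz
  rw [Finset.mem_filter] at hz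
  obtain ⟨hz1, hz2⟩ := hz
  have hzZ := (Finset.mem_filter.1 hz1).1
  have h1 : cw m z ≤ 1 := by
    have := Wc_ge (m := m) (π := π) hz1
    rwa [hz2] at this
  have h2 : z.im = 0 := by
    by_contra hne
    have := cw_two hm1 hzZ hne
    linarith
  have h3 := cw_ge hm1 hzZ
  have h5 : cw m z = 1 := le_antisymm h1 h3
  refine ⟨hzZ, h2, h5, ?_⟩
  have h4 : cw m z = m z := by unfold cw; rw [if_pos h2]
  rw [h4] at h5
  exact_mod_cast h5

lemma Tp_inj {z w : ℂ} (hz : z ∈ Tp Z m π) (hw : w ∈ (Z.filter (fun z => 0 ≤ z.im)))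
    (h : π z = π w) : z = w := by
  classical
  by_contra hne
  have hz' := hz
  unfold Tp at hz'
  rw [Finset.mem_filter] at hz'
  obtain ⟨hz1, hz2⟩ := hz'
  have h1 : cw m z + cw m w ≤ Wc Z m π (π z) := by
    unfold Wc
    rw [← Finset.sum_pair hne]
    refine Finset.sum_le_sum_of_subset_of_nonneg ?_ fun w _ _ => cw_nonneg m w
    intro u hu
    rw [Finset.mem_insert, Finset.mem_singleton] at hu
    rw [Finset.mem_filter]
    rcases hu with rfl | rfl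
    · exact ⟨hz1, rfl⟩
    · exact ⟨hw, h.symm⟩
  have h2 := cw_ge hm1 (Finset.mem_filter.1 hz1).1
  have h3 := cw_ge hm1 (Finset.mem_filter.1 hw).1
  rw [hz2] at h1
  linarith

lemma Tp_injOn : Set.InjOn Complex.re (Tp Z m π : Set ℂ) := by
  intro z hz w hw h
  have h1 := (Tp_real hm1 hz).2.1
  have h2 := (Tp_real hm1 hw).2.1
  exact Complex.ext h (by rw [h1, h2])

lemma sum_TS (f : ℝ → ℝ) : ∑ x ∈ TS Z m π, f x = ∑ z ∈ Tp Z m π, f z.re := by
  classical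
  unfold TS
  exact Finset.sum_image (fun z hz w hw h => Tp_injOn hm1 hz hw h)

lemma TS_card : (TS Z m π).card = (Tp Z m π).card := by
  classical
  unfold TS
  exact Finset.card_image_of_injOn (Tp_injOn hm1)

end

/-- **the trace inequality for clusters, with an off-diagonal test matrix** -/
theorem cluster_Y {E : Type*} [NormedAddCommGroup E] [InnerProductSpace ℂ E]
    (φ : ℂ → ℂ) (k : ℂ → E) (hk : ∀ z w, inner ℂ (k z) (k w) = φ (w - (starRingEnd ℂ) z))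
    (hev : ∀ z, φ (-z) = φ z) (h0 : φ 0 = 1)
    (Z : Finset ℂ) (hZ : ∀ z ∈ Z, (starRingEnd ℂ) z ∈ Z) (m : ℂ → ℕ)
    (hm1 : ∀ z ∈ Z, 1 ≤ m z) (hmc : ∀ z ∈ Z, m ((starRingEnd ℂ) z) = m z)
    (π : ℂ → ℂ) {η : ℝ} (hη : 0 ≤ η)
    (hA : ∀ z ∈ Z, ∀ w ∈ Z, 0 ≤ z.im → 0 ≤ w.im → π z = π w →
      (φ ((starRingEnd ℂ) z - z)).re - η ≤ (φ ((starRingEnd ℂ) z - w)).re)
    (hB : ∀ z ∈ Z, ∀ w ∈ Z, 0 ≤ z.im → 0 ≤ w.im → π z = π w →
      1 - η ≤ (φ ((starRingEnd ℂ) z - (starRingEnd ℂ) w)).re)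
    (Y : ℝ → ℝ → ℝ)
    (hY : ∀ v : ℝ → ℂ, ∑ x ∈ TS Z m π, ∑ y ∈ TS Z m π, Y x y * (conj (v x) * v y).re ≤
      ∑ x ∈ TS Z m π, ‖v x‖ ^ 2) :
    ∑ a ∈ (Z.filter (fun z => 0 ≤ z.im)).image π,
        (if Wc Z m π a = 1 then 1 else 4 * Wc Z m π a - 4) +
      (2 * ∑ x ∈ TS Z m π, ∑ y ∈ TS Z m π, Y x y * ((φ ((x : ℂ) - y)).re - if x = y then 1 else 0)
        - ∑ x ∈ TS Z m π, ∑ y ∈ TS Z m π, (Y x y) ^ 2) ≤
      (∑ z ∈ Z, ∑ w ∈ Z, (m z : ℂ) * (m w : ℂ) * (φ (z - w)) ^ 2).re +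
        4 * η * ∑ z ∈ Z.filter (fun z => 0 ≤ z.im), cw m z := by
  classical
  set P := Z.filter (fun z => 0 ≤ z.im) with hP
  set T := Tp Z m π with hT
  have hTP : T ⊆ P := by
    rw [hT]; unfold Tp; exact Finset.filter_subset _ _
  have hTeq : T = P.filter (fun z => Wc Z m π (π z) = 1) := by
    rw [hT]; rfl
  -- sums over `T` as sums over `P`
  have hsT : ∀ g : ℂ → ℝ, ∑ z ∈ P, (if z ∈ T then g z else 0) = ∑ z ∈ T, g z := by
    intro g
    rw [← Finset.sum_filter]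
    congr 1
    ext z
    rw [Finset.mem_filter]
    exact ⟨fun h => h.2, fun h => ⟨hTP h, h⟩⟩
  set Y' : ℂ → ℂ → ℝ := fun z w => if z ∈ T then (if w ∈ T then Y z.re w.re else 0) else 0 with hY'
  set D : ℂ → ℂ → ℝ := fun z w => Dm Z m π z w + Y' z w with hD
  have hsTT : ∀ g : ℂ → ℂ → ℝ, ∑ z ∈ P, ∑ w ∈ P, (if z ∈ T then (if w ∈ T then g z w else 0) else 0)
      = ∑ z ∈ T, ∑ w ∈ T, g z w := by
    intro g
    have : ∀ z ∈ P, ∑ w ∈ P, (if z ∈ T then (if w ∈ T then g z w else 0) else 0) =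
        if z ∈ T then ∑ w ∈ T, g z w else 0 := by
      intro z _
      by_cases hz : z ∈ T
      · simp only [if_pos hz]
        exact hsT (g z)
      · simp only [if_neg hz, Finset.sum_const_zero]
    rw [Finset.sum_congr rfl this]
    exact hsT _
  have hD2 : ∀ v : ℂ → ℂ, ∑ i ∈ P, ∑ j ∈ P, D i j * ((starRingEnd ℂ (v i)) * v j).re ≤
        2 * ∑ i ∈ P, ‖v i‖ ^ 2 := by
    intro v
    have h1 := D_quad Z m hm1 π v
    rw [← hP] at h1
    have h2 := hY (fun x => v (x : ℂ))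
    rw [sum_TS hm1, sum_TS hm1, ← hT] at h2
    have hre : ∀ z ∈ T, ((z.re : ℝ) : ℂ) = z := by
      intro z hz
      have := (Tp_real hm1 hz).2.1
      exact Complex.ext (by simp) (by simp [this])
    have h3 : ∑ z ∈ T, ∑ y ∈ TS Z m π, Y z.re y * ((starRingEnd ℂ (v (z.re : ℂ))) * v (y : ℂ)).re =
        ∑ z ∈ T, ∑ w ∈ T, Y z.re w.re * ((starRingEnd ℂ (v z)) * v w).re := by
      refine Finset.sum_congr rfl fun z hz => ?_
      rw [sum_TS hm1 (fun y => Y z.re y * ((starRingEnd ℂ (v (z.re : ℂ))) * v (y : ℂ)).re), ← hT]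
      refine Finset.sum_congr rfl fun w hw => ?_
      rw [hre z hz, hre w hw]
    have h4 : ∑ z ∈ T, ‖v (z.re : ℂ)‖ ^ 2 = ∑ z ∈ T, ‖v z‖ ^ 2 :=
      Finset.sum_congr rfl fun z hz => by rw [hre z hz]
    rw [h3, h4] at h2
    have h5 : ∑ i ∈ P, ∑ j ∈ P, D i j * ((starRingEnd ℂ (v i)) * v j).re =
        ∑ i ∈ P, ∑ j ∈ P, Dm Z m π i j * ((starRingEnd ℂ (v i)) * v j).re +
          ∑ z ∈ T, ∑ w ∈ T, Y z.re w.re * ((starRingEnd ℂ (v z)) * v w).re := by
      rw [← hsTT, ← Finset.sum_add_distrib]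
      refine Finset.sum_congr rfl fun z _ => ?_
      rw [← Finset.sum_add_distrib]
      refine Finset.sum_congr rfl fun w _ => ?_
      simp only [hD, hY']
      split_ifs <;> ring
    have h6 : ∑ i ∈ P, kp Z m π (π i) * ‖v i‖ ^ 2 + ∑ z ∈ T, ‖v z‖ ^ 2 = 2 * ∑ i ∈ P, ‖v i‖ ^ 2 := by
      rw [← hsT, ← Finset.sum_add_distrib, Finset.mul_sum]
      refine Finset.sum_congr rfl fun z hz => ?_
      by_cases hzT : z ∈ T
      · rw [if_pos hzT]
        rw [hTeq, Finset.mem_filter] at hzT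
        unfold kp
        rw [if_pos hzT.2]; ring
      · rw [if_neg hzT]
        rw [hTeq, Finset.mem_filter, not_and] at hzT
        unfold kp
        rw [if_neg (hzT hz)]; ring
    rw [h5]
    linarith
  have hmain := trace_D (fun z w => φ (z - w)) k (fun z w => by
    rw [hk, ← hev, neg_sub]) (fun z w => by rw [← hev, neg_sub]) Z hZ m hmc D hD2
  rw [← hP] at hmain
  have hlow := D_low φ h0 Z m hm1 π hη hA hB
  rw [← hP] at hlow
  have hsplit : ∑ z ∈ P, ∑ w ∈ P, (2 * (D z w * (Real.sqrt (cw m z / 4) * Real.sqrt (cw m w / 4) *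
          (2 * (φ ((starRingEnd ℂ) z - w)).re +
            2 * (φ ((starRingEnd ℂ) z - (starRingEnd ℂ) w)).re))) - (D z w) ^ 2) =
      ∑ z ∈ P, ∑ w ∈ P, (2 * (Dm Z m π z w * (Real.sqrt (cw m z / 4) * Real.sqrt (cw m w / 4) *
          (2 * (φ ((starRingEnd ℂ) z - w)).re +
            2 * (φ ((starRingEnd ℂ) z - (starRingEnd ℂ) w)).re))) - (Dm Z m π z w) ^ 2) +
      (2 * ∑ x ∈ TS Z m π, ∑ y ∈ TS Z m π, Y x y * ((φ ((x : ℂ) - y)).re - if x = y then 1 else 0)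
        - ∑ x ∈ TS Z m π, ∑ y ∈ TS Z m π, (Y x y) ^ 2) := by
    have h1 : (2 * ∑ x ∈ TS Z m π, ∑ y ∈ TS Z m π, Y x y * ((φ ((x : ℂ) - y)).re -
        if x = y then 1 else 0) - ∑ x ∈ TS Z m π, ∑ y ∈ TS Z m π, (Y x y) ^ 2) =
        ∑ z ∈ T, ∑ w ∈ T, (2 * (Y z.re w.re * ((φ (z - w)).re - if z = w then 1 else 0)) -
          (Y z.re w.re) ^ 2) := by
      rw [Finset.mul_sum, ← Finset.sum_sub_distrib, sum_TS hm1, ← hT]
      refine Finset.sum_congr rfl fun z hz => ?_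
      rw [Finset.mul_sum, ← Finset.sum_sub_distrib, sum_TS hm1, ← hT]
      refine Finset.sum_congr rfl fun w hw => ?_
      have hz0 := (Tp_real hm1 hz).2.1
      have hw0 := (Tp_real hm1 hw).2.1
      have e1 : ((z.re : ℝ) : ℂ) = z := Complex.ext (by simp) (by simp [hz0])
      have e2 : ((w.re : ℝ) : ℂ) = w := Complex.ext (by simp) (by simp [hw0])
      have e3 : z.re = w.re ↔ z = w := by
        constructor
        · intro h
          rw [← e1, ← e2, h]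
        · intro h; rw [h]
      rw [e1, e2]
      simp only [e3]
    rw [h1, ← hsTT, ← Finset.sum_add_distrib]
    refine Finset.sum_congr rfl fun z hz => ?_
    rw [← Finset.sum_add_distrib]
    refine Finset.sum_congr rfl fun w hw => ?_
    simp only [hD, hY']
    by_cases hzT : z ∈ T
    · by_cases hwT : w ∈ T
      · simp only [if_pos hzT, if_pos hwT]
        obtain ⟨-, hz0, hz1, -⟩ := Tp_real hm1 hzT
        obtain ⟨-, hw0, hw1, -⟩ := Tp_real hm1 hwT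
        have hcz : (starRingEnd ℂ) z = z := Complex.conj_eq_iff_im.mpr hz0
        have hcw : (starRingEnd ℂ) w = w := Complex.conj_eq_iff_im.mpr hw0
        have hs : Real.sqrt ((1 : ℝ) / 4) = 1 / 2 := by
          rw [show (1 : ℝ) / 4 = (1 / 2) ^ 2 by norm_num, Real.sqrt_sq (by norm_num)]
        have hDv : Dm Z m π z w = if z = w then 1 else 0 := by
          unfold Dm
          by_cases h : z = w
          · subst h
            rw [hTeq, Finset.mem_filter] at hzT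
            rw [if_pos rfl, if_pos rfl, hzT.2]
            unfold kp
            rw [if_pos hzT.2, hz1]
            simp
          · rw [if_neg h, if_neg (fun h' => h (Tp_inj hm1 hzT hw h'))]
        rw [hcz, hcw, hz1, hw1, hs, hDv]
        split_ifs <;> ring
      · simp only [if_pos hzT, if_neg hwT]; ring
    · simp only [if_neg hzT]; ring
  rw [hsplit] at hmain
  linarith

end TH803CL
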