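import Pool.Agent.TH803.CL.Cl

/-! Partitions of finite sets of points into small clusters. -/

open scoped BigOperators ComplexConjugate

namespace TH803CL

open H370 TH803UC

/-- maximal separated subsets -/
lemma max_sep (S : Finset ℂ) {d : ℝ} (hd : 0 < d) : ∃ M ⊆ S,
    (∀ a ∈ M, ∀ b ∈ M, a ≠ b → d ≤ ‖a - b‖) ∧ ∀ z ∈ S, ∃ m ∈ M, ‖z - m‖ < d := by
  classical
  set F := S.powerset.filter (fun M => ∀ a ∈ M, ∀ b ∈ M, a ≠ b → d ≤ ‖a - b‖) with hF
  have hne : F.Nonempty := ⟨∅, by simp [hF]⟩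
  obtain ⟨M, hM, hmax⟩ := F.exists_max_image (fun M => M.card) hne
  rw [hF, Finset.mem_filter, Finset.mem_powerset] at hM
  refine ⟨M, hM.1, hM.2, fun z hz => ?_⟩
  by_contra hcon
  push Not at hcon
  have hzM : z ∉ M := fun h => by
    have := hcon z h
    rw [sub_self, norm_zero] at this
    linarith
  have h1 : insert z M ∈ F := by
    rw [hF, Finset.mem_filter, Finset.mem_powerset]
    refine ⟨Finset.insert_subset hz hM.1, ?_⟩
    intro a ha b hb hab
    rw [Finset.mem_insert] at ha hb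
    rcases ha with rfl | ha
    · rcases hb with rfl | hb
      · exact absurd rfl hab
      · exact hcon b hb
    · rcases hb with rfl | hb
      · rw [norm_sub_rev]; exact hcon a ha
      · exact hM.2 a ha b hb hab
  have h2 := hmax _ h1
  rw [Finset.card_insert_of_notMem hzM] at h2
  omega

/-- a set without isolated points splits into small clusters with at least two points -/
lemma pairing (S : Finset ℂ) {d : ℝ} (hd : 0 < d)
    (hS : ∀ z ∈ S, ∃ w ∈ S, w ≠ z ∧ ‖z - w‖ < d) : ∃ π : ℂ → ℂ, (∀ z ∈ S, π z ∈ S) ∧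
      (∀ z ∈ S, ‖z - π z‖ < 2 * d) ∧
      (∀ z ∈ S, ∃ u ∈ S, ∃ v ∈ S, u ≠ v ∧ π u = π z ∧ π v = π z) := by
  classical
  obtain ⟨M, hMS, hsep, hcov⟩ := max_sep S hd
  choose! f hfM hfd using hcov
  choose! w hwS hwne hwd using hS
  -- `f` is the identity on `M`
  have hfid : ∀ z ∈ M, f z = z := by
    intro z hz
    by_contra hne
    have h1 := hsep z hz (f z) (hfM z (hMS hz)) (Ne.symm hne)
    have h2 := hfd z (hMS hz)
    linarith
  -- points of `M` to which another point is assigned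
  set good : ℂ → Prop := fun a => ∃ u ∈ S, u ∉ M ∧ f u = a with hgood
  set π : ℂ → ℂ := fun z => if z ∈ M ∧ ¬ good z then f (w z) else f z with hπ
  -- the value at a lonely point
  have hlone : ∀ z ∈ M, ¬ good z → w z ∈ S ∧ w z ∉ M := by
    intro z hz _
    refine ⟨hwS z (hMS hz), fun h => ?_⟩
    have h1 := hsep z hz (w z) h (Ne.symm (hwne z (hMS hz)))
    have h2 := hwd z (hMS hz)
    linarith
  have hval : ∀ z ∈ S, π z ∈ M ∧ good (π z) := by
    intro z hz
    simp only [hπ]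
    split_ifs with h
    · obtain ⟨h1, h2⟩ := hlone z h.1 h.2
      exact ⟨hfM _ h1, w z, h1, h2, rfl⟩
    · by_cases hzM : z ∈ M
      · have hg : good z := by
          by_contra hng; exact h ⟨hzM, hng⟩
        rw [hfid z hzM]
        exact ⟨hzM, hg⟩
      · exact ⟨hfM z hz, z, hz, hzM, rfl⟩
  refine ⟨π, fun z hz => hMS (hval z hz).1, fun z hz => ?_, fun z hz => ?_⟩
  · simp only [hπ]
    split_ifs with h
    · obtain ⟨h1, h2⟩ := hlone z h.1 h.2
      have a1 := hwd z hz
      have a2 := hfd (w z) h1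
      calc ‖z - f (w z)‖ = ‖(z - w z) + (w z - f (w z))‖ := by congr 1; ring
        _ ≤ ‖z - w z‖ + ‖w z - f (w z)‖ := norm_add_le _ _
        _ < 2 * d := by linarith
    · have := hfd z hz
      linarith
  · obtain ⟨hm, u, hu, huM, hfu⟩ := hval z hz
    refine ⟨π z, hMS hm, u, hu, ?_, ?_, ?_⟩
    · intro h; rw [h] at hm; exact huM hm
    · have h1 : ¬ (π z ∈ M ∧ ¬ good (π z)) := fun h => h.2 ⟨u, hu, huM, hfu⟩
      have h2 : π (π z) = if π z ∈ M ∧ ¬ good (π z) then f (w (π z)) else f (π z) := rfl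
      rw [h2, if_neg h1]
      exact hfid _ hm
    · have h2 : π u = if u ∈ M ∧ ¬ good u then f (w u) else f u := rfl
      rw [h2, if_neg (fun h => huM h.1)]
      exact hfu

lemma cw_nat (m : ℂ → ℕ) (z : ℂ) : cw m z = ((if z.im = 0 then m z else 2 * m z : ℕ) : ℝ) := by
  unfold cw
  split_ifs <;> push_cast <;> rfl

lemma Wc_int {Z : Finset ℂ} {m : ℂ → ℕ} (hm1 : ∀ z ∈ Z, 1 ≤ m z) {π : ℂ → ℂ} {a : ℂ}
    (ha : a ∈ (Z.filter (fun z => 0 ≤ z.im)).image π) : Wc Z m π a = 1 ∨ 2 ≤ Wc Z m π a := by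
  have h1 : Wc Z m π a = ((∑ z ∈ (Z.filter (fun z => 0 ≤ z.im)).filter (fun z => π z = a),
      (if z.im = 0 then m z else 2 * m z) : ℕ) : ℝ) := by
    unfold Wc
    push_cast
    refine Finset.sum_congr rfl fun z _ => ?_
    rw [cw_nat]
    push_cast
    rfl
  rw [Finset.mem_image] at ha
  obtain ⟨z, hz, rfl⟩ := ha
  have h2 : 1 ≤ Wc Z m π (π z) :=
    (cw_ge hm1 (Finset.mem_filter.1 hz).1).trans (Wc_ge hz)
  set n := ∑ z' ∈ (Z.filter (fun z => 0 ≤ z.im)).filter (fun z' => π z' = π z),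
      (if z'.im = 0 then m z' else 2 * m z') with hn
  rw [h1] at h2 ⊢
  have h3 : 1 ≤ n := by exact_mod_cast h2
  rcases Nat.lt_or_ge n 2 with h | h
  · left
    have : n = 1 := by omega
    rw [this]; norm_num
  · right
    exact_mod_cast h

lemma Wsum (Z : Finset ℂ) (m : ℂ → ℕ) (π : ℂ → ℂ) :
    ∑ a ∈ (Z.filter (fun z => 0 ≤ z.im)).image π, Wc Z m π a =
      ∑ z ∈ Z.filter (fun z => 0 ≤ z.im), cw m z := by
  rw [sum_fib1 _ π (fun z => cw m z)]
  rfl

open Classical in
/-- the isolated simple real points -/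
noncomputable def isoP (Z : Finset ℂ) (m : ℂ → ℕ) (d : ℝ) : Finset ℂ :=
  Z.filter (fun z => z.im = 0 ∧ m z = 1 ∧ ∀ w ∈ Z, w ≠ z → d ≤ ‖z - w‖)

open Classical in
/-- **isolated simple real points** -/
theorem iso_ineq {E : Type*} [NormedAddCommGroup E] [InnerProductSpace ℂ E]
    (φ : ℂ → ℂ) (k : ℂ → E) (hk : ∀ z w, inner ℂ (k z) (k w) = φ (w - (starRingEnd ℂ) z))
    (hev : ∀ z, φ (-z) = φ z) (h0 : φ 0 = 1)
    (Z : Finset ℂ) (hZ : ∀ z ∈ Z, (starRingEnd ℂ) z ∈ Z) (m : ℂ → ℕ)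
    (hm1 : ∀ z ∈ Z, 1 ≤ m z) (hmc : ∀ z ∈ Z, m ((starRingEnd ℂ) z) = m z)
    {d η : ℝ} (hd : 0 < d) (hη : 0 ≤ η) (hφ : ∀ u : ℂ, ‖u‖ ≤ 6 * d → ‖φ u - 1‖ ≤ η) :
    2 * (∑ z ∈ Z.filter (fun z => 0 ≤ z.im), cw m z) -
        (∑ z ∈ Z, ∑ w ∈ Z, (m z : ℂ) * (m w : ℂ) * (φ (z - w)) ^ 2).re -
        8 * η * ∑ z ∈ Z.filter (fun z => 0 ≤ z.im), cw m z ≤ (isoP Z m d).card := by
  set P := Z.filter (fun z => 0 ≤ z.im) with hP
  have hPm : ∀ z ∈ P, z ∈ Z ∧ 0 ≤ z.im := fun z hz => by rwa [hP, Finset.mem_filter] at hz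
  set S := P.filter (fun z => |z.im| < d ∧ ∃ w ∈ P, w ≠ z ∧ |w.im| < d ∧ ‖z - w‖ < d) with hS
  have hSm : ∀ z ∈ S, z ∈ P ∧ |z.im| < d ∧ ∃ w ∈ P, w ≠ z ∧ |w.im| < d ∧ ‖z - w‖ < d :=
    fun z hz => Finset.mem_filter.1 hz
  obtain ⟨ρ, hρS, hρd, hρ2⟩ := pairing S hd (by
    intro z hz
    obtain ⟨h1, h2, w, hw, hwz, hwi, hwd⟩ := hSm z hz
    refine ⟨w, Finset.mem_filter.2 ⟨hw, hwi, z, h1, Ne.symm hwz, h2, ?_⟩, hwz, hwd⟩
    rwa [norm_sub_rev])
  set π : ℂ → ℂ := fun z => if z ∈ S then ρ z else z with hπ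
  have hπS : ∀ z ∈ S, π z = ρ z := fun z hz => by simp only [hπ]; rw [if_pos hz]
  have hπN : ∀ z, z ∉ S → π z = z := fun z hz => by simp only [hπ]; rw [if_neg hz]
  -- points of one cluster
  have hclose : ∀ z w, π z = π w → z = w ∨ (z ∈ S ∧ w ∈ S ∧ ‖z - w‖ < 4 * d) := by
    intro z w h
    by_cases hz : z ∈ S
    · by_cases hw : w ∈ S
      · right
        rw [hπS z hz, hπS w hw] at h
        refine ⟨hz, hw, ?_⟩
        have a1 := hρd z hz
        have a2 := hρd w hw
        rw [norm_sub_rev] at a2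
        calc ‖z - w‖ = ‖(z - ρ z) + (ρ w - w)‖ := by congr 1; rw [h]; ring
          _ ≤ ‖z - ρ z‖ + ‖ρ w - w‖ := norm_add_le _ _
          _ < 4 * d := by linarith
      · exfalso
        rw [hπS z hz, hπN w hw] at h
        exact hw (h ▸ hρS z hz)
    · by_cases hw : w ∈ S
      · exfalso
        rw [hπN z hz, hπS w hw] at h
        exact hz (h ▸ hρS w hw)
      · left
        rwa [hπN z hz, hπN w hw] at h
  have him2 : ∀ z : ℂ, ‖(starRingEnd ℂ) z - z‖ = 2 * |z.im| := by
    intro z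
    have e1 : (starRingEnd ℂ) z - z = ((-(2 * z.im) : ℝ) : ℂ) * Complex.I := by
      apply Complex.ext
      · simp
      · simp; ring
    rw [e1, norm_mul, Complex.norm_I, mul_one, Complex.norm_real, Real.norm_eq_abs, abs_neg,
      abs_mul, abs_of_pos (by norm_num : (0 : ℝ) < 2)]
  have hA : ∀ z ∈ Z, ∀ w ∈ Z, 0 ≤ z.im → 0 ≤ w.im → π z = π w →
      (φ ((starRingEnd ℂ) z - z)).re - 2 * η ≤ (φ ((starRingEnd ℂ) z - w)).re := by
    intro z _ w _ _ _ h
    rcases hclose z w h with rfl | ⟨hz, hw, hzw⟩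
    · linarith
    · obtain ⟨-, b1, -⟩ := hSm z hz
      have c1 : ‖(starRingEnd ℂ) z - z‖ ≤ 6 * d := by rw [him2]; linarith
      have c2 : ‖(starRingEnd ℂ) z - w‖ ≤ 6 * d := by
        calc ‖(starRingEnd ℂ) z - w‖ = ‖((starRingEnd ℂ) z - z) + (z - w)‖ := by congr 1; ring
          _ ≤ ‖(starRingEnd ℂ) z - z‖ + ‖z - w‖ := norm_add_le _ _
          _ ≤ 6 * d := by rw [him2]; linarith
      have d1 := (Complex.abs_re_le_norm _).trans (hφ _ c1)
      have d2 := (Complex.abs_re_le_norm _).trans (hφ _ c2)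
      rw [Complex.sub_re, Complex.one_re] at d1 d2
      linarith [(abs_le.1 d1).2, (abs_le.1 d2).1]
  have hB : ∀ z ∈ Z, ∀ w ∈ Z, 0 ≤ z.im → 0 ≤ w.im → π z = π w →
      1 - 2 * η ≤ (φ ((starRingEnd ℂ) z - (starRingEnd ℂ) w)).re := by
    intro z _ w _ _ _ h
    rcases hclose z w h with rfl | ⟨hz, hw, hzw⟩
    · rw [sub_self, h0, Complex.one_re]; linarith
    · have c2 : ‖(starRingEnd ℂ) z - (starRingEnd ℂ) w‖ ≤ 6 * d := by
        rw [← map_sub, RCLike.norm_conj]; linarith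
      have d2 := (Complex.abs_re_le_norm _).trans (hφ _ c2)
      rw [Complex.sub_re, Complex.one_re] at d2
      linarith [(abs_le.1 d2).1]
  have hmain := cluster_ineq φ k hk hev h0 Z hZ m hm1 hmc π (η := 2 * η) (by linarith) hA hB
  rw [← hP] at hmain
  -- the left side
  have hlow : ∀ a ∈ P.image π, 2 * Wc Z m π a - (if Wc Z m π a = 1 then 1 else 0) ≤
      (if Wc Z m π a = 1 then 1 else 4 * Wc Z m π a - 4) := by
    intro a ha
    rcases Wc_int hm1 ha with h | h
    · rw [if_pos h, if_pos h, h]; norm_num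
    · have h1 : Wc Z m π a ≠ 1 := fun h2 => by rw [h2] at h; norm_num at h
      rw [if_neg h1, if_neg h1]; linarith
  have hsum := Finset.sum_le_sum hlow
  rw [Finset.sum_sub_distrib, ← Finset.mul_sum, Wsum, ← hP, Finset.sum_boole] at hsum
  have hcard : (((P.image π).filter (fun a => Wc Z m π a = 1)).card : ℝ) ≤ (isoP Z m d).card := by
    have : (P.image π).filter (fun a => Wc Z m π a = 1) ⊆ isoP Z m d := by
      intro a ha
      rw [Finset.mem_filter, Finset.mem_image] at ha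
      obtain ⟨⟨z, hz, rfl⟩, hW⟩ := ha
      have hzS : z ∉ S := by
        intro hzS
        obtain ⟨u, hu, v, hv, huv, hu2, hv2⟩ := hρ2 z hzS
        have huP := (hSm u hu).1
        have hvP := (hSm v hv).1
        have h1 : cw m u + cw m v ≤ Wc Z m π (π z) := by
          unfold Wc
          rw [← Finset.sum_pair huv]
          refine Finset.sum_le_sum_of_subset_of_nonneg ?_ fun w _ _ => cw_nonneg m w
          intro w hw
          rw [Finset.mem_insert, Finset.mem_singleton] at hw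
          rw [Finset.mem_filter]
          rcases hw with rfl | rfl
          · exact ⟨huP, by rw [hπS _ hu, hπS z hzS, hu2]⟩
          · exact ⟨hvP, by rw [hπS _ hv, hπS z hzS, hv2]⟩
        have h2 := cw_ge hm1 (hPm u huP).1
        have h3 := cw_ge hm1 (hPm v hvP).1
        linarith
      have hπz := hπN z hzS
      rw [hπz] at hW ⊢
      have h1 : cw m z ≤ 1 := by
        have := Wc_ge (m := m) (π := π) hz
        rw [hπz, hW] at this
        exact this
      have h2 : z.im = 0 := by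
        by_contra hne
        have := cw_two hm1 (hPm z hz).1 hne
        linarith
      have h3 : m z = 1 := by
        have h4 : cw m z = m z := by unfold cw; rw [if_pos h2]
        rw [h4] at h1
        have h5 : m z ≤ 1 := by exact_mod_cast h1
        have := hm1 z (hPm z hz).1
        omega
      unfold isoP
      rw [Finset.mem_filter]
      refine ⟨(hPm z hz).1, h2, h3, ?_⟩
      -- isolated in the upper half
      have hup : ∀ w ∈ P, w ≠ z → d ≤ ‖z - w‖ := by
        intro w hw hwz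
        by_contra hlt
        push Not at hlt
        apply hzS
        rw [hS, Finset.mem_filter]
        refine ⟨hz, by rw [h2, abs_zero]; exact hd, w, hw, hwz, ?_, hlt⟩
        have h6 : w.im = -(z - w).im := by rw [Complex.sub_im, h2]; ring
        rw [h6, abs_neg]
        exact (Complex.abs_im_le_norm _).trans_lt hlt
      intro w hw hwz
      by_cases hw0 : 0 ≤ w.im
      · exact hup w (Finset.mem_filter.2 ⟨hw, hw0⟩) hwz
      · have h7 : (starRingEnd ℂ) z = z := Complex.conj_eq_iff_im.mpr h2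
        have h8 := hup ((starRingEnd ℂ) w) (Finset.mem_filter.2 ⟨hZ w hw, by
          rw [Complex.conj_im]; linarith [not_le.1 hw0]⟩) (by
            intro h
            apply hwz
            have := congrArg (starRingEnd ℂ) h
            rwa [Complex.conj_conj, h7] at this)
        rwa [← h7, ← map_sub, RCLike.norm_conj] at h8
    exact_mod_cast Finset.card_le_card this
  linarith

end TH803CL
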