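import Pool.Agent.TH803.CL.Ker

/-! Separated sets of points. -/

open scoped BigOperators ComplexConjugate

namespace TH803CL

open H370 TH803UC

/-- **separated sets** -/
theorem sep_ineq {E : Type*} [NormedAddCommGroup E] [InnerProductSpace ℂ E]
    (φ : ℂ → ℂ) (k : ℂ → E) (hk : ∀ z w, inner ℂ (k z) (k w) = φ (w - (starRingEnd ℂ) z))
    (hev : ∀ z, φ (-z) = φ z) (h0 : φ 0 = 1)
    (Z : Finset ℂ) (hZ : ∀ z ∈ Z, (starRingEnd ℂ) z ∈ Z) (m : ℂ → ℕ)
    (hm1 : ∀ z ∈ Z, 1 ≤ m z) (hmc : ∀ z ∈ Z, m ((starRingEnd ℂ) z) = m z)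
    {d η y : ℝ} (hd : 0 < d) (hη : 0 ≤ η)
    (hφ : ∀ z w : ℂ, 0 ≤ z.im → z.im ≤ y + d → 0 ≤ w.im → w.im ≤ y + d → ‖z - w‖ < 2 * d →
      ‖φ ((starRingEnd ℂ) z - w) - φ ((starRingEnd ℂ) z - z)‖ ≤ η ∧
        ‖φ ((starRingEnd ℂ) z - (starRingEnd ℂ) w) - 1‖ ≤ η) :
    ∃ M ⊆ Z.filter (fun z => 0 ≤ z.im),
      (∀ a ∈ M, ∀ b ∈ M, a ≠ b → (a.im < y ∨ b.im < y) → d ≤ ‖a - b‖) ∧
      3 * (∑ z ∈ Z.filter (fun z => 0 ≤ z.im), cw m z) -
        (∑ z ∈ Z, ∑ w ∈ Z, (m z : ℂ) * (m w : ℂ) * (φ (z - w)) ^ 2).re -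
        4 * η * ∑ z ∈ Z.filter (fun z => 0 ≤ z.im), cw m z ≤ 2 * (M.card : ℝ) := by
  classical
  set P := Z.filter (fun z => 0 ≤ z.im) with hP
  have hPm : ∀ z ∈ P, z ∈ Z ∧ 0 ≤ z.im := fun z hz => by rwa [hP, Finset.mem_filter] at hz
  set S := P.filter (fun z => z.im < y) with hS
  have hSm : ∀ z ∈ S, z ∈ P ∧ z.im < y := fun z hz => Finset.mem_filter.1 hz
  obtain ⟨M, hMS, hsep, hcov⟩ := max_sep S hd
  set near : ℂ → Prop := fun z => ∃ a ∈ M, ‖z - a‖ < d with hnear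
  have hch : ∀ z, near z → ∃ a, a ∈ M ∧ ‖z - a‖ < d := fun z h => by
    obtain ⟨a, h1, h2⟩ := h; exact ⟨a, h1, h2⟩
  choose! f hf using hch
  set π : ℂ → ℂ := fun z => if near z then f z else z with hπ
  have hπn : ∀ z, near z → π z = f z := fun z hz => by simp only [hπ]; rw [if_pos hz]
  have hπf : ∀ z, ¬ near z → π z = z := fun z hz => by simp only [hπ]; rw [if_neg hz]
  have hMnear : ∀ a ∈ M, near a := fun a ha => ⟨a, ha, by rw [sub_self, norm_zero]; exact hd⟩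
  have hfM : ∀ a ∈ M, f a = a := by
    intro a ha
    obtain ⟨h1, h2⟩ := hf a (hMnear a ha)
    by_contra hne
    have := hsep a ha (f a) h1 (Ne.symm hne)
    linarith
  have hclose : ∀ z w, π z = π w → z = w ∨ (near z ∧ near w ∧ f z = f w) := by
    intro z w h
    by_cases hz : near z
    · by_cases hw : near w
      · right
        rw [hπn z hz, hπn w hw] at h
        exact ⟨hz, hw, h⟩
      · exfalso
        rw [hπn z hz, hπf w hw] at h
        exact hw (h ▸ hMnear _ (hf z hz).1)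
    · by_cases hw : near w
      · exfalso
        rw [hπf z hz, hπn w hw] at h
        exact hz (h ▸ hMnear _ (hf w hw).1)
      · left
        rwa [hπf z hz, hπf w hw] at h
  have hnr : ∀ z, near z → z.im ≤ y + d := by
    intro z hz
    obtain ⟨h1, h2⟩ := hf z hz
    have h3 := (hSm _ (hMS h1)).2
    have h4 := (Complex.abs_im_le_norm (z - f z)).trans_lt h2
    rw [Complex.sub_im] at h4
    linarith [(abs_lt.1 h4).2]
  have hnd : ∀ z w, near z → near w → f z = f w → ‖z - w‖ < 2 * d := by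
    intro z w hz hw h
    obtain ⟨h1, h2⟩ := hf z hz
    obtain ⟨h3, h4⟩ := hf w hw
    rw [norm_sub_rev] at h4
    calc ‖z - w‖ = ‖(z - f z) + (f w - w)‖ := by congr 1; rw [h]; ring
      _ ≤ ‖z - f z‖ + ‖f w - w‖ := norm_add_le _ _
      _ < 2 * d := by linarith
  have hA : ∀ z ∈ Z, ∀ w ∈ Z, 0 ≤ z.im → 0 ≤ w.im → π z = π w →
      (φ ((starRingEnd ℂ) z - z)).re - η ≤ (φ ((starRingEnd ℂ) z - w)).re := by
    intro z _ w _ hz0 hw0 h
    rcases hclose z w h with rfl | ⟨hz, hw, hzw⟩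
    · linarith
    · have d1 := (Complex.abs_re_le_norm _).trans
        (hφ z w hz0 (hnr z hz) hw0 (hnr w hw) (hnd z w hz hw hzw)).1
      rw [Complex.sub_re] at d1
      linarith [(abs_le.1 d1).1]
  have hB : ∀ z ∈ Z, ∀ w ∈ Z, 0 ≤ z.im → 0 ≤ w.im → π z = π w →
      1 - η ≤ (φ ((starRingEnd ℂ) z - (starRingEnd ℂ) w)).re := by
    intro z _ w _ hz0 hw0 h
    rcases hclose z w h with rfl | ⟨hz, hw, hzw⟩
    · rw [sub_self, h0, Complex.one_re]; linarith
    · have d1 := (Complex.abs_re_le_norm _).trans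
        (hφ z w hz0 (hnr z hz) hw0 (hnr w hw) (hnd z w hz hw hzw)).2
      rw [Complex.sub_re, Complex.one_re] at d1
      linarith [(abs_le.1 d1).1]
  have hmain := cluster_ineq φ k hk hev h0 Z hZ m hm1 hmc π hη hA hB
  rw [← hP] at hmain
  refine ⟨P.image π, ?_, ?_, ?_⟩
  · intro a ha
    rw [Finset.mem_image] at ha
    obtain ⟨z, hz, rfl⟩ := ha
    by_cases h : near z
    · rw [hπn z h]; exact (hSm _ (hMS (hf z h).1)).1
    · rw [hπf z h]; exact hz
  · -- separation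
    have hcase : ∀ a ∈ P.image π, a ∈ M ∨ (a ∈ P ∧ ¬ near a) := by
      intro a ha
      rw [Finset.mem_image] at ha
      obtain ⟨z, hz, rfl⟩ := ha
      by_cases h : near z
      · left; rw [hπn z h]; exact (hf z h).1
      · right; rw [hπf z h]; exact ⟨hz, h⟩
    have hlow : ∀ a ∈ P.image π, a.im < y → a ∈ M := by
      intro a ha hay
      rcases hcase a ha with h | ⟨h1, h2⟩
      · exact h
      · exact absurd (hcov a (Finset.mem_filter.2 ⟨h1, hay⟩)) h2
    have hone : ∀ a ∈ M, ∀ b ∈ P.image π, a ≠ b → d ≤ ‖a - b‖ := by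
      intro a ha b hb hab
      rcases hcase b hb with h | ⟨-, h2⟩
      · exact hsep a ha b h hab
      · by_contra hlt
        push Not at hlt
        exact h2 ⟨a, ha, by rwa [norm_sub_rev]⟩
    intro a ha b hb hab h
    rcases h with h | h
    · exact hone a (hlow a ha h) b hb hab
    · rw [norm_sub_rev]; exact hone b (hlow b hb h) a ha (Ne.symm hab)
  · have hlow : ∀ a ∈ P.image π, 3 * Wc Z m π a - 2 ≤
        (if Wc Z m π a = 1 then 1 else 4 * Wc Z m π a - 4) := by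
      intro a ha
      rcases Wc_int hm1 ha with h | h
      · rw [if_pos h, h]; norm_num
      · have h1 : Wc Z m π a ≠ 1 := fun h2 => by rw [h2] at h; norm_num at h
        rw [if_neg h1]; linarith
    have hsum := Finset.sum_le_sum hlow
    rw [Finset.sum_sub_distrib, ← Finset.mul_sum, Wsum, ← hP, Finset.sum_const, nsmul_eq_mul]
      at hsum
    linarith

end TH803CL
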