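import Pool.Agent.TH803.CL.ClY
import Pool.Agent.TH803.CL.Sep

/-! Isolated points and separated sets, with a test matrix. -/

open scoped BigOperators ComplexConjugate

namespace TH803CL

open H370 TH803UC

/-- the gain from a test matrix -/
noncomputable def YG (φ : ℂ → ℂ) (S : Finset ℝ) (Y : ℝ → ℝ → ℝ) : ℝ :=
  2 * ∑ x ∈ S, ∑ y ∈ S, Y x y * ((φ ((x : ℂ) - y)).re - if x = y then 1 else 0)
    - ∑ x ∈ S, ∑ y ∈ S, (Y x y) ^ 2

/-- admissible test matrices -/
def YB (S : Finset ℝ) (Y : ℝ → ℝ → ℝ) : Prop :=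
  ∀ v : ℝ → ℂ, ∑ x ∈ S, ∑ y ∈ S, Y x y * (conj (v x) * v y).re ≤ ∑ x ∈ S, ‖v x‖ ^ 2

lemma YB_zero (S : Finset ℝ) : YB S (fun _ _ => 0) := by
  intro v
  simp only [zero_mul, Finset.sum_const_zero]
  exact Finset.sum_nonneg fun x _ => by positivity

lemma YG_zero (φ : ℂ → ℂ) (S : Finset ℝ) : YG φ S (fun _ _ => 0) = 0 := by
  unfold YG; simp

open Classical in
/-- number of clusters of total multiplicity one -/
lemma one_card {Z : Finset ℂ} {m : ℂ → ℕ} (hm1 : ∀ z ∈ Z, 1 ≤ m z) (π : ℂ → ℂ) :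
    ((((Z.filter (fun z => 0 ≤ z.im)).image π).filter (fun a => Wc Z m π a = 1)).card : ℝ) ≤
      (TS Z m π).card := by
  have : ((Z.filter (fun z => 0 ≤ z.im)).image π).filter (fun a => Wc Z m π a = 1) ⊆
      (Tp Z m π).image π := by
    intro a ha
    rw [Finset.mem_filter, Finset.mem_image] at ha
    obtain ⟨⟨z, hz, rfl⟩, hW⟩ := ha
    refine Finset.mem_image_of_mem π ?_
    unfold Tp
    rw [Finset.mem_filter]
    exact ⟨hz, hW⟩
  rw [TS_card hm1]
  exact_mod_cast (Finset.card_le_card this).trans Finset.card_image_le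

open Classical in
/-- **isolated simple real points, with a test matrix** -/
theorem iso_Y {E : Type*} [NormedAddCommGroup E] [InnerProductSpace ℂ E]
    (φ : ℂ → ℂ) (k : ℂ → E) (hk : ∀ z w, inner ℂ (k z) (k w) = φ (w - (starRingEnd ℂ) z))
    (hev : ∀ z, φ (-z) = φ z) (h0 : φ 0 = 1)
    (Z : Finset ℂ) (hZ : ∀ z ∈ Z, (starRingEnd ℂ) z ∈ Z) (m : ℂ → ℕ)
    (hm1 : ∀ z ∈ Z, 1 ≤ m z) (hmc : ∀ z ∈ Z, m ((starRingEnd ℂ) z) = m z)
    {d η : ℝ} (hd : 0 < d) (hη : 0 ≤ η) (hφ : ∀ u : ℂ, ‖u‖ ≤ 6 * d → ‖φ u - 1‖ ≤ η) :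
    ∃ S : Finset ℝ, (∀ x ∈ S, (x : ℂ) ∈ isoP Z m d) ∧ ∀ Y : ℝ → ℝ → ℝ, YB S Y →
      2 * (∑ z ∈ Z.filter (fun z => 0 ≤ z.im), cw m z) -
        (∑ z ∈ Z, ∑ w ∈ Z, (m z : ℂ) * (m w : ℂ) * (φ (z - w)) ^ 2).re -
        8 * η * ∑ z ∈ Z.filter (fun z => 0 ≤ z.im), cw m z + YG φ S Y ≤ S.card := by
  set P := Z.filter (fun z => 0 ≤ z.im) with hP
  have hPm : ∀ z ∈ P, z ∈ Z ∧ 0 ≤ z.im := fun z hz => by rwa [hP, Finset.mem_filter] at hz
  set S := P.filter (fun z => |z.im| < d ∧ ∃ w ∈ P, w ≠ z ∧ |w.im| < d ∧ ‖z - w‖ < d) with hS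
  have hSm : ∀ z ∈ S, z ∈ P ∧ |z.im| < d ∧ ∃ w ∈ P, w ≠ z ∧ |w.im| < d ∧ ‖z - w‖ < d :=
    fun z hz => Finset.mem_filter.1 hz
  obtain ⟨ρ, hρS, hρd, hρ2⟩ := pairing S hd (by
    intro z hz
    obtain ⟨h1, h2, w, hw, hwz, hwi, hwd⟩ := hSm z hz
    refine ⟨w, Finset.mem_filter.2 ⟨hw, hwi, z, h1, Ne.symm hwz, h2, ?_⟩, hwz, hwd⟩
    rwa [norm_sub_rev])
  set π : ℂ → ℂ := fun z => if z ∈ S then ρ z else z with hπ
  have hπS : ∀ z ∈ S, π z = ρ z := fun z hz => by simp only [hπ]; rw [if_pos hz]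
  have hπN : ∀ z, z ∉ S → π z = z := fun z hz => by simp only [hπ]; rw [if_neg hz]
  -- points of one cluster
  have hclose : ∀ z w, π z = π w → z = w ∨ (z ∈ S ∧ w ∈ S ∧ ‖z - w‖ < 4 * d) := by
    intro z w h
    by_cases hz : z ∈ S
    · by_cases hw : w ∈ S
      · right
        rw [hπS z hz, hπS w hw] at h
        refine ⟨hz, hw, ?_⟩
        have a1 := hρd z hz
        have a2 := hρd w hw
        rw [norm_sub_rev] at a2
        calc ‖z - w‖ = ‖(z - ρ z) + (ρ w - w)‖ := by congr 1; rw [h]; ring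
          _ ≤ ‖z - ρ z‖ + ‖ρ w - w‖ := norm_add_le _ _
          _ < 4 * d := by linarith
      · exfalso
        rw [hπS z hz, hπN w hw] at h
        exact hw (h ▸ hρS z hz)
    · by_cases hw : w ∈ S
      · exfalso
        rw [hπN z hz, hπS w hw] at h
        exact hz (h ▸ hρS w hw)
      · left
        rwa [hπN z hz, hπN w hw] at h
  have him2 : ∀ z : ℂ, ‖(starRingEnd ℂ) z - z‖ = 2 * |z.im| := by
    intro z
    have e1 : (starRingEnd ℂ) z - z = ((-(2 * z.im) : ℝ) : ℂ) * Complex.I := by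
      apply Complex.ext
      · simp
      · simp; ring
    rw [e1, norm_mul, Complex.norm_I, mul_one, Complex.norm_real, Real.norm_eq_abs, abs_neg,
      abs_mul, abs_of_pos (by norm_num : (0 : ℝ) < 2)]
  have hA : ∀ z ∈ Z, ∀ w ∈ Z, 0 ≤ z.im → 0 ≤ w.im → π z = π w →
      (φ ((starRingEnd ℂ) z - z)).re - 2 * η ≤ (φ ((starRingEnd ℂ) z - w)).re := by
    intro z _ w _ _ _ h
    rcases hclose z w h with rfl | ⟨hz, hw, hzw⟩
    · linarith
    · obtain ⟨-, b1, -⟩ := hSm z hz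
      have c1 : ‖(starRingEnd ℂ) z - z‖ ≤ 6 * d := by rw [him2]; linarith
      have c2 : ‖(starRingEnd ℂ) z - w‖ ≤ 6 * d := by
        calc ‖(starRingEnd ℂ) z - w‖ = ‖((starRingEnd ℂ) z - z) + (z - w)‖ := by congr 1; ring
          _ ≤ ‖(starRingEnd ℂ) z - z‖ + ‖z - w‖ := norm_add_le _ _
          _ ≤ 6 * d := by rw [him2]; linarith
      have d1 := (Complex.abs_re_le_norm _).trans (hφ _ c1)
      have d2 := (Complex.abs_re_le_norm _).trans (hφ _ c2)
      rw [Complex.sub_re, Complex.one_re] at d1 d2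
      linarith [(abs_le.1 d1).2, (abs_le.1 d2).1]
  have hB : ∀ z ∈ Z, ∀ w ∈ Z, 0 ≤ z.im → 0 ≤ w.im → π z = π w →
      1 - 2 * η ≤ (φ ((starRingEnd ℂ) z - (starRingEnd ℂ) w)).re := by
    intro z _ w _ _ _ h
    rcases hclose z w h with rfl | ⟨hz, hw, hzw⟩
    · rw [sub_self, h0, Complex.one_re]; linarith
    · have c2 : ‖(starRingEnd ℂ) z - (starRingEnd ℂ) w‖ ≤ 6 * d := by
        rw [← map_sub, RCLike.norm_conj]; linarith
      have d2 := (Complex.abs_re_le_norm _).trans (hφ _ c2)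
      rw [Complex.sub_re, Complex.one_re] at d2
      linarith [(abs_le.1 d2).1]
  refine ⟨TS Z m π, ?_, fun Y hY => ?_⟩
  · intro x hx
    unfold TS at hx
    rw [Finset.mem_image] at hx
    obtain ⟨z, hz, rfl⟩ := hx
    obtain ⟨hzZ, h2, -, h3⟩ := Tp_real hm1 hz
    have e1 : ((z.re : ℝ) : ℂ) = z := Complex.ext (by simp) (by simp [h2])
    rw [e1]
    have hzP : z ∈ P := Finset.mem_filter.2 ⟨hzZ, by rw [h2]⟩
    have hzS : z ∉ S := by
      intro hzS
      obtain ⟨u, hu, v, hv, huv, hu2, hv2⟩ := hρ2 z hzS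
      have huP := (hSm u hu).1
      have hvP := (hSm v hv).1
      have a1 := Tp_inj hm1 hz huP (by rw [hπS z hzS, hπS u hu, hu2])
      have a2 := Tp_inj hm1 hz hvP (by rw [hπS z hzS, hπS v hv, hv2])
      exact huv (a1.symm.trans a2)
    unfold isoP
    rw [Finset.mem_filter]
    refine ⟨hzZ, h2, h3, ?_⟩
    -- isolated in the upper half
    have hup : ∀ w ∈ P, w ≠ z → d ≤ ‖z - w‖ := by
      intro w hw hwz
      by_contra hlt
      push Not at hlt
      apply hzS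
      rw [hS, Finset.mem_filter]
      refine ⟨hzP, by rw [h2, abs_zero]; exact hd, w, hw, hwz, ?_, hlt⟩
      have h6 : w.im = -(z - w).im := by rw [Complex.sub_im, h2]; ring
      rw [h6, abs_neg]
      exact (Complex.abs_im_le_norm _).trans_lt hlt
    intro w hw hwz
    by_cases hw0 : 0 ≤ w.im
    · exact hup w (Finset.mem_filter.2 ⟨hw, hw0⟩) hwz
    · have h7 : (starRingEnd ℂ) z = z := Complex.conj_eq_iff_im.mpr h2
      have h8 := hup ((starRingEnd ℂ) w) (Finset.mem_filter.2 ⟨hZ w hw, by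
        rw [Complex.conj_im]; linarith [not_le.1 hw0]⟩) (by
          intro h
          apply hwz
          have := congrArg (starRingEnd ℂ) h
          rwa [Complex.conj_conj, h7] at this)
      rwa [← h7, ← map_sub, RCLike.norm_conj] at h8
  · have hmain := cluster_Y φ k hk hev h0 Z hZ m hm1 hmc π (η := 2 * η) (by linarith) hA hB Y hY
    rw [← hP] at hmain
    have hlow : ∀ a ∈ P.image π, 2 * Wc Z m π a - (if Wc Z m π a = 1 then 1 else 0) ≤
        (if Wc Z m π a = 1 then 1 else 4 * Wc Z m π a - 4) := by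
      intro a ha
      rcases Wc_int hm1 ha with h | h
      · rw [if_pos h, if_pos h, h]; norm_num
      · have h1 : Wc Z m π a ≠ 1 := fun h2 => by rw [h2] at h; norm_num at h
        rw [if_neg h1, if_neg h1]; linarith
    have hsum := Finset.sum_le_sum hlow
    rw [Finset.sum_sub_distrib, ← Finset.mul_sum, Wsum, ← hP, Finset.sum_boole] at hsum
    have hcard := one_card hm1 π (Z := Z) (m := m)
    rw [← hP] at hcard
    unfold YG
    linarith

open Classical in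
/-- **separated sets, with a test matrix** -/
theorem sep_Y {E : Type*} [NormedAddCommGroup E] [InnerProductSpace ℂ E]
    (φ : ℂ → ℂ) (k : ℂ → E) (hk : ∀ z w, inner ℂ (k z) (k w) = φ (w - (starRingEnd ℂ) z))
    (hev : ∀ z, φ (-z) = φ z) (h0 : φ 0 = 1)
    (Z : Finset ℂ) (hZ : ∀ z ∈ Z, (starRingEnd ℂ) z ∈ Z) (m : ℂ → ℕ)
    (hm1 : ∀ z ∈ Z, 1 ≤ m z) (hmc : ∀ z ∈ Z, m ((starRingEnd ℂ) z) = m z)
    {d η y : ℝ} (hd : 0 < d) (hη : 0 ≤ η)
    (hφ : ∀ z w : ℂ, 0 ≤ z.im → z.im ≤ y + d → 0 ≤ w.im → w.im ≤ y + d → ‖z - w‖ < 2 * d →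
      ‖φ ((starRingEnd ℂ) z - w) - φ ((starRingEnd ℂ) z - z)‖ ≤ η ∧
        ‖φ ((starRingEnd ℂ) z - (starRingEnd ℂ) w) - 1‖ ≤ η) :
    ∃ M ⊆ Z.filter (fun z => 0 ≤ z.im),
      (∀ a ∈ M, ∀ b ∈ M, a ≠ b → (a.im < y ∨ b.im < y) → d ≤ ‖a - b‖) ∧
      ∃ S : Finset ℝ, (∀ x ∈ S, (x : ℂ) ∈ Z) ∧
      2 * (∑ z ∈ Z.filter (fun z => 0 ≤ z.im), cw m z) -
        (∑ z ∈ Z, ∑ w ∈ Z, (m z : ℂ) * (m w : ℂ) * (φ (z - w)) ^ 2).re -
        4 * η * ∑ z ∈ Z.filter (fun z => 0 ≤ z.im), cw m z ≤ S.card ∧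
      ∀ Y : ℝ → ℝ → ℝ, YB S Y →
      3 * (∑ z ∈ Z.filter (fun z => 0 ≤ z.im), cw m z) -
        (∑ z ∈ Z, ∑ w ∈ Z, (m z : ℂ) * (m w : ℂ) * (φ (z - w)) ^ 2).re -
        4 * η * ∑ z ∈ Z.filter (fun z => 0 ≤ z.im), cw m z + YG φ S Y ≤ 2 * (M.card : ℝ) := by
  set P := Z.filter (fun z => 0 ≤ z.im) with hP
  have hPm : ∀ z ∈ P, z ∈ Z ∧ 0 ≤ z.im := fun z hz => by rwa [hP, Finset.mem_filter] at hz
  set S := P.filter (fun z => z.im < y) with hS
  have hSm : ∀ z ∈ S, z ∈ P ∧ z.im < y := fun z hz => Finset.mem_filter.1 hz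
  obtain ⟨M, hMS, hsep, hcov⟩ := max_sep S hd
  set near : ℂ → Prop := fun z => ∃ a ∈ M, ‖z - a‖ < d with hnear
  have hch : ∀ z, near z → ∃ a, a ∈ M ∧ ‖z - a‖ < d := fun z h => by
    obtain ⟨a, h1, h2⟩ := h; exact ⟨a, h1, h2⟩
  choose! f hf using hch
  set π : ℂ → ℂ := fun z => if near z then f z else z with hπ
  have hπn : ∀ z, near z → π z = f z := fun z hz => by simp only [hπ]; rw [if_pos hz]
  have hπf : ∀ z, ¬ near z → π z = z := fun z hz => by simp only [hπ]; rw [if_neg hz]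
  have hMnear : ∀ a ∈ M, near a := fun a ha => ⟨a, ha, by rw [sub_self, norm_zero]; exact hd⟩
  have hfM : ∀ a ∈ M, f a = a := by
    intro a ha
    obtain ⟨h1, h2⟩ := hf a (hMnear a ha)
    by_contra hne
    have := hsep a ha (f a) h1 (Ne.symm hne)
    linarith
  have hclose : ∀ z w, π z = π w → z = w ∨ (near z ∧ near w ∧ f z = f w) := by
    intro z w h
    by_cases hz : near z
    · by_cases hw : near w
      · right
        rw [hπn z hz, hπn w hw] at h
        exact ⟨hz, hw, h⟩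
      · exfalso
        rw [hπn z hz, hπf w hw] at h
        exact hw (h ▸ hMnear _ (hf z hz).1)
    · by_cases hw : near w
      · exfalso
        rw [hπf z hz, hπn w hw] at h
        exact hz (h ▸ hMnear _ (hf w hw).1)
      · left
        rwa [hπf z hz, hπf w hw] at h
  have hnr : ∀ z, near z → z.im ≤ y + d := by
    intro z hz
    obtain ⟨h1, h2⟩ := hf z hz
    have h3 := (hSm _ (hMS h1)).2
    have h4 := (Complex.abs_im_le_norm (z - f z)).trans_lt h2
    rw [Complex.sub_im] at h4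
    linarith [(abs_lt.1 h4).2]
  have hnd : ∀ z w, near z → near w → f z = f w → ‖z - w‖ < 2 * d := by
    intro z w hz hw h
    obtain ⟨h1, h2⟩ := hf z hz
    obtain ⟨h3, h4⟩ := hf w hw
    rw [norm_sub_rev] at h4
    calc ‖z - w‖ = ‖(z - f z) + (f w - w)‖ := by congr 1; rw [h]; ring
      _ ≤ ‖z - f z‖ + ‖f w - w‖ := norm_add_le _ _
      _ < 2 * d := by linarith
  have hA : ∀ z ∈ Z, ∀ w ∈ Z, 0 ≤ z.im → 0 ≤ w.im → π z = π w →
      (φ ((starRingEnd ℂ) z - z)).re - η ≤ (φ ((starRingEnd ℂ) z - w)).re := by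
    intro z _ w _ hz0 hw0 h
    rcases hclose z w h with rfl | ⟨hz, hw, hzw⟩
    · linarith
    · have d1 := (Complex.abs_re_le_norm _).trans
        (hφ z w hz0 (hnr z hz) hw0 (hnr w hw) (hnd z w hz hw hzw)).1
      rw [Complex.sub_re] at d1
      linarith [(abs_le.1 d1).1]
  have hB : ∀ z ∈ Z, ∀ w ∈ Z, 0 ≤ z.im → 0 ≤ w.im → π z = π w →
      1 - η ≤ (φ ((starRingEnd ℂ) z - (starRingEnd ℂ) w)).re := by
    intro z _ w _ hz0 hw0 h
    rcases hclose z w h with rfl | ⟨hz, hw, hzw⟩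
    · rw [sub_self, h0, Complex.one_re]; linarith
    · have d1 := (Complex.abs_re_le_norm _).trans
        (hφ z w hz0 (hnr z hz) hw0 (hnr w hw) (hnd z w hz hw hzw)).2
      rw [Complex.sub_re, Complex.one_re] at d1
      linarith [(abs_le.1 d1).1]
  refine ⟨P.image π, ?_, ?_, ?_⟩
  · intro a ha
    rw [Finset.mem_image] at ha
    obtain ⟨z, hz, rfl⟩ := ha
    by_cases h : near z
    · rw [hπn z h]; exact (hSm _ (hMS (hf z h).1)).1
    · rw [hπf z h]; exact hz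
  · -- separation
    have hcase : ∀ a ∈ P.image π, a ∈ M ∨ (a ∈ P ∧ ¬ near a) := by
      intro a ha
      rw [Finset.mem_image] at ha
      obtain ⟨z, hz, rfl⟩ := ha
      by_cases h : near z
      · left; rw [hπn z h]; exact (hf z h).1
      · right; rw [hπf z h]; exact ⟨hz, h⟩
    have hlow : ∀ a ∈ P.image π, a.im < y → a ∈ M := by
      intro a ha hay
      rcases hcase a ha with h | ⟨h1, h2⟩
      · exact h
      · exact absurd (hcov a (Finset.mem_filter.2 ⟨h1, hay⟩)) h2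
    have hone : ∀ a ∈ M, ∀ b ∈ P.image π, a ≠ b → d ≤ ‖a - b‖ := by
      intro a ha b hb hab
      rcases hcase b hb with h | ⟨-, h2⟩
      · exact hsep a ha b h hab
      · by_contra hlt
        push Not at hlt
        exact h2 ⟨a, ha, by rwa [norm_sub_rev]⟩
    intro a ha b hb hab h
    rcases h with h | h
    · exact hone a (hlow a ha h) b hb hab
    · rw [norm_sub_rev]; exact hone b (hlow b hb h) a ha (Ne.symm hab)
  · refine ⟨TS Z m π, ?_, ?_, fun Y hY => ?_⟩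
    · intro x hx
      unfold TS at hx
      rw [Finset.mem_image] at hx
      obtain ⟨z, hz, rfl⟩ := hx
      obtain ⟨hzZ, h2, -, h3⟩ := Tp_real hm1 hz
      have e1 : ((z.re : ℝ) : ℂ) = z := Complex.ext (by simp) (by simp [h2])
      rwa [e1]
    · have hmain := cluster_ineq φ k hk hev h0 Z hZ m hm1 hmc π hη hA hB
      rw [← hP] at hmain
      have hlow : ∀ a ∈ P.image π, 2 * Wc Z m π a - (if Wc Z m π a = 1 then 1 else 0) ≤
          (if Wc Z m π a = 1 then 1 else 4 * Wc Z m π a - 4) := by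
        intro a ha
        rcases Wc_int hm1 ha with h | h
        · rw [if_pos h, if_pos h, h]; norm_num
        · have h1 : Wc Z m π a ≠ 1 := fun h2 => by rw [h2] at h; norm_num at h
          rw [if_neg h1, if_neg h1]; linarith
      have hsum := Finset.sum_le_sum hlow
      rw [Finset.sum_sub_distrib, ← Finset.mul_sum, Wsum, ← hP, Finset.sum_boole] at hsum
      have hcard := one_card hm1 π (Z := Z) (m := m)
      rw [← hP] at hcard
      linarith
    · have hmain := cluster_Y φ k hk hev h0 Z hZ m hm1 hmc π hη hA hB Y hY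
      rw [← hP] at hmain
      have hlow : ∀ a ∈ P.image π, 3 * Wc Z m π a - 2 ≤
          (if Wc Z m π a = 1 then 1 else 4 * Wc Z m π a - 4) := by
        intro a ha
        rcases Wc_int hm1 ha with h | h
        · rw [if_pos h, h]; norm_num
        · have h1 : Wc Z m π a ≠ 1 := fun h2 => by rw [h2] at h; norm_num at h
          rw [if_neg h1]; linarith
      have hsum := Finset.sum_le_sum hlow
      rw [Finset.sum_sub_distrib, ← Finset.mul_sum, Wsum, ← hP, Finset.sum_const, nsmul_eq_mul]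
        at hsum
      unfold YG
      linarith

end TH803CL
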