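import Pool.Agent.TH803.CL.Geo
import Pool.Agent.TH803.UC.Core

/-! Estimates for the kernel near the origin, and separated sets of points. -/

open Complex Filter Topology Set MeasureTheory
open scoped BigOperators ComplexConjugate

namespace TH803CL

open H370 H370.A2 H295SI TH803UC

lemma kap_one {g : ℝ → ℝ} (hg : Win g) {v : ℂ} {R : ℝ} (hR : R ≤ 2) (hv : ‖v‖ ≤ R) :
    ‖kapG g v - 1‖ ≤ R ^ 2 / 4 := by
  have hgc := hg.cont
  have hR0 : 0 ≤ R := (norm_nonneg v).trans hv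
  set G : ℝ → ℂ := fun y => (g y : ℂ) * ((cexp (I * v * y) - 1 - I * v * y) +
    (cexp (I * (-v) * y) - 1 - I * (-v) * y)) with hG
  have hint : ∀ f : ℝ → ℂ, Continuous f → IntervalIntegrable f volume (-1 / 2) (1 / 2) :=
    fun f hf => hf.intervalIntegrable _ _
  have e1 : (kapG g v + kapG g (-v)) - 2 = ∫ y in (-1 / 2 : ℝ)..(1 / 2), G y := by
    have h1 : ∫ y in (-1 / 2 : ℝ)..(1 / 2), G y =
        ∫ y in (-1 / 2 : ℝ)..(1 / 2), (((g y : ℂ) * cexp (I * v * y) +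
          (g y : ℂ) * cexp (I * (-v) * y)) - 2 * (g y : ℂ)) := by
      congr 1
      ext y
      simp only [hG]
      ring
    have h2 : ∫ y in (-1 / 2 : ℝ)..(1 / 2), 2 * (g y : ℂ) = 2 := by
      rw [intervalIntegral.integral_const_mul, intervalIntegral.integral_ofReal, hg.mass]
      norm_num
    rw [h1, intervalIntegral.integral_sub, intervalIntegral.integral_add, h2]
    · rfl
    · exact hint _ (by fun_prop)
    · exact hint _ (by fun_prop)
    · exact hint _ (by fun_prop)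
    · exact hint _ (by fun_prop)
  have h3 : ‖∫ y in (-1 / 2 : ℝ)..(1 / 2), G y‖ ≤ R ^ 2 / 2 := by
    refine (intervalIntegral.norm_integral_le_integral_norm (by norm_num)).trans ?_
    have h4 : ∫ y in (-1 / 2 : ℝ)..(1 / 2), ‖G y‖ ≤
        ∫ y in (-1 / 2 : ℝ)..(1 / 2), g y * (R ^ 2 / 2) := by
      refine intervalIntegral.integral_mono_on (by norm_num) ?_ ?_ fun y hy => ?_
      · exact (by simp only [hG]; fun_prop : Continuous fun y : ℝ => ‖G y‖).intervalIntegrable _ _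
      · exact (hgc.mul continuous_const).intervalIntegrable _ _
      · have hg0 := hg.nonneg y (by linarith [hy.1]) hy.2
        simp only [hG]
        rw [norm_mul, Complex.norm_real, Real.norm_of_nonneg hg0]
        apply mul_le_mul_of_nonneg_left _ hg0
        have hy2 : |y| ≤ 1 / 2 := by rw [abs_le]; constructor <;> linarith [hy.1, hy.2]
        have b : ∀ w : ℂ, ‖w‖ ≤ R → ‖cexp (I * w * y) - 1 - I * w * y‖ ≤ R ^ 2 / 4 := by
          intro w hw
          have b1 : ‖I * w * y‖ ≤ R / 2 := by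
            rw [norm_mul, norm_mul, Complex.norm_I, one_mul, Complex.norm_real, Real.norm_eq_abs]
            calc ‖w‖ * |y| ≤ R * (1 / 2) := by gcongr
              _ = R / 2 := by ring
          refine (Complex.norm_exp_sub_one_sub_id_le (b1.trans (by linarith))).trans ?_
          calc ‖I * w * y‖ ^ 2 ≤ (R / 2) ^ 2 := by gcongr
            _ = R ^ 2 / 4 := by ring
        refine (norm_add_le _ _).trans ?_
        have b1 := b v hv
        have b2 := b (-v) (by rwa [norm_neg])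
        linarith
    refine h4.trans (le_of_eq ?_)
    rw [intervalIntegral.integral_mul_const, hg.mass, one_mul]
  have h5 : kapG g v - 1 = (1 / 2 : ℂ) * ((kapG g v + kapG g (-v)) - 2) := by
    rw [H143TG.kapG_even hg]; ring
  rw [h5, e1, norm_mul]
  have h6 : ‖(1 / 2 : ℂ)‖ = 1 / 2 := by norm_num
  rw [h6]
  linarith

/-- the kernel near the origin -/
lemma phi_one {g : ℝ → ℝ} (hg : Win g) {Λ L R : ℝ} (hΛ : 0 ≤ Λ) (hΛL : Λ ≤ L) (hL : 10 ≤ L)
    (hR : R ≤ 2) {u : ℂ} (hu : ‖u‖ * L ≤ R) : ‖phiG g Λ u - 1‖ ≤ 51 / 200 * R ^ 2 := by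
  have hu0 := norm_nonneg u
  have h1 : ‖u‖ ≤ R / 10 := by nlinarith
  have hR0 : 0 ≤ R := by linarith
  have h2 : ‖(Λ : ℂ) * u‖ ≤ R := by
    rw [norm_mul, Complex.norm_real, Real.norm_of_nonneg hΛ]
    nlinarith
  have h3 := kap_one hg hR h2
  have hR4 : R ^ 2 ≤ 4 := by nlinarith
  have h4 : ‖-u ^ 2 / 8‖ ≤ R ^ 2 / 800 := by
    rw [norm_div, norm_neg, norm_pow]
    have : ‖(8 : ℂ)‖ = 8 := by norm_num
    rw [this]
    have : ‖u‖ ^ 2 ≤ (R / 10) ^ 2 := by gcongr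
    linarith
  have h5 : ‖cexp (-u ^ 2 / 8) - 1‖ ≤ R ^ 2 / 400 := by
    refine (Complex.norm_exp_sub_one_le (h4.trans (by linarith))).trans ?_
    linarith
  have h6 : ‖kapG g (Λ * u)‖ ≤ 1 + R ^ 2 / 4 := by
    calc ‖kapG g (Λ * u)‖ = ‖(kapG g (Λ * u) - 1) + 1‖ := by congr 1; ring
      _ ≤ ‖kapG g (Λ * u) - 1‖ + ‖(1 : ℂ)‖ := norm_add_le _ _
      _ ≤ 1 + R ^ 2 / 4 := by rw [norm_one]; linarith
  unfold phiG
  calc ‖kapG g (Λ * u) * cexp (-u ^ 2 / 8) - 1‖ =
      ‖kapG g (Λ * u) * (cexp (-u ^ 2 / 8) - 1) + (kapG g (Λ * u) - 1)‖ := by congr 1; ring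
    _ ≤ ‖kapG g (Λ * u)‖ * ‖cexp (-u ^ 2 / 8) - 1‖ + ‖kapG g (Λ * u) - 1‖ := by
      refine (norm_add_le _ _).trans ?_
      rw [norm_mul]
    _ ≤ (1 + R ^ 2 / 4) * (R ^ 2 / 400) + R ^ 2 / 4 := by gcongr
    _ ≤ 51 / 200 * R ^ 2 := by nlinarith [sq_nonneg R]

lemma exp_lip {a b : ℂ} {r : ℝ} (ha : ‖a‖ ≤ r) (hb : ‖b‖ ≤ r) :
    ‖cexp a - cexp b‖ ≤ Real.exp r * ‖a - b‖ := by
  have h := (convex_closedBall (0 : ℂ) r).norm_image_sub_le_of_norm_deriv_le
    (f := cexp) (C := Real.exp r) (fun x _ => Complex.differentiableAt_exp) (fun x hx => by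
      rw [Complex.deriv_exp, Complex.norm_exp]
      apply Real.exp_le_exp.2
      rw [mem_closedBall_zero_iff] at hx
      exact (Complex.re_le_norm x).trans hx)
    (mem_closedBall_zero_iff.2 hb) (mem_closedBall_zero_iff.2 ha)
  exact h

lemma kap_bd {g : ℝ → ℝ} (hg : Win g) {v : ℂ} {R : ℝ} (hv : ‖v‖ ≤ R) :
    ‖kapG g v‖ ≤ Real.exp R := by
  have hgc := hg.cont
  have hR0 : 0 ≤ R := (norm_nonneg v).trans hv
  unfold kapG
  refine (intervalIntegral.norm_integral_le_integral_norm (by norm_num)).trans ?_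
  have h2 : ∫ y in (-1 / 2 : ℝ)..(1 / 2), ‖(g y : ℂ) * cexp (I * v * y)‖ ≤
      ∫ y in (-1 / 2 : ℝ)..(1 / 2), g y * Real.exp R := by
    refine intervalIntegral.integral_mono_on (by norm_num) ?_ ?_ fun y hy => ?_
    · exact (by fun_prop : Continuous fun y : ℝ =>
        ‖(g y : ℂ) * cexp (I * v * y)‖).intervalIntegrable _ _
    · exact (hgc.mul continuous_const).intervalIntegrable _ _
    · have hg0 := hg.nonneg y (by linarith [hy.1]) hy.2
      rw [norm_mul, Complex.norm_real, Real.norm_of_nonneg hg0]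
      apply mul_le_mul_of_nonneg_left _ hg0
      rw [Complex.norm_exp]
      apply Real.exp_le_exp.2
      have hy2 : |y| ≤ 1 / 2 := by rw [abs_le]; constructor <;> linarith [hy.1, hy.2]
      refine (Complex.re_le_norm _).trans ?_
      rw [norm_mul, norm_mul, Complex.norm_I, one_mul, Complex.norm_real, Real.norm_eq_abs]
      calc ‖v‖ * |y| ≤ R * (1 / 2) := by gcongr
        _ ≤ R := by linarith
  refine h2.trans (le_of_eq ?_)
  rw [intervalIntegral.integral_mul_const, hg.mass, one_mul]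

lemma kap_lip {g : ℝ → ℝ} (hg : Win g) {v w : ℂ} {R : ℝ} (hv : ‖v‖ ≤ R) (hw : ‖w‖ ≤ R) :
    ‖kapG g v - kapG g w‖ ≤ Real.exp R * ‖v - w‖ := by
  have hgc := hg.cont
  have hR0 : 0 ≤ R := (norm_nonneg v).trans hv
  have e1 : kapG g v - kapG g w = ∫ y in (-1 / 2 : ℝ)..(1 / 2), (g y : ℂ) *
      (cexp (I * v * y) - cexp (I * w * y)) := by
    unfold kapG
    rw [← intervalIntegral.integral_sub]
    · congr 1
      ext y
      ring
    · exact (by fun_prop : Continuous fun y : ℝ => (g y : ℂ) * cexp (I * v * y)).intervalIntegrable _ _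
    · exact (by fun_prop : Continuous fun y : ℝ => (g y : ℂ) * cexp (I * w * y)).intervalIntegrable _ _
  rw [e1]
  refine (intervalIntegral.norm_integral_le_integral_norm (by norm_num)).trans ?_
  have h2 : ∫ y in (-1 / 2 : ℝ)..(1 / 2), ‖(g y : ℂ) * (cexp (I * v * y) - cexp (I * w * y))‖ ≤
      ∫ y in (-1 / 2 : ℝ)..(1 / 2), g y * (Real.exp R * ‖v - w‖) := by
    refine intervalIntegral.integral_mono_on (by norm_num) ?_ ?_ fun y hy => ?_
    · exact (by fun_prop : Continuous fun y : ℝ =>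
        ‖(g y : ℂ) * (cexp (I * v * y) - cexp (I * w * y))‖).intervalIntegrable _ _
    · exact (hgc.mul continuous_const).intervalIntegrable _ _
    · have hg0 := hg.nonneg y (by linarith [hy.1]) hy.2
      rw [norm_mul, Complex.norm_real, Real.norm_of_nonneg hg0]
      apply mul_le_mul_of_nonneg_left _ hg0
      have hy2 : |y| ≤ 1 := by rw [abs_le]; constructor <;> linarith [hy.1, hy.2]
      have b : ∀ w : ℂ, ‖I * w * y‖ ≤ ‖w‖ := by
        intro w
        rw [norm_mul, norm_mul, Complex.norm_I, one_mul, Complex.norm_real, Real.norm_eq_abs]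
        calc ‖w‖ * |y| ≤ ‖w‖ * 1 := by gcongr
          _ = ‖w‖ := mul_one _
      refine (exp_lip ((b v).trans hv) ((b w).trans hw)).trans ?_
      have e2 : I * v * y - I * w * y = I * (v - w) * y := by ring
      rw [e2]
      gcongr
      exact b _
  refine h2.trans (le_of_eq ?_)
  rw [intervalIntegral.integral_mul_const, hg.mass, one_mul]

/-- Lipschitz bound for the kernel at the scale `1 / L` -/
lemma phi_lip {g : ℝ → ℝ} (hg : Win g) {Λ L R : ℝ} (hΛ : 0 ≤ Λ) (hΛL : Λ ≤ L) (hL : 1 ≤ L)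
    {u v : ℂ} (hu : ‖u‖ * L ≤ R) (hv : ‖v‖ * L ≤ R) :
    ‖phiG g Λ u - phiG g Λ v‖ ≤ (1 + R) * Real.exp (R + R ^ 2) * (‖u - v‖ * L) := by
  have hu0 := norm_nonneg u
  have hv0 := norm_nonneg v
  have hu1 : ‖u‖ ≤ R := by nlinarith
  have hv1 : ‖v‖ ≤ R := by nlinarith
  have hR0 : 0 ≤ R := hu0.trans hu1
  have hsc : ∀ w : ℂ, ‖w‖ * L ≤ R → ‖(Λ : ℂ) * w‖ ≤ R := by
    intro w hw
    rw [norm_mul, Complex.norm_real, Real.norm_of_nonneg hΛ]
    have := norm_nonneg w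
    nlinarith
  have hq : ∀ w : ℂ, ‖w‖ ≤ R → ‖-w ^ 2 / 8‖ ≤ R ^ 2 := by
    intro w hw
    rw [norm_div, norm_neg, norm_pow]
    have : ‖(8 : ℂ)‖ = 8 := by norm_num
    rw [this]
    have h2 : ‖w‖ ^ 2 ≤ R ^ 2 := by gcongr
    have h3 : 0 ≤ R ^ 2 := sq_nonneg R
    linarith
  have a1 := kap_lip hg (hsc u hu) (hsc v hv)
  have a2 := kap_bd hg (hsc v hv)
  have a3 := exp_lip (hq u hu1) (hq v hv1)
  have a4 : ‖cexp (-u ^ 2 / 8)‖ ≤ Real.exp (R ^ 2) := by
    rw [Complex.norm_exp]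
    exact Real.exp_le_exp.2 ((Complex.re_le_norm _).trans (hq u hu1))
  have a5 : ‖(Λ : ℂ) * u - Λ * v‖ ≤ ‖u - v‖ * L := by
    rw [← mul_sub, norm_mul, Complex.norm_real, Real.norm_of_nonneg hΛ, mul_comm]
    gcongr
  have a6 : ‖-u ^ 2 / 8 - -v ^ 2 / 8‖ ≤ R * (‖u - v‖ * L) := by
    have e1 : -u ^ 2 / 8 - -v ^ 2 / 8 = -((u - v) * (u + v)) / 8 := by ring
    rw [e1, norm_div, norm_neg, norm_mul]
    have : ‖(8 : ℂ)‖ = 8 := by norm_num
    rw [this]
    have h2 : ‖u + v‖ ≤ 2 * R := (norm_add_le _ _).trans (by linarith)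
    have h3 : ‖u - v‖ ≤ ‖u - v‖ * L := by nlinarith [norm_nonneg (u - v)]
    calc ‖u - v‖ * ‖u + v‖ / 8 ≤ (‖u - v‖ * L) * (2 * R) / 8 := by gcongr
      _ ≤ R * (‖u - v‖ * L) := by
        have : 0 ≤ R * (‖u - v‖ * L) := by positivity
        linarith
  unfold phiG
  have e1 : kapG g (Λ * u) * cexp (-u ^ 2 / 8) - kapG g (Λ * v) * cexp (-v ^ 2 / 8) =
      (kapG g (Λ * u) - kapG g (Λ * v)) * cexp (-u ^ 2 / 8) +
        kapG g (Λ * v) * (cexp (-u ^ 2 / 8) - cexp (-v ^ 2 / 8)) := by ring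
  rw [e1]
  refine (norm_add_le _ _).trans ?_
  rw [norm_mul, norm_mul, Real.exp_add]
  have hE1 := Real.exp_pos R
  have hE2 := Real.exp_pos (R ^ 2)
  calc ‖kapG g (Λ * u) - kapG g (Λ * v)‖ * ‖cexp (-u ^ 2 / 8)‖ +
      ‖kapG g (Λ * v)‖ * ‖cexp (-u ^ 2 / 8) - cexp (-v ^ 2 / 8)‖ ≤
      (Real.exp R * (‖u - v‖ * L)) * Real.exp (R ^ 2) +
        Real.exp R * (Real.exp (R ^ 2) * (R * (‖u - v‖ * L))) := by
        gcongr
        · exact a1.trans (by gcongr)
        · exact a3.trans (by gcongr)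
    _ = _ := by ring

end TH803CL
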