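import Pool.Agent.TH803.CL.Zer
import Pool.Agent.TH803.UC.Fin

/-! Windows with the pair sum asymptotics. -/

open Complex Filter Topology Set MeasureTheory
open scoped BigOperators ComplexConjugate

namespace TH803CL

open H370 H370.A2 H295SI TH803UC TH803TW

/-- few zeros near the ends -/
theorem ends2 {F : ℂ → ℂ} (hF : GoodL F) : ∃ C : ℝ, 0 < C ∧ ∀ T : ℝ, 10 ≤ T → ∀ H : ℝ, 6 ≤ H →
    H ≤ T → (NN F T (T + H) : ℝ) ≤ NN F (T + 2) (T + H - 2) + C * Real.log T := by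
  obtain ⟨C, hC, h⟩ := H965SI.countShort F hF
  refine ⟨3 * C, by positivity, fun T hT H hH hHT => ?_⟩
  have h1 := (h T hT H (by linarith) hHT (T + 1) (T + H - 1) (by linarith) le_rfl le_rfl
    (by linarith)).2
  have h2 := (h (T + 1) (by linarith) (H - 2) (by linarith) (by linarith) (T + 2) (T + H - 2)
    (by linarith) (by linarith) (by linarith) (by linarith)).2
  have e1 : T + 1 + (H - 2) = T + H - 1 := by ring
  rw [e1] at h2
  have h3 : Real.log (T + 1) ≤ 2 * Real.log T := by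
    have : Real.log (T + 1) ≤ Real.log (T ^ 2) := Real.log_le_log (by linarith) (by nlinarith)
    rwa [Real.log_pow, Nat.cast_ofNat] at this
  have h4 : C * Real.log (T + 1) ≤ C * (2 * Real.log T) := by gcongr
  linarith

/-- **windows** -/
theorem windows {F : ℂ → ℂ} (hF : GoodL F) (h ε E : ℝ) (hh0 : 0 < h)
    (hh1 : h ≤ 1) (hε : 0 < ε) (hE : 0 ≤ E) :
    ∃ T0 : ℝ, 10 ≤ T0 ∧ ∀ T : ℝ, T0 ≤ T → ∀ H : ℝ, T ^ h ≤ H → H ≤ T →
      ∃ (g : ℝ → ℝ) (Λ U1 U2 : ℝ), Win g ∧ 0 ≤ Λ ∧ Λ ≤ Real.log T ∧ 10 ≤ Real.log T ∧ 6 ≤ H ∧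
        T ≤ U1 ∧ U1 ≤ T + 1 ∧ T + H - 1 ≤ U2 ∧ U2 ≤ T + H ∧ ∀ κ : ℝ, 0 ≤ κ → κ ≤ 4 →
        (κ - cc h - ε) * (NN F T (T + H) : ℝ) ≤
          κ * NN F U1 U2 - QQG g F Λ U1 U2 - E * Real.log T := by
  have hs2 : 0 < Real.sqrt 2 := Real.sqrt_pos.2 (by norm_num)
  set s : ℝ := Real.sqrt 2 * h with hs
  have hs0 : 0 < s := by positivity
  have hs1 : s ≤ Real.sqrt 2 := by
    rw [hs]
    nlinarith
  have hW := H255SI.winS s hs0 hs1
  have hC := H793SI.convS s hs0 hs1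
  have hK := H218SI3.kSqS s hs0 hs1
  have hc := H228SI.constS h hh0 hh1
  rw [← hs] at hc
  set R : ℝ → ℝ := RS s with hR
  set J : ℝ := ∫ α in (0 : ℝ)..1, α * R α with hJ
  have hJ0 : 0 ≤ J := by
    apply intervalIntegral.integral_nonneg (by norm_num)
    intro u hu
    exact mul_nonneg hu.1 (hC.nonneg u)
  have hR0 : 0 ≤ R 0 := hC.nonneg 0
  have hcR : ∀ x, cR R x = R 0 / x + 2 * x * J := fun x => rfl
  have hcc0 : 0 ≤ cc h := by
    rw [← hc, hcR]
    positivity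
  set e : ℝ := min ε 1 with he
  have he0 : 0 < e := lt_min hε one_pos
  have he1 : e ≤ ε := min_le_left _ _
  have he2 : e ≤ 1 := min_le_right _ _
  set K : ℝ := 4 + cc h with hKdef
  have hK1 : 1 ≤ K := by linarith
  have hK0 : 0 < K := by linarith
  set η : ℝ := e / (80 * K) with hη
  have hη0 : 0 < η := by positivity
  have hηK : K * η = e / 80 := by rw [hη]; field_simp
  have hηe : η ≤ e / 80 := by
    rw [← hηK]
    nlinarith
  set δ : ℝ := min (h / 2) (e * h ^ 2 / (8 * (R 0 + 1))) with hδ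
  have hδ0 : 0 < δ := lt_min (by positivity) (by positivity)
  have hδ1 : δ ≤ h / 2 := min_le_left _ _
  have hδ2 : δ * (8 * (R 0 + 1)) ≤ e * h ^ 2 := by
    have := min_le_right (h / 2) (e * h ^ 2 / (8 * (R 0 + 1)))
    rw [← hδ, le_div_iff₀ (by positivity)] at this
    exact this
  -- the constant at `h - δ`
  have hcδ : cR R (h - δ) ≤ cc h + e / 4 := by
    rw [hcR, ← hc, hcR]
    have hhδ : 0 < h - δ := by linarith
    have h5 : R 0 / (h - δ) ≤ R 0 / h + e / 4 := by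
      rw [div_le_iff₀ hhδ, add_mul, div_mul_eq_mul_div, ← sub_le_iff_le_add, ]
      have h6 : R 0 - e / 4 * (h - δ) ≤ R 0 * (h - δ) / h := by
        rw [le_div_iff₀ hh0]
        nlinarith [mul_nonneg hR0 hδ0.le, mul_pos he0 hh0]
      linarith
    have h7 : 2 * (h - δ) * J ≤ 2 * h * J := by nlinarith
    linarith
  obtain ⟨T2, hT2, hPC⟩ := H613SI.pairShort H627SI.lamSmooth H228SI.qqJJ H965SI.countShort
    (H804JJ.jjShort H399SI.explShort Pool.Agent.H431R2.SI.outerShort) (gS s) R hW hC hK F hF h δ η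
    hδ0 (by linarith) hh1 hη0
  obtain ⟨C0, hC00, hends⟩ := H965SI.countShort F hF
  set C : ℝ := 4 * C0 + E + 1 with hCdef
  have hC0 : 0 < C := by positivity
  set B : ℝ := max 6 (2 * Real.pi * C * (80 * K) / e) with hB
  have hB3 : 6 ≤ B := le_max_left _ _
  refine ⟨max (max (10 + Real.exp 10) T2) (B ^ (1 / h)), le_trans (by
    have := Real.exp_pos 10; linarith) ((le_max_left _ _).trans
    (le_max_left _ _)), fun T hT H hH1 hH2 => ?_⟩
  have hTe : 10 + Real.exp 10 ≤ T := ((le_max_left _ _).trans (le_max_left _ _)).trans hT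
  have hT10 : 10 ≤ T := by
    have := Real.exp_pos 10; linarith
  have hTT2 : T2 ≤ T := ((le_max_right _ _).trans (le_max_left _ _)).trans hT
  have hTB : B ≤ T ^ h := by
    have h5 : B ^ (1 / h) ≤ T := (le_max_right _ _).trans hT
    have h6 := Real.rpow_le_rpow (Real.rpow_nonneg (by linarith) _) h5 hh0.le
    rw [← Real.rpow_mul (by linarith), one_div_mul_cancel hh0.ne', Real.rpow_one] at h6
    exact h6
  have hHB : B ≤ H := hTB.trans hH1
  have hH6 : 6 ≤ H := hB3.trans hHB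
  have hH3 : 3 ≤ H := by linarith
  have hHC : 2 * Real.pi * C * (80 * K) / e ≤ H := (le_max_right _ _).trans hHB
  obtain ⟨U1, U2, hU1, hU1', hU2, hU2', hNN, hQQ⟩ := hPC T hTT2 H hH1 hH2
  have hL1 : 10 ≤ Real.log T := by
    rw [Real.le_log_iff_exp_le (by linarith)]
    linarith
  have hL : 0 < Real.log T := by linarith
  set M : ℝ := H * Real.log T / (2 * Real.pi) with hM
  have hpi := Real.pi_pos
  have hM0 : 0 < M := by positivity
  have hTL : H * Real.log T = 2 * Real.pi * M := by rw [hM]; field_simp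
  rw [hTL] at hNN
  have hpi2 : Real.pi < 3.15 := Real.pi_lt_d2
  have hηM : η * (2 * Real.pi * M) ≤ 7 * (η * M) := by
    have : 2 * Real.pi ≤ 7 := by linarith
    calc η * (2 * Real.pi * M) = (η * M) * (2 * Real.pi) := by ring
      _ ≤ (η * M) * 7 := by
        apply mul_le_mul_of_nonneg_left this (by positivity)
      _ = 7 * (η * M) := by ring
  obtain ⟨hNNl, hNNu⟩ := abs_le.mp hNN
  have hQ : QQG (gS s) F ((h - δ) * Real.log T) U1 U2 ≤ M * (cc h + e / 4 + η) := by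
    refine hQQ.trans ?_
    exact mul_le_mul_of_nonneg_left (by linarith) hM0.le
  have hT1 : 1 ≤ T := by linarith
  have hNNm : (NN F U1 U2 : ℝ) ≤ NN F T (T + H) := by
    exact_mod_cast NN_mono hF hT1 hU1 hU2'
  have hend := (hends T hT10 H hH3 hH2 U1 U2 hU1 hU1' hU2 hU2').2
  have hCL : C * Real.log T ≤ η * M := by
    rw [hM]
    rw [div_le_iff₀ he0] at hHC
    have : η * (H * Real.log T / (2 * Real.pi)) =
      (H * e) * (Real.log T / (160 * K * Real.pi)) := by rw [hη]; field_simp; ring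
    rw [this]
    calc C * Real.log T = (2 * Real.pi * C * (80 * K)) * (Real.log T / (160 * K * Real.pi)) := by
          field_simp; ring
      _ ≤ (H * e) * (Real.log T / (160 * K * Real.pi)) :=
        mul_le_mul_of_nonneg_right hHC (by positivity)
  have hNN0 : (0 : ℝ) ≤ NN F T (T + H) := Nat.cast_nonneg _
  have heM : 0 < e * M := by positivity
  have hηM0 : 0 < η * M := by positivity
  have hηeM : η * M ≤ e * M / 80 := by
    have := mul_le_mul_of_nonneg_right hηe hM0.le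
    linarith
  have hKηM : K * (η * M) = e * M / 80 := by
    rw [← mul_assoc, hηK]; ring
  have h8 : M * (cc h + e / 4 + η) = cc h * M + e * M / 4 + η * M := by ring
  rw [h8] at hQ
  -- lower bound for `N`
  have hlow : M - 7 * (η * M) ≤ NN F T (T + H) := by linarith
  have hlow2 : (cc h + e) * (M - 7 * (η * M)) ≤ (cc h + e) * (NN F T (T + H) : ℝ) :=
    mul_le_mul_of_nonneg_left hlow (by linarith)
  have hlow3 : (cc h + e) * (7 * (η * M)) ≤ 7 * (e * M / 80) := by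
    have : (cc h + e) * (7 * (η * M)) ≤ K * (7 * (η * M)) :=
      mul_le_mul_of_nonneg_right (by linarith) (by positivity)
    linarith
  refine ⟨gS s, (h - δ) * Real.log T, U1, U2, hW, ?_, ?_, hL1, hH6, hU1, hU1', hU2, hU2',
    fun κ hκ0 hκ4 => ?_⟩
  · exact mul_nonneg (by linarith) hL.le
  · nlinarith
  · have b1 : (κ - cc h - ε) * (NN F T (T + H) : ℝ) ≤ (κ - cc h - e) * (NN F T (T + H) : ℝ) :=
      mul_le_mul_of_nonneg_right (by linarith) hNN0
    have b2 : κ * (NN F T (T + H) : ℝ) ≤ κ * NN F U1 U2 + 4 * C0 * Real.log T := by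
      have c1 := mul_le_mul_of_nonneg_left hend hκ0
      have c2 : κ * (C0 * Real.log T) ≤ 4 * (C0 * Real.log T) :=
        mul_le_mul_of_nonneg_right hκ4 (by positivity)
      linarith
    have b3 : C * Real.log T = 4 * C0 * Real.log T + E * Real.log T + Real.log T := by
      rw [hCdef]; ring
    have b4 : (κ - cc h - e) * (NN F T (T + H) : ℝ) = κ * (NN F T (T + H) : ℝ) -
        (cc h + e) * (NN F T (T + H) : ℝ) := by ring
    have b5 : (cc h + e) * (M - 7 * (η * M)) = cc h * M + e * M - (cc h + e) * (7 * (η * M)) := by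
      ring
    linarith

open Classical in
/-- simple critical zeros with ordinate in `(A, B]` at distance at least `d` from all other zeros in
the critical strip -/
noncomputable def isoA (F : ℂ → ℂ) (A B d : ℝ) : Finset ℂ :=
  (Zf F A B).filter (fun s => s.re = 1 / 2 ∧ mult F s = 1 ∧
    ∀ s' : ℂ, F s' = 0 → 0 < s'.re → s'.re < 1 → s' ≠ s → d ≤ ‖s - s'‖)

lemma card_diff {F : ℂ → ℂ} (hF : GoodL F) {A B A' B' : ℝ} (hA : 1 ≤ A) (h1 : A ≤ A') (h2 : B' ≤ B) :
    ((Zf F A B \ Zf F A' B').card : ℝ) ≤ (NN F A B : ℝ) - NN F A' B' := by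
  have hsub := Zf_sub hF hA h1 h2
  have e1 : (NN F A B : ℝ) = ∑ s ∈ Zf F A B, (mult F s : ℝ) := by
    rw [NN_eq hF hA]; push_cast; rfl
  have e2 : (NN F A' B' : ℝ) = ∑ s ∈ Zf F A' B', (mult F s : ℝ) := by
    rw [NN_eq hF (hA.trans h1)]; push_cast; rfl
  rw [e1, e2, ← Finset.sum_sdiff hsub]
  have : ((Zf F A B \ Zf F A' B').card : ℝ) ≤ ∑ s ∈ Zf F A B \ Zf F A' B', (mult F s : ℝ) := by
    rw [Finset.card_eq_sum_ones]
    push_cast
    refine Finset.sum_le_sum fun s hs => ?_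
    rw [Finset.mem_sdiff] at hs
    have := (mem_Zf hF hA).mp hs.1
    have h3 := Loc.mult_pos' hF (by linarith [this.2.2.1]) this.2.2.2.2
    exact_mod_cast h3
  linarith

/-- **isolated simple critical zeros in short intervals** -/
theorem iso_main {F : ℂ → ℂ} (hF : GoodL F) (h ε δ : ℝ) (hh0 : 0 < h) (hh1 : h ≤ 1) (hε : 0 < ε)
    (hδ : 0 < δ) (hδ1 : δ ≤ 1 / 10) :
    ∃ T0 : ℝ, 10 ≤ T0 ∧ ∀ T : ℝ, T0 ≤ T → ∀ H : ℝ, T ^ h ≤ H → H ≤ T →
      (2 - cc h - 74 * δ ^ 2 - ε) * (NN F T (T + H) : ℝ) ≤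
        (isoA F T (T + H) (δ / Real.log T)).card := by
  classical
  obtain ⟨C, hC, hends⟩ := ends2 hF
  obtain ⟨T0, hT0, hwin⟩ := windows hF h ε C hh0 hh1 hε hC.le
  refine ⟨T0, hT0, fun T hT H hH1 hH2 => ?_⟩
  have hT10 : 10 ≤ T := hT0.trans hT
  obtain ⟨g, Λ, U1, U2, hg, hΛ0, hΛL, hL1, hH6, hU1, hU1', hU2, hU2', hκ⟩ := hwin T hT H hH1 hH2
  have hL0 : 0 < Real.log T := by linarith
  have hk := hκ (2 - 74 * δ ^ 2) (by nlinarith) (by nlinarith)
  have hiso := iso_zeros hF (B := U2) (by linarith : 1 ≤ U1) hg hΛ0 hΛL hL1 hδ (by linarith)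
  have he := hends T hT10 H hH6 hH2
  have hdiff := card_diff hF (A := T) (B := T + H) (A' := T + 2) (B' := T + H - 2)
    (by linarith) (by linarith) (by linarith)
  have hd1 : δ / Real.log T ≤ 1 := by
    rw [div_le_one hL0]; linarith
  have hsub : isoZ F U1 U2 (δ / Real.log T) ⊆ isoA F T (T + H) (δ / Real.log T) ∪
      (Zf F T (T + H) \ Zf F (T + 2) (T + H - 2)) := by
    intro s hs
    unfold isoZ at hs
    rw [Finset.mem_filter] at hs
    obtain ⟨hs1, hs2, hs3, hs4⟩ := hs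
    have hsT : s ∈ Zf F T (T + H) := Zf_sub hF (by linarith) hU1 hU2' hs1
    rw [Finset.mem_union]
    by_cases hin : s ∈ Zf F (T + 2) (T + H - 2)
    · left
      unfold isoA
      rw [Finset.mem_filter]
      refine ⟨hsT, hs2, hs3, fun s' h0 hre hre' hne => ?_⟩
      by_contra hlt
      push Not at hlt
      have h1 := (Complex.abs_im_le_norm (s - s')).trans_lt hlt
      rw [Complex.sub_im] at h1
      have h2 := abs_lt.1 (h1.trans_le hd1)
      have h3 := (mem_Zf hF (by linarith : 1 ≤ T + 2)).mp hin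
      have h4 : s' ∈ Zf F U1 U2 := (mem_Zf hF (by linarith : 1 ≤ U1)).mpr
        ⟨hre, hre', by linarith [h3.2.2.1], by linarith [h3.2.2.2.1], h0⟩
      have := hs4 s' h4 hne
      linarith
    · right
      exact Finset.mem_sdiff.2 ⟨hsT, hin⟩
  have hcard : ((isoZ F U1 U2 (δ / Real.log T)).card : ℝ) ≤
      (isoA F T (T + H) (δ / Real.log T)).card +
        ((Zf F T (T + H) \ Zf F (T + 2) (T + H - 2)).card : ℝ) := by
    exact_mod_cast (Finset.card_le_card hsub).trans (Finset.card_union_le _ _)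
  have e1 : (2 - 74 * δ ^ 2 - cc h - ε) = (2 - cc h - 74 * δ ^ 2 - ε) := by ring
  rw [e1] at hk
  have e2 : (2 - 74 * δ ^ 2) * (NN F U1 U2 : ℝ) = 2 * NN F U1 U2 - 74 * δ ^ 2 * NN F U1 U2 := by
    ring
  rw [e2] at hk
  linarith

/-- **separated zeros in short intervals** -/
theorem sep_main {F : ℂ → ℂ} (hF : GoodL F) (h ε δ : ℝ) (hh0 : 0 < h) (hh1 : h ≤ 1) (hε : 0 < ε)
    (hδ : 0 < δ) (hδ1 : δ ≤ 1 / 10) :
    ∃ T0 : ℝ, 10 ≤ T0 ∧ ∀ T : ℝ, T0 ≤ T → ∀ H : ℝ, T ^ h ≤ H → H ≤ T →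
      ∃ M ⊆ Zf F T (T + H), (∀ s ∈ M, 1 / 2 ≤ s.re) ∧
      (∀ a ∈ M, ∀ b ∈ M, a ≠ b → (a.re - 1 / 2 < δ / Real.log T ∨ b.re - 1 / 2 < δ / Real.log T) →
        δ / Real.log T ≤ ‖a - b‖) ∧
      (3 - cc h - 74 * δ ^ 2 - ε) * (NN F T (T + H) : ℝ) ≤ 2 * (M.card : ℝ) := by
  classical
  obtain ⟨T0, hT0, hwin⟩ := windows hF h ε 0 hh0 hh1 hε le_rfl
  refine ⟨T0, hT0, fun T hT H hH1 hH2 => ?_⟩
  have hT10 : 10 ≤ T := hT0.trans hT
  obtain ⟨g, Λ, U1, U2, hg, hΛ0, hΛL, hL1, hH6, hU1, hU1', hU2, hU2', hκ⟩ := hwin T hT H hH1 hH2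
  have hL0 : 0 < Real.log T := by linarith
  have hk := hκ (3 - 74 * δ ^ 2) (by nlinarith) (by nlinarith)
  set d := δ / Real.log T with hd
  have hd0 : 0 < d := by positivity
  have hdL : d * Real.log T = δ := by rw [hd]; field_simp
  have h1 : ∀ u : ℂ, ‖u‖ ≤ 6 * d → ‖phiG g Λ u - 1‖ ≤ 37 / 4 * δ ^ 2 := by
    intro u hu
    refine (phi_one hg hΛ0 hΛL hL1 (R := 6 * δ) (by linarith) ?_).trans
      (by nlinarith [sq_nonneg δ])
    calc ‖u‖ * Real.log T ≤ 6 * d * Real.log T := by gcongr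
      _ = 6 * δ := by rw [mul_assoc, hdL]
  obtain ⟨M, hM, hMre, hMsep, hcount⟩ := sep_zeros hF (A := U1) (B := U2) (by linarith) hg
    (Λ := Λ) (d := d) (η := 37 / 2 * δ ^ 2) (y := d) hd0 (by positivity) (by
      intro z w hz hzy hw hwy hzw
      have c0 : ‖(starRingEnd ℂ) z - z‖ ≤ 4 * d := by
        rw [conj_sub_self, abs_of_nonneg hz]; linarith
      have c1 : ‖(starRingEnd ℂ) z - w‖ ≤ 6 * d := by
        calc ‖(starRingEnd ℂ) z - w‖ = ‖((starRingEnd ℂ) z - z) + (z - w)‖ := by congr 1; ring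
          _ ≤ ‖(starRingEnd ℂ) z - z‖ + ‖z - w‖ := norm_add_le _ _
          _ ≤ 6 * d := by linarith
      have c2 : ‖(starRingEnd ℂ) z - (starRingEnd ℂ) w‖ ≤ 6 * d := by
        rw [← map_sub, RCLike.norm_conj]; linarith
      constructor
      · calc ‖phiG g Λ ((starRingEnd ℂ) z - w) - phiG g Λ ((starRingEnd ℂ) z - z)‖ =
            ‖(phiG g Λ ((starRingEnd ℂ) z - w) - 1) - (phiG g Λ ((starRingEnd ℂ) z - z) - 1)‖ := by
              congr 1; ring
          _ ≤ ‖phiG g Λ ((starRingEnd ℂ) z - w) - 1‖ + ‖phiG g Λ ((starRingEnd ℂ) z - z) - 1‖ :=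
            norm_sub_le _ _
          _ ≤ 37 / 4 * δ ^ 2 + 37 / 4 * δ ^ 2 := add_le_add (h1 _ c1) (h1 _ (by linarith))
          _ = 37 / 2 * δ ^ 2 := by ring
      · refine (h1 _ c2).trans ?_
        nlinarith [sq_nonneg δ])
  refine ⟨M, hM.trans (Zf_sub hF (by linarith) hU1 hU2'), hMre, hMsep, ?_⟩
  have e1 : (3 - 74 * δ ^ 2 - cc h - ε) = (3 - cc h - 74 * δ ^ 2 - ε) := by ring
  rw [e1] at hk
  linarith

end TH803CL
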