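import Pool.Agent.TH803.CL.ZerY
import Pool.Agent.TH803.CL.Win
import Pool.Agent.H370R2.Expl1

/-! Isolated and separated zeros beyond the Montgomery-Taylor proportions. -/

open Complex Filter Topology Set MeasureTheory
open scoped BigOperators ComplexConjugate

namespace TH803CL

open H370 H370.A2 H295SI TH803UC TH803TW

lemma isoZ_isoA {F : ℂ → ℂ} (hF : GoodL F) {T H U1 U2 d : ℝ} (hT : 10 ≤ T)
    (hU1 : T ≤ U1) (hU1' : U1 ≤ T + 1) (hU2 : T + H - 1 ≤ U2) (hU2' : U2 ≤ T + H) (hd1 : d ≤ 1) :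
    ((isoZ F U1 U2 d).card : ℝ) ≤ (isoA F T (T + H) d).card +
      ((NN F T (T + H) : ℝ) - NN F (T + 2) (T + H - 2)) := by
  classical
  have hdiff := card_diff hF (A := T) (B := T + H) (A' := T + 2) (B' := T + H - 2)
    (by linarith) (by linarith) (by linarith)
  have hsub : isoZ F U1 U2 d ⊆ isoA F T (T + H) d ∪
      (Zf F T (T + H) \ Zf F (T + 2) (T + H - 2)) := by
    intro s hs
    unfold isoZ at hs
    rw [Finset.mem_filter] at hs
    obtain ⟨hs1, hs2, hs3, hs4⟩ := hs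
    have hsT : s ∈ Zf F T (T + H) := Zf_sub hF (by linarith) hU1 hU2' hs1
    rw [Finset.mem_union]
    by_cases hin : s ∈ Zf F (T + 2) (T + H - 2)
    · left
      unfold isoA
      rw [Finset.mem_filter]
      refine ⟨hsT, hs2, hs3, fun s' h0 hre hre' hne => ?_⟩
      by_contra hlt
      push Not at hlt
      have h1 := (Complex.abs_im_le_norm (s - s')).trans_lt hlt
      rw [Complex.sub_im] at h1
      have h2 := abs_lt.1 (h1.trans_le hd1)
      have h3 := (mem_Zf hF (by linarith : 1 ≤ T + 2)).mp hin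
      have h4 : s' ∈ Zf F U1 U2 := (mem_Zf hF (by linarith : 1 ≤ U1)).mpr
        ⟨hre, hre', by linarith [h3.2.2.1], by linarith [h3.2.2.2.1], h0⟩
      have := hs4 s' h4 hne
      linarith
    · right
      exact Finset.mem_sdiff.2 ⟨hsT, hin⟩
  have hcard : ((isoZ F U1 U2 d).card : ℝ) ≤ (isoA F T (T + H) d).card +
        ((Zf F T (T + H) \ Zf F (T + 2) (T + H - 2)).card : ℝ) := by
    exact_mod_cast (Finset.card_le_card hsub).trans (Finset.card_union_le _ _)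
  linarith

/-- **isolated simple critical zeros beyond the Montgomery-Taylor proportion** -/
theorem isoY_main : ∃ κ : ℝ, 0 < κ ∧ ∀ F : ℂ → ℂ, GoodL F → ∀ δ : ℝ, 0 < δ → δ ≤ 1 / 30 →
    ∃ T0 : ℝ, 10 ≤ T0 ∧ ∀ T : ℝ, T0 ≤ T →
      (2 - cc 1 + κ - 74 * δ ^ 2) * (NN F T (2 * T) : ℝ) ≤
        (isoA F T (2 * T) (δ / Real.log T)).card := by
  classical
  obtain ⟨κ, hκ, hκ1, hw⟩ := windowsY
  refine ⟨κ / 2, by positivity, fun F hF δ hδ0 hδ1 => ?_⟩
  obtain ⟨C, hC, hends⟩ := ends2 hF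
  obtain ⟨T0, hT0, hwin⟩ := hw F hF (κ / 8) C (by positivity) hC.le
  refine ⟨T0, hT0, fun T hT => ?_⟩
  have hT10 : 10 ≤ T := hT0.trans hT
  obtain ⟨Λ, U1, U2, hΛ0, hΛL, hL1, hU1, hU1', hU2, hU2', hk, hgain⟩ := hwin T hT
  have hδ74 : 74 * δ ^ 2 ≤ 74 / 900 := by
    have : δ ^ 2 ≤ (1 / 30) ^ 2 := pow_le_pow_left₀ hδ0.le hδ1 2
    linarith
  have hδn : 0 ≤ 74 * δ ^ 2 := by positivity
  have hU : 1 ≤ U1 := by linarith
  obtain ⟨S, hS, hcount⟩ := iso_zerosY hF (A := U1) (B := U2) hU hΛ0 hΛL hL1 hδ0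
    (by linarith)
  have hk2 := hk (2 - 74 * δ ^ 2) (by linarith) (by linarith)
  have hNN0 : (0 : ℝ) ≤ NN F T (2 * T) := Nat.cast_nonneg _
  have hCL : 0 ≤ C * Real.log T := mul_nonneg hC.le (by linarith)
  have hcc : cc 1 ≤ 1.327503 := H370.Expl.cMTinv_num
  have hScard : 11 / 20 * (NN F T (2 * T) : ℝ) ≤ S.card := by
    have h0 := hcount (fun _ _ => 0) (YB_zero S)
    rw [YT_zero] at h0
    have h1 : 11 / 20 * (NN F T (2 * T) : ℝ) ≤
        (2 - 74 * δ ^ 2 - cc 1 - κ / 8) * (NN F T (2 * T) : ℝ) :=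
      mul_le_mul_of_nonneg_right (by linarith) hNN0
    linarith
  have hmem : ∀ x ∈ S, U1 < x ∧ x ≤ U2 := by
    intro x hx
    have h1 := hS x hx
    unfold isoZ at h1
    rw [Finset.mem_filter] at h1
    have h2 := (mem_Zf hF hU).mp h1.1
    have h3 : (1 / 2 + I * x : ℂ).im = x := by simp
    have a1 := h2.2.2.1
    have a2 := h2.2.2.2.1
    rw [h3] at a1 a2
    exact ⟨a1, a2⟩
  obtain ⟨Y, hY, hYT⟩ := hgain S hmem hScard
  have h1 := hcount Y hY
  have hcardS : (S.card : ℝ) ≤ (isoZ F U1 U2 (δ / Real.log T)).card := by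
    have hinj : Function.Injective fun x : ℝ => (1 / 2 + I * x : ℂ) := by
      intro a b hab
      have := congrArg Complex.im hab
      simpa using this
    have hsub : S.image (fun x : ℝ => (1 / 2 + I * x : ℂ)) ⊆ isoZ F U1 U2 (δ / Real.log T) := by
      intro s hs
      rw [Finset.mem_image] at hs
      obtain ⟨x, hx, rfl⟩ := hs
      exact hS x hx
    have := Finset.card_le_card hsub
    rw [Finset.card_image_of_injective _ hinj] at this
    exact_mod_cast this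
  have hd1 : δ / Real.log T ≤ 1 := by
    rw [div_le_one (by linarith)]
    linarith
  have h2 := isoZ_isoA hF (T := T) (H := T) (U1 := U1) (U2 := U2) (d := δ / Real.log T) hT10
    hU1 hU1' (by linarith) (by linarith) hd1
  have he := hends T hT10 T (by linarith) le_rfl
  have e2T : T + T = 2 * T := by ring
  rw [e2T] at h2 he
  have h3 : (2 - cc 1 + κ / 2 - 74 * δ ^ 2) * (NN F T (2 * T) : ℝ) ≤
      (2 - 74 * δ ^ 2 - cc 1 - κ / 8) * (NN F T (2 * T) : ℝ) + κ * (NN F T (2 * T) : ℝ) := by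
    rw [← add_mul]
    apply mul_le_mul_of_nonneg_right _ hNN0
    linarith
  linarith

/-- **separated sets near the line beyond the Montgomery-Taylor proportion** -/
theorem sepY_near : ∃ κ : ℝ, 0 < κ ∧ ∀ F : ℂ → ℂ, GoodL F → ∀ δ : ℝ, 0 < δ → δ ≤ 1 / 30 →
    ∃ T0 : ℝ, 10 ≤ T0 ∧ ∀ T : ℝ, T0 ≤ T → ∃ M ⊆ Zf F T (2 * T), (∀ s ∈ M, 1 / 2 ≤ s.re) ∧
      (∀ a ∈ M, ∀ b ∈ M, a ≠ b → (a.re - 1 / 2 < δ / Real.log T ∨ b.re - 1 / 2 < δ / Real.log T) →
        δ / Real.log T ≤ ‖a - b‖) ∧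
      (3 - cc 1 + κ - 74 * δ ^ 2) * (NN F T (2 * T) : ℝ) ≤ 2 * (M.card : ℝ) := by
  classical
  obtain ⟨κ, hκ, hκ1, hw⟩ := windowsY
  refine ⟨κ / 2, by positivity, fun F hF δ hδ0 hδ1 => ?_⟩
  obtain ⟨T0, hT0, hwin⟩ := hw F hF (κ / 8) 0 (by positivity) le_rfl
  refine ⟨T0, hT0, fun T hT => ?_⟩
  have hT10 : 10 ≤ T := hT0.trans hT
  obtain ⟨Λ, U1, U2, hΛ0, hΛL, hL1, hU1, hU1', hU2, hU2', hk, hgain⟩ := hwin T hT
  have hδ74 : 74 * δ ^ 2 ≤ 74 / 900 := by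
    have : δ ^ 2 ≤ (1 / 30) ^ 2 := pow_le_pow_left₀ hδ0.le hδ1 2
    linarith
  have hδn : 0 ≤ 74 * δ ^ 2 := by positivity
  have hU : 1 ≤ U1 := by linarith
  have hL0 : 0 < Real.log T := by linarith
  set d := δ / Real.log T with hd
  have hd0 : 0 < d := by positivity
  have hdL : d * Real.log T = δ := by rw [hd]; field_simp
  have h1 : ∀ u : ℂ, ‖u‖ ≤ 6 * d → ‖phiG g0 Λ u - 1‖ ≤ 37 / 4 * δ ^ 2 := by
    intro u hu
    refine (phi_one win_g0 hΛ0 hΛL hL1 (R := 6 * δ) (by linarith) ?_).trans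
      (by nlinarith [sq_nonneg δ])
    calc ‖u‖ * Real.log T ≤ 6 * d * Real.log T := by gcongr
      _ = 6 * δ := by rw [mul_assoc, hdL]
  obtain ⟨M, hM, hMre, hMsep, S, hmem, hScount, hcount⟩ := sep_zerosY hF (A := U1) (B := U2) hU
    (Λ := Λ) (d := d) (η := 37 / 2 * δ ^ 2) (y := d) hd0 (by positivity) (by
      intro z w hz hzy hw hwy hzw
      have c0 : ‖(starRingEnd ℂ) z - z‖ ≤ 4 * d := by
        rw [conj_sub_self, abs_of_nonneg hz]; linarith
      have c1 : ‖(starRingEnd ℂ) z - w‖ ≤ 6 * d := by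
        calc ‖(starRingEnd ℂ) z - w‖ = ‖((starRingEnd ℂ) z - z) + (z - w)‖ := by congr 1; ring
          _ ≤ ‖(starRingEnd ℂ) z - z‖ + ‖z - w‖ := norm_add_le _ _
          _ ≤ 6 * d := by linarith
      have c2 : ‖(starRingEnd ℂ) z - (starRingEnd ℂ) w‖ ≤ 6 * d := by
        rw [← map_sub, RCLike.norm_conj]; linarith
      constructor
      · calc ‖phiG g0 Λ ((starRingEnd ℂ) z - w) - phiG g0 Λ ((starRingEnd ℂ) z - z)‖ =
            ‖(phiG g0 Λ ((starRingEnd ℂ) z - w) - 1) -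
              (phiG g0 Λ ((starRingEnd ℂ) z - z) - 1)‖ := by congr 1; ring
          _ ≤ ‖phiG g0 Λ ((starRingEnd ℂ) z - w) - 1‖ +
              ‖phiG g0 Λ ((starRingEnd ℂ) z - z) - 1‖ := norm_sub_le _ _
          _ ≤ 37 / 4 * δ ^ 2 + 37 / 4 * δ ^ 2 := add_le_add (h1 _ c1) (h1 _ (by linarith))
          _ = 37 / 2 * δ ^ 2 := by ring
      · refine (h1 _ c2).trans ?_
        nlinarith [sq_nonneg δ])
  refine ⟨M, hM.trans (Zf_sub hF (by linarith) hU1 hU2'), hMre, hMsep, ?_⟩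
  have e4 : 4 * (37 / 2 * δ ^ 2) = 74 * δ ^ 2 := by ring
  rw [e4] at hScount hcount
  have hNN0 : (0 : ℝ) ≤ NN F T (2 * T) := Nat.cast_nonneg _
  have hcc : cc 1 ≤ 1.327503 := H370.Expl.cMTinv_num
  have hk2 := hk (2 - 74 * δ ^ 2) (by linarith) (by linarith)
  have hk3 := hk (3 - 74 * δ ^ 2) (by linarith) (by linarith)
  have hScard : 11 / 20 * (NN F T (2 * T) : ℝ) ≤ S.card := by
    have h1 : 11 / 20 * (NN F T (2 * T) : ℝ) ≤
        (2 - 74 * δ ^ 2 - cc 1 - κ / 8) * (NN F T (2 * T) : ℝ) :=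
      mul_le_mul_of_nonneg_right (by linarith) hNN0
    linarith
  obtain ⟨Y, hY, hYT⟩ := hgain S hmem hScard
  have h2 := hcount Y hY
  have h3 : (3 - cc 1 + κ / 2 - 74 * δ ^ 2) * (NN F T (2 * T) : ℝ) ≤
      (3 - 74 * δ ^ 2 - cc 1 - κ / 8) * (NN F T (2 * T) : ℝ) + κ * (NN F T (2 * T) : ℝ) := by
    rw [← add_mul]
    apply mul_le_mul_of_nonneg_right _ hNN0
    linarith
  linarith

end TH803CL
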