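import Pool.Agent.TH803.UC.Trace

/-! The trace inequality with a general test matrix, and its version for clusters of points. -/

open scoped BigOperators ComplexConjugate

namespace TH803CL

open H370 TH803UC

/-- **the trace inequality with a test matrix** -/
theorem trace_D {E : Type*} [NormedAddCommGroup E] [InnerProductSpace ℂ E]
    (K : ℂ → ℂ → ℂ) (k : ℂ → E) (hk : ∀ z w, inner ℂ (k z) (k w) = K ((starRingEnd ℂ) z) w)
    (hsym : ∀ z w, K z w = K w z)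
    (Z : Finset ℂ) (hZ : ∀ z ∈ Z, (starRingEnd ℂ) z ∈ Z) (m : ℂ → ℕ)
    (hmc : ∀ z ∈ Z, m ((starRingEnd ℂ) z) = m z)
    (D : ℂ → ℂ → ℝ) (hD2 : ∀ v : ℂ → ℂ, ∑ i ∈ Z.filter (fun z => 0 ≤ z.im),
      ∑ j ∈ Z.filter (fun z => 0 ≤ z.im), D i j * ((starRingEnd ℂ (v i)) * v j).re ≤
        2 * ∑ i ∈ Z.filter (fun z => 0 ≤ z.im), ‖v i‖ ^ 2) :
    ∑ z ∈ Z.filter (fun z => 0 ≤ z.im), ∑ w ∈ Z.filter (fun z => 0 ≤ z.im),
        (2 * (D z w * (Real.sqrt (cw m z / 4) * Real.sqrt (cw m w / 4) *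
          (2 * (K ((starRingEnd ℂ) z) w).re + 2 * (K ((starRingEnd ℂ) z) ((starRingEnd ℂ) w)).re))) -
            (D z w) ^ 2) ≤
      (∑ z ∈ Z, ∑ w ∈ Z, (m z : ℂ) * (m w : ℂ) * (K z w) ^ 2).re +
        ∑ z ∈ Z.filter (fun z => 0 ≤ z.im),
          2 * cw m z * ((K ((starRingEnd ℂ) z) z).re - (K z z).re) := by
  classical
  set P := Z.filter (fun z => 0 ≤ z.im) with hP
  -- conj relation
  have hcj : ∀ a b, (starRingEnd ℂ) (K a b) = K ((starRingEnd ℂ) a) ((starRingEnd ℂ) b) := by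
    intro a b
    have h1 := inner_conj_symm (𝕜 := ℂ) (k b) (k ((starRingEnd ℂ) a))
    rw [hk, hk, Complex.conj_conj] at h1
    rw [h1, hsym]
  -- coefficients
  set c : ℂ → ℝ := fun z => cw m z / 4 with hc
  have hc0 : ∀ z, 0 ≤ c z := fun z => by
    have := cw_nonneg m z
    simp only [hc]; positivity
  set x : ℂ → E := fun z => ((Real.sqrt (c z) : ℝ) : ℂ) • (k z + k ((starRingEnd ℂ) z)) with hx
  set b : ℂ → E := fun z => ((Real.sqrt (c z) : ℝ) : ℂ) • (k z - k ((starRingEnd ℂ) z)) with hb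
  have hsplit : ∀ G : ℂ → ℂ, ∑ z ∈ Z, (m z : ℂ) * G z =
      ∑ z ∈ P, (2 * c z : ℂ) * (G z + G ((starRingEnd ℂ) z)) := by
    intro G
    rw [split_upper Z hZ m hmc G]
    refine Finset.sum_congr rfl fun z _ => ?_
    simp only [hc]
    push_cast
    ring
  -- inner products
  have hxx : ∀ z w, inner ℂ (x z) (x w) = ((Real.sqrt (c z) * Real.sqrt (c w) : ℝ) : ℂ) *
      (K ((starRingEnd ℂ) z) w + K ((starRingEnd ℂ) z) ((starRingEnd ℂ) w) + K z w +
        K z ((starRingEnd ℂ) w)) := by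
    intro z w
    simp only [hx]
    rw [inner_smul_left, inner_smul_right, inner_add_left, inner_add_right, inner_add_right,
      hk, hk, hk, hk, Complex.conj_ofReal, Complex.conj_conj]
    push_cast; ring
  have hxb : ∀ z w, inner ℂ (x z) (b w) = ((Real.sqrt (c z) * Real.sqrt (c w) : ℝ) : ℂ) *
      (K ((starRingEnd ℂ) z) w - K ((starRingEnd ℂ) z) ((starRingEnd ℂ) w) + K z w -
        K z ((starRingEnd ℂ) w)) := by
    intro z w
    simp only [hx, hb]
    rw [inner_smul_left, inner_smul_right, inner_add_left, inner_sub_right, inner_sub_right,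
      hk, hk, hk, hk, Complex.conj_ofReal, Complex.conj_conj]
    push_cast; ring
  have hbb : ∀ z w, inner ℂ (b z) (b w) = ((Real.sqrt (c z) * Real.sqrt (c w) : ℝ) : ℂ) *
      (K ((starRingEnd ℂ) z) w - K ((starRingEnd ℂ) z) ((starRingEnd ℂ) w) - K z w +
        K z ((starRingEnd ℂ) w)) := by
    intro z w
    simp only [hb]
    rw [inner_smul_left, inner_smul_right, inner_sub_left, inner_sub_right, inner_sub_right,
      hk, hk, hk, hk, Complex.conj_ofReal, Complex.conj_conj]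
    push_cast; ring
  -- real forms
  have hA : ∀ z w, K z ((starRingEnd ℂ) w) = (starRingEnd ℂ) (K ((starRingEnd ℂ) z) w) := by
    intro z w
    rw [hcj, Complex.conj_conj]
  have hB : ∀ z w, K z w = (starRingEnd ℂ) (K ((starRingEnd ℂ) z) ((starRingEnd ℂ) w)) := by
    intro z w
    rw [hcj, Complex.conj_conj, Complex.conj_conj]
  set r : ℂ → ℂ → ℝ := fun z w => Real.sqrt (c z) * Real.sqrt (c w) *
    (2 * (K ((starRingEnd ℂ) z) w).re + 2 * (K ((starRingEnd ℂ) z) ((starRingEnd ℂ) w)).re) with hr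
  have hxxr : ∀ z w, inner ℂ (x z) (x w) = (r z w : ℂ) := by
    intro z w
    rw [hxx, hA z w, hB z w]
    simp only [hr]
    apply Complex.ext
    · simp; left; ring
    · simp
  have hbbr : ∀ z w, inner ℂ (b z) (b w) = ((Real.sqrt (c z) * Real.sqrt (c w) *
    (2 * (K ((starRingEnd ℂ) z) w).re - 2 * (K ((starRingEnd ℂ) z) ((starRingEnd ℂ) w)).re) : ℝ)
      : ℂ) := by
    intro z w
    rw [hbb, hA z w, hB z w]
    apply Complex.ext
    · simp; left; ring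
    · simp
  have hxbr : ∀ z w, ‖inner ℂ (x z) (b w)‖ ^ 2 = c z * c w *
    (4 * ((K ((starRingEnd ℂ) z) w).im - (K ((starRingEnd ℂ) z) ((starRingEnd ℂ) w)).im) ^ 2) := by
    intro z w
    rw [hxb, hA z w, hB z w, ← Complex.normSq_eq_norm_sq, Complex.normSq_apply]
    simp only [Complex.mul_re, Complex.ofReal_re, Complex.ofReal_im, Complex.sub_re, Complex.add_re,
      Complex.conj_re, Complex.conj_im, Complex.sub_im, Complex.add_im, Complex.mul_im, zero_mul,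
      sub_zero, add_zero]
    have h1 := Real.mul_self_sqrt (hc0 z)
    have h2 := Real.mul_self_sqrt (hc0 w)
    have : ∀ X : ℝ, (Real.sqrt (c z) * Real.sqrt (c w) * X) * (Real.sqrt (c z) * Real.sqrt (c w) * X)
        = c z * c w * (X * X) := by
      intro X
      calc _ = (Real.sqrt (c z) * Real.sqrt (c z)) * (Real.sqrt (c w) * Real.sqrt (c w)) * (X * X) := by
            ring
        _ = _ := by rw [h1, h2]
    rw [this, this]
    ring
  have hsq : ∀ z w, ∀ X : ℝ, (Real.sqrt (c z) * Real.sqrt (c w) * X) ^ 2 = c z * c w * X ^ 2 := by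
    intro z w X
    rw [mul_pow, mul_pow, Real.sq_sqrt (hc0 z), Real.sq_sqrt (hc0 w)]
  have hxbr' : ∀ z w, ‖inner ℂ (x w) (b z)‖ ^ 2 = c z * c w *
    (4 * ((K ((starRingEnd ℂ) z) w).im + (K ((starRingEnd ℂ) z) ((starRingEnd ℂ) w)).im) ^ 2) := by
    intro z w
    rw [hxbr w z]
    have e1 : K ((starRingEnd ℂ) w) z = (starRingEnd ℂ) (K ((starRingEnd ℂ) z) w) := by
      rw [← hA z w, hsym]
    have e2 : K ((starRingEnd ℂ) w) ((starRingEnd ℂ) z) =
        K ((starRingEnd ℂ) z) ((starRingEnd ℂ) w) := hsym _ _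
    rw [e1, e2, Complex.conj_im]
    ring
  -- trace of T^2
  have htr : (∑ z ∈ Z, ∑ w ∈ Z, (m z : ℂ) * (m w : ℂ) * (K z w) ^ 2).re =
      ∑ z ∈ P, ∑ w ∈ P, 8 * (c z * c w) * ((K ((starRingEnd ℂ) z) w ^ 2).re +
        (K ((starRingEnd ℂ) z) ((starRingEnd ℂ) w) ^ 2).re) := by
    have h1 : ∑ z ∈ Z, ∑ w ∈ Z, (m z : ℂ) * (m w : ℂ) * (K z w) ^ 2 =
        ∑ z ∈ Z, (m z : ℂ) * ∑ w ∈ P, (2 * c w : ℂ) * (K z w ^ 2 +
          K z ((starRingEnd ℂ) w) ^ 2) := by
      refine Finset.sum_congr rfl fun z _ => ?_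
      rw [← hsplit (fun w => K z w ^ 2), Finset.mul_sum]
      refine Finset.sum_congr rfl fun w _ => ?_
      ring
    rw [h1, hsplit (fun z => ∑ w ∈ P, (2 * c w : ℂ) * (K z w ^ 2 +
          K z ((starRingEnd ℂ) w) ^ 2)), Complex.re_sum]
    refine Finset.sum_congr rfl fun z _ => ?_
    rw [← Finset.sum_add_distrib, Finset.mul_sum, Complex.re_sum]
    refine Finset.sum_congr rfl fun w _ => ?_
    rw [hB z w, hA z w, ← map_pow, ← map_pow]
    set X := K ((starRingEnd ℂ) z) w ^ 2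
    set W := K ((starRingEnd ℂ) z) ((starRingEnd ℂ) w) ^ 2
    simp only [Complex.mul_re, Complex.add_re, Complex.conj_re, Complex.ofReal_re, Complex.ofReal_im,
      Complex.mul_im, Complex.add_im, Complex.conj_im]
    norm_num
    ring
  have htr2 : ∑ z ∈ P, ∑ w ∈ P, 8 * (c z * c w) * ((K ((starRingEnd ℂ) z) w ^ 2).re +
        (K ((starRingEnd ℂ) z) ((starRingEnd ℂ) w) ^ 2).re) =
      ∑ z ∈ P, ∑ w ∈ P, (r z w) ^ 2 - 2 * ∑ z ∈ P, ∑ w ∈ P, ‖inner ℂ (x z) (b w)‖ ^ 2 +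
        ∑ z ∈ P, ∑ w ∈ P, ‖inner ℂ (b z) (b w)‖ ^ 2 := by
    have h1 : 2 * ∑ z ∈ P, ∑ w ∈ P, ‖inner ℂ (x z) (b w)‖ ^ 2 =
        ∑ z ∈ P, ∑ w ∈ P, (‖inner ℂ (x z) (b w)‖ ^ 2 + ‖inner ℂ (x w) (b z)‖ ^ 2) := by
      simp_rw [Finset.sum_add_distrib]
      rw [Finset.sum_comm (f := fun z w => ‖inner ℂ (x w) (b z)‖ ^ 2)]
      ring
    rw [h1, ← Finset.sum_sub_distrib, ← Finset.sum_add_distrib]
    refine Finset.sum_congr rfl fun z _ => ?_
    rw [← Finset.sum_sub_distrib, ← Finset.sum_add_distrib]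
    refine Finset.sum_congr rfl fun w _ => ?_
    have e1 : (r z w) ^ 2 = c z * c w * (2 * (K ((starRingEnd ℂ) z) w).re +
        2 * (K ((starRingEnd ℂ) z) ((starRingEnd ℂ) w)).re) ^ 2 := hsq z w _
    rw [hxbr, hxbr', hbbr, Complex.norm_real, Real.norm_eq_abs, sq_abs, e1, hsq,
      sq (K ((starRingEnd ℂ) z) w), sq (K ((starRingEnd ℂ) z) ((starRingEnd ℂ) w)),
      Complex.mul_re, Complex.mul_re]
    ring
  -- norms
  have hbn : ∀ z, ‖b z‖ ^ 2 = cw m z / 2 * ((K ((starRingEnd ℂ) z) z).re - (K z z).re) := by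
    intro z
    have h1 : ((‖b z‖ ^ 2 : ℝ) : ℂ) = inner ℂ (b z) (b z) := by
      rw [inner_self_eq_norm_sq_to_K]; push_cast; rfl
    rw [hbbr] at h1
    have h2 := Complex.ofReal_injective h1
    have h3 : (K ((starRingEnd ℂ) z) ((starRingEnd ℂ) z)).re = (K z z).re := by
      rw [← hcj, Complex.conj_re]
    rw [h2, Real.mul_self_sqrt (hc0 z), h3]
    simp only [hc]
    ring
  -- main inequality
  have hmain := la_core_finset P x b D hD2
  have hDr : ∑ z ∈ P, ∑ w ∈ P, ‖inner ℂ (x z) (x w) - (D z w : ℂ)‖ ^ 2 =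
      ∑ z ∈ P, ∑ w ∈ P, (r z w) ^ 2 - ∑ z ∈ P, ∑ w ∈ P, (2 * (D z w * r z w) - (D z w) ^ 2) := by
    rw [← Finset.sum_sub_distrib]
    refine Finset.sum_congr rfl fun z hz => ?_
    rw [← Finset.sum_sub_distrib]
    refine Finset.sum_congr rfl fun w _ => ?_
    rw [hxxr, ← Complex.ofReal_sub, Complex.norm_real, Real.norm_eq_abs, sq_abs]
    ring
  rw [hDr] at hmain
  rw [htr, htr2]
  have e2 : ∑ z ∈ P, 2 * cw m z * ((K ((starRingEnd ℂ) z) z).re - (K z z).re) =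
      4 * ∑ z ∈ P, ‖b z‖ ^ 2 := by
    rw [Finset.mul_sum]
    refine Finset.sum_congr rfl fun z _ => ?_
    rw [hbn]; ring
  have e3 : ∑ z ∈ P, ∑ w ∈ P, (2 * (D z w * r z w) - (D z w) ^ 2) =
      ∑ z ∈ P, ∑ w ∈ P,
        (2 * (D z w * (Real.sqrt (cw m z / 4) * Real.sqrt (cw m w / 4) *
          (2 * (K ((starRingEnd ℂ) z) w).re + 2 * (K ((starRingEnd ℂ) z) ((starRingEnd ℂ) w)).re))) -
            (D z w) ^ 2) := rfl
  rw [← e3, e2]
  linarith

end TH803CL
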