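import Pool.Agent.TH803.CL.Sep

/-! Isolated and separated zeros in a window. -/

open Complex Filter Topology Set MeasureTheory
open scoped BigOperators ComplexConjugate

namespace TH803CL

open H370 H370.A2 H295SI TH803UC

open Classical in
/-- simple critical zeros in `(A, B]` at distance at least `d` from the other zeros in `(A, B]` -/
noncomputable def isoZ (F : ℂ → ℂ) (A B d : ℝ) : Finset ℂ :=
  (Zf F A B).filter (fun s => s.re = 1 / 2 ∧ mult F s = 1 ∧
    ∀ s' ∈ Zf F A B, s' ≠ s → d ≤ ‖s - s'‖)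

lemma zz_dist (s s' : ℂ) : ‖zz s - zz s'‖ = ‖s - s'‖ := by
  have : zz s - zz s' = -I * (s - s') := by unfold zz; ring
  rw [this, norm_mul, norm_neg, Complex.norm_I, one_mul]

lemma zz_back (s : ℂ) : (1 / 2 + I * zz s) = s := by
  have := zz_spec s
  linear_combination -this

section

variable {F : ℂ → ℂ} (hF : GoodL F) {A B : ℝ} (hU : 1 ≤ A)

include hF hU

lemma Zpos : ∀ z ∈ (Zf F A B).image zz, 1 ≤ mult F (1 / 2 + I * z) := by
  intro z hz
  rw [Finset.mem_image] at hz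
  obtain ⟨s, hs, rfl⟩ := hz
  rw [zz_back]
  have := (mem_Zf hF hU).mp hs
  exact Loc.mult_pos' hF (by linarith [this.2.2.1]) this.2.2.2.2

lemma Zconj : ∀ z ∈ (Zf F A B).image zz, (starRingEnd ℂ) z ∈ (Zf F A B).image zz := by
  intro z hz
  rw [Finset.mem_image] at hz
  obtain ⟨s, hs, rfl⟩ := hz
  rw [← zz_refl]
  exact Finset.mem_image_of_mem _ ((mem_Zf hF hU).mpr (zset_refl hF hU ((mem_Zf hF hU).mp hs)))

lemma Zmc : ∀ z ∈ (Zf F A B).image zz, mult F (1 / 2 + I * (starRingEnd ℂ) z) =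
    mult F (1 / 2 + I * z) := by
  intro z hz
  rw [Finset.mem_image] at hz
  obtain ⟨s, hs, rfl⟩ := hz
  have := (mem_Zf hF hU).mp hs
  rw [← zz_refl, zz_back, zz_back, mult_refl hF this.1 this.2.1 (by linarith [this.2.2.1])]

lemma ZN : ∑ z ∈ ((Zf F A B).image zz).filter (fun z => 0 ≤ z.im),
    cw (fun z => mult F (1 / 2 + I * z)) z = NN F A B := by
  have h := split_real ((Zf F A B).image zz) (Zconj hF hU) (fun z => mult F (1 / 2 + I * z))
    (Zmc hF hU) (fun _ => 1) (fun _ => rfl)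
  simp only [mul_one] at h
  rw [← h, NN_eq hF hU, Finset.sum_image (fun s _ s' _ h => zz_inj h)]
  push_cast
  refine Finset.sum_congr rfl fun s _ => ?_
  rw [zz_back]

lemma ZQ (g : ℝ → ℝ) (Λ : ℝ) : (∑ z ∈ (Zf F A B).image zz, ∑ w ∈ (Zf F A B).image zz,
    ((mult F (1 / 2 + I * z) : ℕ) : ℂ) * ((mult F (1 / 2 + I * w) : ℕ) : ℂ) *
      (phiG g Λ (z - w)) ^ 2).re = QQG g F Λ A B := by
  rw [H143TG.QQG_eq hF hU, Finset.sum_image (fun s _ s' _ h => zz_inj h)]
  congr 1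
  refine Finset.sum_congr rfl fun s _ => ?_
  rw [Finset.sum_image (fun s _ s' _ h => zz_inj h)]
  refine Finset.sum_congr rfl fun s' _ => ?_
  rw [zz_back, zz_back]

/-- **isolated zeros in a window** -/
theorem iso_zeros {g : ℝ → ℝ} (hg : Win g) {Λ L δ : ℝ} (hΛ : 0 ≤ Λ) (hΛL : Λ ≤ L) (hL : 10 ≤ L)
    (hδ : 0 < δ) (hδ1 : δ ≤ 1 / 3) :
    2 * (NN F A B : ℝ) - QQG g F Λ A B - 74 * δ ^ 2 * NN F A B ≤ (isoZ F A B (δ / L)).card := by
  classical
  obtain ⟨E, iE1, iE2, k, hk⟩ := H143TG.gramG_exists hg Λ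
  have hL0 : 0 < L := by linarith
  have h := iso_ineq (phiG g Λ) k hk (H143TG.phiG_even hg Λ) (H143TG.phiG_zero hg Λ)
    ((Zf F A B).image zz) (Zconj hF hU) (fun z => mult F (1 / 2 + I * z)) (Zpos hF hU)
    (Zmc hF hU) (d := δ / L) (η := 37 / 4 * δ ^ 2) (by positivity) (by positivity) (by
      intro u hu
      refine (phi_one hg hΛ hΛL hL (R := 6 * δ) (by linarith) ?_).trans (by nlinarith [sq_nonneg δ])
      calc ‖u‖ * L ≤ 6 * (δ / L) * L := by gcongr
        _ = 6 * δ := by field_simp)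
  rw [ZN hF hU, ZQ hF hU] at h
  have hc : (isoP ((Zf F A B).image zz) (fun z => mult F (1 / 2 + I * z)) (δ / L)).card ≤
      (isoZ F A B (δ / L)).card := by
    have : isoP ((Zf F A B).image zz) (fun z => mult F (1 / 2 + I * z)) (δ / L) ⊆
        (isoZ F A B (δ / L)).image zz := by
      intro z hz
      unfold isoP at hz
      rw [Finset.mem_filter, Finset.mem_image] at hz
      obtain ⟨⟨s, hs, rfl⟩, h1, h2, h3⟩ := hz
      have h2' : mult F (1 / 2 + I * zz s) = 1 := h2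
      rw [zz_back] at h2'
      rw [zz_im] at h1
      refine Finset.mem_image_of_mem _ ?_
      unfold isoZ
      rw [Finset.mem_filter]
      refine ⟨hs, by linarith, h2', fun s' hs' hne => ?_⟩
      have := h3 (zz s') (Finset.mem_image_of_mem _ hs') (fun h => hne (zz_inj h))
      rwa [zz_dist] at this
    exact (Finset.card_le_card this).trans Finset.card_image_le
  have hc' : ((isoP ((Zf F A B).image zz) (fun z => mult F (1 / 2 + I * z)) (δ / L)).card : ℝ) ≤
      (isoZ F A B (δ / L)).card := by exact_mod_cast hc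
  have e1 : 8 * (37 / 4 * δ ^ 2) = 74 * δ ^ 2 := by ring
  rw [e1] at h
  linarith

/-- separated sets of zeros in a window, general kernel bounds -/
theorem sep_zeros {g : ℝ → ℝ} (hg : Win g) {Λ d η y : ℝ} (hd : 0 < d) (hη : 0 ≤ η)
    (hφ : ∀ z w : ℂ, 0 ≤ z.im → z.im ≤ y + d → 0 ≤ w.im → w.im ≤ y + d → ‖z - w‖ < 2 * d →
      ‖phiG g Λ ((starRingEnd ℂ) z - w) - phiG g Λ ((starRingEnd ℂ) z - z)‖ ≤ η ∧
        ‖phiG g Λ ((starRingEnd ℂ) z - (starRingEnd ℂ) w) - 1‖ ≤ η) :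
    ∃ M ⊆ Zf F A B, (∀ s ∈ M, 1 / 2 ≤ s.re) ∧
      (∀ a ∈ M, ∀ b ∈ M, a ≠ b → (a.re - 1 / 2 < y ∨ b.re - 1 / 2 < y) → d ≤ ‖a - b‖) ∧
      3 * (NN F A B : ℝ) - QQG g F Λ A B - 4 * η * NN F A B ≤ 2 * (M.card : ℝ) := by
  classical
  obtain ⟨E, iE1, iE2, k, hk⟩ := H143TG.gramG_exists hg Λ
  obtain ⟨M, hM, hsep, hcount⟩ := sep_ineq (phiG g Λ) k hk (H143TG.phiG_even hg Λ)
    (H143TG.phiG_zero hg Λ)
    ((Zf F A B).image zz) (Zconj hF hU) (fun z => mult F (1 / 2 + I * z)) (Zpos hF hU)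
    (Zmc hF hU) hd hη hφ
  rw [ZN hF hU, ZQ hF hU] at hcount
  set ι : ℂ → ℂ := fun z => 1 / 2 + I * (starRingEnd ℂ) z with hι
  have hιinj : Function.Injective ι := by
    intro a b h
    simp only [hι] at h
    have h1 : I * (starRingEnd ℂ) a = I * (starRingEnd ℂ) b := by linear_combination h
    have h2 := mul_left_cancel₀ I_ne_zero h1
    have := congrArg (starRingEnd ℂ) h2
    rwa [Complex.conj_conj, Complex.conj_conj] at this
  have hιre : ∀ z, (ι z).re = 1 / 2 + z.im := by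
    intro z; simp [hι]
  have hιd : ∀ a b, ‖ι a - ι b‖ = ‖a - b‖ := by
    intro a b
    have : ι a - ι b = I * (starRingEnd ℂ) (a - b) := by
      simp only [hι, map_sub]; ring
    rw [this, norm_mul, Complex.norm_I, one_mul, RCLike.norm_conj]
  refine ⟨M.image ι, ?_, ?_, ?_, ?_⟩
  · intro s hs
    rw [Finset.mem_image] at hs
    obtain ⟨z, hz, rfl⟩ := hs
    have hz2 := (Finset.mem_filter.1 (hM hz)).1
    rw [Finset.mem_image] at hz2
    obtain ⟨t, ht, rfl⟩ := hz2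
    have e1 : ι (zz t) = 1 - (starRingEnd ℂ) t := by
      simp only [hι]
      rw [← zz_refl, zz_back]
    rw [e1]
    exact (mem_Zf hF hU).mpr (zset_refl hF hU ((mem_Zf hF hU).mp ht))
  · intro s hs
    rw [Finset.mem_image] at hs
    obtain ⟨z, hz, rfl⟩ := hs
    have hz2 := (Finset.mem_filter.1 (hM hz)).2
    rw [hιre]; linarith
  · intro a ha b hb hab h
    rw [Finset.mem_image] at ha hb
    obtain ⟨z, hz, rfl⟩ := ha
    obtain ⟨w, hw, rfl⟩ := hb
    rw [hιd]
    rw [hιre, hιre] at h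
    refine hsep z hz w hw (fun h => hab (by rw [h])) ?_
    rcases h with h | h
    · left; linarith
    · right; linarith
  · rw [Finset.card_image_of_injective _ hιinj]
    exact hcount

end

lemma conj_sub_self (z : ℂ) : ‖(starRingEnd ℂ) z - z‖ = 2 * |z.im| := by
  have e1 : (starRingEnd ℂ) z - z = ((-(2 * z.im) : ℝ) : ℂ) * Complex.I := by
    apply Complex.ext
    · simp
    · simp; ring
  rw [e1, norm_mul, Complex.norm_I, mul_one, Complex.norm_real, Real.norm_eq_abs, abs_neg,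
    abs_mul, abs_of_pos (by norm_num : (0 : ℝ) < 2)]

end TH803CL
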