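import Pool.Agent.TH803.CL.Zer
import Pool.Agent.TH803.CL.GeoY
import Pool.Agent.H370R2.Fin4

/-! Isolated and separated zeros in a window, with the gain from a test matrix. -/

open Complex Filter Topology Set MeasureTheory
open scoped BigOperators ComplexConjugate

namespace TH803CL

open H370 H370.A2 H295SI TH803UC

lemma win_g0 : Win g0 where
  cont := GramAux.g0_cont
  nonneg := fun _ h1 h2 => GramAux.g0_nonneg h1 h2
  even := fun x => by unfold g0; rw [mul_neg, Real.cos_neg]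
  mass := by
    have h := kap_zero
    unfold kap at h
    have h1 : ∀ x : ℝ, (g0 x : ℂ) * cexp (I * 0 * x) = ((g0 x : ℝ) : ℂ) := by
      intro x; simp
    simp_rw [h1] at h
    rw [intervalIntegral.integral_ofReal] at h
    exact_mod_cast h

lemma YG_eq (Λ : ℝ) (S : Finset ℝ) (Y : ℝ → ℝ → ℝ) : YG (phiG g0 Λ) S Y = YT Λ S Y := rfl

lemma QQ_eq (F : ℂ → ℂ) (Λ A B : ℝ) : QQG g0 F Λ A B = QQ F Λ A B := rfl

section

variable {F : ℂ → ℂ} (hF : GoodL F) {A B : ℝ} (hU : 1 ≤ A)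

include hF hU

/-- **isolated zeros in a window, with a test matrix** -/
theorem iso_zerosY {Λ L δ : ℝ} (hΛ : 0 ≤ Λ) (hΛL : Λ ≤ L) (hL : 10 ≤ L)
    (hδ : 0 < δ) (hδ1 : δ ≤ 1 / 3) :
    ∃ S : Finset ℝ, (∀ x ∈ S, (1 / 2 + I * x : ℂ) ∈ isoZ F A B (δ / L)) ∧
      ∀ Y : ℝ → ℝ → ℝ, YB S Y →
        2 * (NN F A B : ℝ) - QQ F Λ A B - 74 * δ ^ 2 * NN F A B + YT Λ S Y ≤ S.card := by
  classical
  obtain ⟨E, iE1, iE2, k, hk⟩ := H143TG.gramG_exists win_g0 Λ
  have hL0 : 0 < L := by linarith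
  obtain ⟨S, hS, h⟩ := iso_Y (phiG g0 Λ) k hk (H143TG.phiG_even win_g0 Λ)
    (H143TG.phiG_zero win_g0 Λ)
    ((Zf F A B).image zz) (Zconj hF hU) (fun z => mult F (1 / 2 + I * z)) (Zpos hF hU)
    (Zmc hF hU) (d := δ / L) (η := 37 / 4 * δ ^ 2) (by positivity) (by positivity) (by
      intro u hu
      refine (phi_one win_g0 hΛ hΛL hL (R := 6 * δ) (by linarith) ?_).trans
        (by nlinarith [sq_nonneg δ])
      calc ‖u‖ * L ≤ 6 * (δ / L) * L := by gcongr
        _ = 6 * δ := by field_simp)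
  refine ⟨S, ?_, fun Y hY => ?_⟩
  · intro x hx
    have hz := hS x hx
    unfold isoP at hz
    rw [Finset.mem_filter, Finset.mem_image] at hz
    obtain ⟨⟨s, hs, hsx⟩, h1, h2, h3⟩ := hz
    rw [← hsx] at h1 h2 h3
    have h2' : mult F (1 / 2 + I * zz s) = 1 := h2
    rw [zz_back] at h2'
    rw [zz_im] at h1
    rw [← hsx, zz_back]
    unfold isoZ
    rw [Finset.mem_filter]
    refine ⟨hs, by linarith, h2', fun s' hs' hne => ?_⟩
    have := h3 (zz s') (Finset.mem_image_of_mem _ hs') (fun h => hne (zz_inj h))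
    rwa [zz_dist] at this
  · have h' := h Y hY
    rw [ZN hF hU, ZQ hF hU, YG_eq, QQ_eq] at h'
    have e1 : 8 * (37 / 4 * δ ^ 2) = 74 * δ ^ 2 := by ring
    rw [e1] at h'
    linarith

/-- separated sets of zeros in a window, with a test matrix -/
theorem sep_zerosY {Λ d η y : ℝ} (hd : 0 < d) (hη : 0 ≤ η)
    (hφ : ∀ z w : ℂ, 0 ≤ z.im → z.im ≤ y + d → 0 ≤ w.im → w.im ≤ y + d → ‖z - w‖ < 2 * d →
      ‖phiG g0 Λ ((starRingEnd ℂ) z - w) - phiG g0 Λ ((starRingEnd ℂ) z - z)‖ ≤ η ∧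
        ‖phiG g0 Λ ((starRingEnd ℂ) z - (starRingEnd ℂ) w) - 1‖ ≤ η) :
    ∃ M ⊆ Zf F A B, (∀ s ∈ M, 1 / 2 ≤ s.re) ∧
      (∀ a ∈ M, ∀ b ∈ M, a ≠ b → (a.re - 1 / 2 < y ∨ b.re - 1 / 2 < y) → d ≤ ‖a - b‖) ∧
      ∃ S : Finset ℝ, (∀ x ∈ S, A < x ∧ x ≤ B) ∧
        2 * (NN F A B : ℝ) - QQ F Λ A B - 4 * η * NN F A B ≤ S.card ∧
        ∀ Y : ℝ → ℝ → ℝ, YB S Y →
          3 * (NN F A B : ℝ) - QQ F Λ A B - 4 * η * NN F A B + YT Λ S Y ≤ 2 * (M.card : ℝ) := by
  classical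
  obtain ⟨E, iE1, iE2, k, hk⟩ := H143TG.gramG_exists win_g0 Λ
  obtain ⟨M, hM, hsep, S, hS, hScard, hcount⟩ := sep_Y (phiG g0 Λ) k hk
    (H143TG.phiG_even win_g0 Λ) (H143TG.phiG_zero win_g0 Λ)
    ((Zf F A B).image zz) (Zconj hF hU) (fun z => mult F (1 / 2 + I * z)) (Zpos hF hU)
    (Zmc hF hU) hd hη hφ
  rw [ZN hF hU, ZQ hF hU, QQ_eq] at hScard
  set ι : ℂ → ℂ := fun z => 1 / 2 + I * (starRingEnd ℂ) z with hι
  have hιinj : Function.Injective ι := by
    intro a b h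
    simp only [hι] at h
    have h1 : I * (starRingEnd ℂ) a = I * (starRingEnd ℂ) b := by linear_combination h
    have h2 := mul_left_cancel₀ I_ne_zero h1
    have := congrArg (starRingEnd ℂ) h2
    rwa [Complex.conj_conj, Complex.conj_conj] at this
  have hιre : ∀ z, (ι z).re = 1 / 2 + z.im := by
    intro z; simp [hι]
  have hιd : ∀ a b, ‖ι a - ι b‖ = ‖a - b‖ := by
    intro a b
    have : ι a - ι b = I * (starRingEnd ℂ) (a - b) := by
      simp only [hι, map_sub]; ring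
    rw [this, norm_mul, Complex.norm_I, one_mul, RCLike.norm_conj]
  refine ⟨M.image ι, ?_, ?_, ?_, S, ?_, hScard, ?_⟩
  · intro s hs
    rw [Finset.mem_image] at hs
    obtain ⟨z, hz, rfl⟩ := hs
    have hz2 := (Finset.mem_filter.1 (hM hz)).1
    rw [Finset.mem_image] at hz2
    obtain ⟨t, ht, rfl⟩ := hz2
    have e1 : ι (zz t) = 1 - (starRingEnd ℂ) t := by
      simp only [hι]
      rw [← zz_refl, zz_back]
    rw [e1]
    exact (mem_Zf hF hU).mpr (zset_refl hF hU ((mem_Zf hF hU).mp ht))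
  · intro s hs
    rw [Finset.mem_image] at hs
    obtain ⟨z, hz, rfl⟩ := hs
    have hz2 := (Finset.mem_filter.1 (hM hz)).2
    rw [hιre]; linarith
  · intro a ha b hb hab h
    rw [Finset.mem_image] at ha hb
    obtain ⟨z, hz, rfl⟩ := ha
    obtain ⟨w, hw, rfl⟩ := hb
    rw [hιd]
    rw [hιre, hιre] at h
    refine hsep z hz w hw (fun h => hab (by rw [h])) ?_
    rcases h with h | h
    · left; linarith
    · right; linarith
  · intro x hx
    have hz := hS x hx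
    rw [Finset.mem_image] at hz
    obtain ⟨s, hs, hsx⟩ := hz
    have h1 := (mem_Zf hF hU).mp hs
    have h2 : s.im = x := by
      have := congrArg Complex.re hsx
      rwa [zz_re, Complex.ofReal_re] at this
    rw [← h2]
    exact ⟨h1.2.2.1, h1.2.2.2.1⟩
  · intro Y hY
    rw [Finset.card_image_of_injective _ hιinj]
    have h' := hcount Y hY
    rw [ZN hF hU, ZQ hF hU, YG_eq, QQ_eq] at h'
    exact h'

end

/-- **windows with a gain** -/
theorem windowsY : ∃ κ : ℝ, 0 < κ ∧ κ ≤ 1 / 4 ∧ ∀ F : ℂ → ℂ, GoodL F → ∀ ε E : ℝ, 0 < ε → 0 ≤ E →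
    ∃ T0 : ℝ, 10 ≤ T0 ∧ ∀ T : ℝ, T0 ≤ T → ∃ (Λ U1 U2 : ℝ), 0 ≤ Λ ∧ Λ ≤ Real.log T ∧
      10 ≤ Real.log T ∧ T ≤ U1 ∧ U1 ≤ T + 1 ∧ 2 * T - 1 ≤ U2 ∧ U2 ≤ 2 * T ∧
      (∀ k : ℝ, 0 ≤ k → k ≤ 4 → (k - cc 1 - ε) * (NN F T (2 * T) : ℝ) ≤
          k * NN F U1 U2 - QQ F Λ U1 U2 - E * Real.log T) ∧
      ∀ S : Finset ℝ, (∀ x ∈ S, U1 < x ∧ x ≤ U2) → 11 / 20 * (NN F T (2 * T) : ℝ) ≤ S.card →
        ∃ Y : ℝ → ℝ → ℝ, YB S Y ∧ κ * (NN F T (2 * T) : ℝ) ≤ YT Λ S Y := by
  obtain ⟨κ0, hκ0, hκ01, θ, hθ, T1, H⟩ := yhyp_triples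
  refine ⟨min (κ0 / 2) (1 / 4), lt_min (by positivity) (by norm_num), min_le_right _ _,
    fun F hF ε E hε hE => ?_⟩
  set κ : ℝ := min (κ0 / 2) (1 / 4) with hκ
  have hκk : κ ≤ κ0 / 2 := min_le_left _ _
  set J : ℝ := ∫ α in (0 : ℝ)..1, α * Rf α with hJ
  have hJ0 : 0 ≤ J := Jint_nonneg
  have hR0 : 0 ≤ Rf 0 := Rf_nonneg 0
  have hcM : Rf 0 + 2 * J = cc 1 := Rf_const
  have hcM0 : 0 ≤ cc 1 := by rw [← hcM]; positivity
  have hcM2 : cc 1 < 3 / 2 := cMTinv_lt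
  set e : ℝ := min ε 1 with he
  have he0 : 0 < e := lt_min hε one_pos
  have he1 : e ≤ ε := min_le_left _ _
  have he2 : e ≤ 1 := min_le_right _ _
  set K : ℝ := 4 + cc 1 with hKdef
  have hK0 : 0 < K := by linarith
  have hK1 : 1 ≤ K := by linarith
  set η : ℝ := e / (80 * K) with hη
  have hη0 : 0 < η := by positivity
  have hηK : K * η = e / 80 := by rw [hη]; field_simp
  have hηe : η ≤ e / 80 := by
    rw [← hηK]
    exact le_mul_of_one_le_left hη0.le hK1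
  set ρ : ℝ := min (min (1 / 4) θ) (e / (8 * (Rf 0 + 1))) with hρ
  have hρ0 : 0 < ρ := lt_min (lt_min (by norm_num) hθ) (by positivity)
  have hρ1 : ρ ≤ 1 / 4 := (min_le_left _ _).trans (min_le_left _ _)
  have hρ2 : ρ ≤ θ := (min_le_left _ _).trans (min_le_right _ _)
  have hρ3 : ρ * (8 * (Rf 0 + 1)) ≤ e := by
    have := min_le_right (min (1 / 4) θ) (e / (8 * (Rf 0 + 1)))
    rw [← hρ, le_div_iff₀ (by positivity)] at this
    exact this
  have hρ4 : 2 * ρ * Rf 0 ≤ e / 4 := by linarith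
  obtain ⟨T2, hT2, hPC⟩ := pair_corr hF ρ η hρ0 (by linarith) hη0
  obtain ⟨C0, hC0, hends⟩ := NN_ends hF
  set C : ℝ := 4 * C0 + E + 1 with hCdef
  have hCp : 0 < C := by positivity
  refine ⟨max (max T1 T2) (max (10 + Real.exp 10) (2 * Real.pi * C * (80 * K) / e)),
    (by have := Real.exp_pos 10; linarith : (10 : ℝ) ≤ 10 + Real.exp 10).trans
      ((le_max_left _ _).trans (le_max_right _ _)), fun T hT => ?_⟩
  have hTT1 : T1 ≤ T := ((le_max_left _ _).trans (le_max_left _ _)).trans hT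
  have hTT2 : T2 ≤ T := ((le_max_right _ _).trans (le_max_left _ _)).trans hT
  have hTe : 10 + Real.exp 10 ≤ T := ((le_max_left _ _).trans (le_max_right _ _)).trans hT
  have hT10 : 10 ≤ T := by have := Real.exp_pos 10; linarith
  have hTC : 2 * Real.pi * C * (80 * K) / e ≤ T :=
    ((le_max_right _ _).trans (le_max_right _ _)).trans hT
  obtain ⟨U1, U2, hU1, hU1', hU2, hU2', hNN, hQQ⟩ := hPC T hTT2
  have hL1 : 10 ≤ Real.log T := by
    rw [Real.le_log_iff_exp_le (by linarith)]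
    linarith
  have hL : 0 < Real.log T := by linarith
  set M : ℝ := T * Real.log T / (2 * Real.pi) with hM
  have hpi := Real.pi_pos
  have hM0 : 0 < M := by positivity
  have hTL : T * Real.log T = 2 * Real.pi * M := by rw [hM]; field_simp
  rw [hTL] at hNN
  have hpi2 : Real.pi < 3.15 := Real.pi_lt_d2
  have hηM : η * (2 * Real.pi * M) ≤ 7 * (η * M) := by
    have : 2 * Real.pi ≤ 7 := by linarith
    calc η * (2 * Real.pi * M) = (η * M) * (2 * Real.pi) := by ring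
      _ ≤ (η * M) * 7 := by
        apply mul_le_mul_of_nonneg_left this (by positivity)
      _ = 7 * (η * M) := by ring
  obtain ⟨hNNl, hNNu⟩ := abs_le.mp hNN
  have h1e : 1 / (1 - ρ) ≤ 1 + 2 * ρ := by
    rw [div_le_iff₀ (by linarith)]
    have := mul_nonneg hρ0.le (show (0 : ℝ) ≤ 1 - 2 * ρ by linarith)
    linarith
  have hQ : QQ F ((1 - ρ) * Real.log T) U1 U2 ≤ M * (cc 1 + e / 4 + η) := by
    refine hQQ.trans ?_
    apply mul_le_mul_of_nonneg_left _ hM0.le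
    have : Rf 0 / (1 - ρ) ≤ (1 + 2 * ρ) * Rf 0 := by
      rw [div_eq_mul_one_div, mul_comm]
      exact mul_le_mul_of_nonneg_right h1e hR0
    have h2 : 2 * (1 - ρ) * J ≤ 2 * J := by
      have := mul_nonneg hρ0.le hJ0
      linarith
    rw [← hcM]
    linarith
  have hend := hends T hT10 U1 U2 hU1 hU1' hU2 hU2'
  have hNNm : (NN F U1 U2 : ℝ) ≤ NN F T (2 * T) := by
    exact_mod_cast NN_mono hF (by linarith) hU1 hU2'
  have hCL : C * Real.log T ≤ η * M := by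
    rw [hM]
    rw [div_le_iff₀ he0] at hTC
    have : η * (T * Real.log T / (2 * Real.pi)) =
      (T * e) * (Real.log T / (160 * K * Real.pi)) := by rw [hη]; field_simp; ring
    rw [this]
    calc C * Real.log T = (2 * Real.pi * C * (80 * K)) * (Real.log T / (160 * K * Real.pi)) := by
          field_simp; ring
      _ ≤ (T * e) * (Real.log T / (160 * K * Real.pi)) :=
        mul_le_mul_of_nonneg_right hTC (by positivity)
  have hC0L : C0 * Real.log T ≤ C * Real.log T := by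
    apply mul_le_mul_of_nonneg_right _ hL.le
    rw [hCdef]; linarith
  have hNN0 : (0 : ℝ) ≤ NN F T (2 * T) := Nat.cast_nonneg _
  have hηM0 : 0 < η * M := by positivity
  have hηeM : η * M ≤ e * M / 80 := by
    have := mul_le_mul_of_nonneg_right hηe hM0.le
    linarith
  have heMM : e * M ≤ M := mul_le_of_le_one_left hM0.le he2
  have hKηM : K * (η * M) = e * M / 80 := by
    rw [← mul_assoc, hηK]; ring
  have h8 : M * (cc 1 + e / 4 + η) = cc 1 * M + e * M / 4 + η * M := by ring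
  rw [h8] at hQ
  have hlow : M - 7 * (η * M) ≤ NN F T (2 * T) := by linarith
  have hup : (NN F T (2 * T) : ℝ) ≤ M + 8 * (η * M) := by linarith
  have hlow2 : (cc 1 + e) * (M - 7 * (η * M)) ≤ (cc 1 + e) * (NN F T (2 * T) : ℝ) :=
    mul_le_mul_of_nonneg_left hlow (by linarith)
  have hlow3 : (cc 1 + e) * (7 * (η * M)) ≤ 7 * (e * M / 80) := by
    have : (cc 1 + e) * (7 * (η * M)) ≤ K * (7 * (η * M)) :=
      mul_le_mul_of_nonneg_right (by linarith) (by positivity)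
    linarith
  have hρL : (1 - ρ) * Real.log T ≤ Real.log T := by
    have := mul_nonneg hρ0.le hL.le
    linarith
  refine ⟨(1 - ρ) * Real.log T, U1, U2, mul_nonneg (by linarith) hL.le, hρL, hL1, hU1,
    hU1', hU2, hU2', fun k hk0 hk4 => ?_, fun S hS hcard => ?_⟩
  · have b1 : (k - cc 1 - ε) * (NN F T (2 * T) : ℝ) ≤ (k - cc 1 - e) * (NN F T (2 * T) : ℝ) :=
      mul_le_mul_of_nonneg_right (by linarith) hNN0
    have b2 : k * (NN F T (2 * T) : ℝ) ≤ k * NN F U1 U2 + 4 * C0 * Real.log T := by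
      have c1 := mul_le_mul_of_nonneg_left hend hk0
      have c2 : k * (C0 * Real.log T) ≤ 4 * (C0 * Real.log T) :=
        mul_le_mul_of_nonneg_right hk4 (by positivity)
      linarith
    have b3 : C * Real.log T = 4 * C0 * Real.log T + E * Real.log T + Real.log T := by
      rw [hCdef]; ring
    have b4 : (k - cc 1 - e) * (NN F T (2 * T) : ℝ) = k * (NN F T (2 * T) : ℝ) -
        (cc 1 + e) * (NN F T (2 * T) : ℝ) := by ring
    have b5 : (cc 1 + e) * (M - 7 * (η * M)) = cc 1 * M + e * M - (cc 1 + e) * (7 * (η * M)) := by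
      ring
    have heM : 0 < e * M := by positivity
    linarith
  · obtain ⟨Y, hY, hYT⟩ := H T hTT1 ((1 - ρ) * Real.log T)
      (mul_le_mul_of_nonneg_right (by linarith) hL.le) hρL S
      (fun x hx => ⟨by linarith [(hS x hx).1], by linarith [(hS x hx).2]⟩) (by
        rw [← hM]
        linarith)
    refine ⟨Y, hY, ?_⟩
    rw [← hM] at hYT
    have d1 : (NN F T (2 * T) : ℝ) ≤ 2 * M := by linarith
    calc κ * (NN F T (2 * T) : ℝ) ≤ κ0 / 2 * (2 * M) :=
          mul_le_mul hκk d1 hNN0 (by positivity)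
      _ = κ0 * M := by ring
      _ ≤ _ := hYT

end TH803CL
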